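import Pool.Agent.Y129.WM.FDefs

/-!
# Linear maps
-/

namespace Pool.Agent.Y129.WM

open Polynomial Module

variable {K Γ : Type} [Field K] [Group Γ] {s : WeilGroup K Γ}

theorem WDRep.ρ_add (A : WDRep s) (g : Γ) (x y : A.V) : A.ρ g (x + y) = A.ρ g x + A.ρ g y := by
  have h := A.ρ_lin g 1 x y
  rwa [one_smul, one_smul] at h

theorem WDRep.ρ_zero (A : WDRep s) (g : Γ) : A.ρ g 0 = 0 := by
  have h := A.ρ_add g 0 0
  rw [add_zero] at h
  exact (add_eq_left.1 h.symm)

theorem WDRep.N_add (A : WDRep s) (x y : A.V) : A.N (x + y) = A.N x + A.N y := by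
  have h := A.N_lin 1 x y
  rwa [one_smul, one_smul] at h

theorem WDRep.N_zero (A : WDRep s) : A.N 0 = 0 := by
  have h := A.N_add 0 0
  rw [add_zero] at h
  exact (add_eq_left.1 h.symm)

/-- The operator `N` as a linear map. -/
def WDRep.n (A : WDRep s) : End K A.V where
  toFun := A.N
  map_add' := A.N_add
  map_smul' a x := by
    have h := A.N_lin a x 0
    rwa [add_zero, A.N_zero, add_zero] at h

/-- The representation `ρ`. -/
def WDRep.rep (A : WDRep s) : Representation K Γ A.V where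
  toFun g :=
    { toFun := A.ρ g
      map_add' := A.ρ_add g
      map_smul' := fun a x => by
        have h := A.ρ_lin g a x 0
        rwa [add_zero, A.ρ_zero, add_zero] at h }
  map_one' := LinearMap.ext A.ρ_one
  map_mul' g h := LinearMap.ext (A.ρ_mul g h)

theorem WDRep.rep_apply (A : WDRep s) (g : Γ) (x : A.V) : A.rep g x = A.ρ g x := rfl

theorem WDRep.n_apply (A : WDRep s) (x : A.V) : A.n x = A.N x := rfl

theorem iter_eq {V : Type} [AddCommGroup V] [Module K V] (f : End K V) (k : ℕ) (x : V) :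
    (⇑f)^[k] x = (f ^ k) x := by
  rw [Module.End.pow_apply]

theorem WDRep.N_iter (A : WDRep s) (k : ℕ) (x : A.V) : A.N^[k] x = (A.n ^ k) x :=
  iter_eq A.n k x

theorem WDRep.n_nilpotent (A : WDRep s) : IsNilpotent A.n := by
  obtain ⟨n, hn⟩ := A.nilpotent
  exact ⟨n, LinearMap.ext fun x => by rw [← A.N_iter, hn]; rfl⟩

theorem WDRep.n_rep (A : WDRep s) (g : Γ) (x : A.V) :
    A.n (A.rep g x) = (s.c g : K) • A.rep g (A.n x) := A.N_ρ g x

/-- A pairing as a bilinear map. -/
def Pairing.lin {d : ℤ} {A B Z : WDRep s} (β : Pairing d A B Z) : A.V →ₗ[K] B.V →ₗ[K] Z.V :=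
  have h1 : ∀ x x' y, β.map (x + x') y = β.map x y + β.map x' y := fun x x' y => by
    have h := β.map_left 1 x x' y
    rwa [one_smul, one_smul] at h
  have h2 : ∀ x y y', β.map x (y + y') = β.map x y + β.map x y' := fun x y y' => by
    have h := β.map_right 1 x y y'
    rwa [one_smul, one_smul] at h
  have h3 : ∀ y, β.map 0 y = 0 := fun y => by
    have h := h1 0 0 y
    rw [add_zero] at h
    exact (add_eq_left.1 h.symm)
  have h4 : ∀ x, β.map x 0 = 0 := fun x => by
    have h := h2 x 0 0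
    rw [add_zero] at h
    exact (add_eq_left.1 h.symm)
  LinearMap.mk₂ K β.map h1 (fun a x y => by
      have h := β.map_left a x 0 y
      rwa [add_zero, h3, add_zero] at h) h2 (fun a x y => by
      have h := β.map_right a x y 0
      rwa [add_zero, h4, add_zero] at h)

theorem Pairing.lin_apply {d : ℤ} {A B Z : WDRep s} (β : Pairing d A B Z) (x : A.V) (y : B.V) :
    β.lin x y = β.map x y := rfl

theorem Pairing.lin_rep {d : ℤ} {A B Z : WDRep s} (β : Pairing d A B Z) (g : Γ) (x : A.V)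
    (y : B.V) : β.lin (A.rep g x) (B.rep g y) = ((s.c g ^ d : Kˣ) : K) • Z.rep g (β.lin x y) :=
  β.map_ρ g x y

theorem Pairing.lin_n {d : ℤ} {A B Z : WDRep s} (β : Pairing d A B Z) (x : A.V) (y : B.V) :
    β.lin (A.n x) y + β.lin x (B.n y) = Z.n (β.lin x y) :=
  β.map_N x y

theorem WDRep.frob_eq [CharZero K] (A : WDRep s) (P : ℚ[X]) (v : A.V) :
    A.frob P v = aeval (A.rep s.Fr) (P.map (algebraMap ℚ K)) v := by
  rw [WDRep.frob, Polynomial.sum, aeval_eq_sum_range, natDegree_map, LinearMap.sum_apply]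
  refine (Finset.sum_subset (fun i hi =>
    Finset.mem_range.2 (Nat.lt_succ_of_le (le_natDegree_of_mem_supp i hi))) ?_).trans
    (Finset.sum_congr rfl ?_)
  · intro i _ hi
    rw [notMem_support_iff.1 hi, Rat.cast_zero, zero_smul]
  · intro i _
    rw [LinearMap.smul_apply, ← iter_eq, coeff_map]
    rfl

end Pool.Agent.Y129.WM
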