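import Mathlib

/-!
# Weil-Deligne representations and cohomology theories with values in them: definitions

The examples: `Γ` is the Weil group of a `p`-adic field (or of a standard log point over a finite
field), `q` is the number of elements of the residue field, `K = ℚ_ℓ`; a smooth proper variety `X`
has cohomology groups `H^m(X)`, with the Weil-Deligne representation `(ρ, N)` of Grothendieck and
Deligne: the Galois group acts through `ρ(g) exp(t(g) N)` for an inertia element `g`, and `ρ` is
trivial on an open subgroup of the inertia group.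
-/

open Filter Topology

namespace Pool.Agent.Y129.WM

/-- A group `Γ` (the Weil group) with a geometric Frobenius element `Fr` and the character `c` by
which `Γ` acts on `K(-1)`. -/
structure WeilGroup (K Γ : Type) [Field K] [Group Γ] where
  q : ℕ
  one_lt : 1 < q
  Fr : Γ
  c : Γ →* Kˣ
  c_Fr : (c Fr : K) = q

/-- A Weil-Deligne representation `(ρ, N)` of `Γ` of finite dimension over `K`, `N : V → V(-1)` is
the monodromy operator. -/
structure WDRep {K Γ : Type} [Field K] [Group Γ] (s : WeilGroup K Γ) where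
  V : Type
  grp : AddCommGroup V
  mod : Module K V
  finite : FiniteDimensional K V
  ρ : Γ → V → V
  N : V → V
  ρ_lin : ∀ g (a : K) x y, ρ g (a • x + y) = a • ρ g x + ρ g y
  N_lin : ∀ (a : K) x y, N (a • x + y) = a • N x + N y
  ρ_one : ∀ x, ρ 1 x = x
  ρ_mul : ∀ g h x, ρ (g * h) x = ρ g (ρ h x)
  nilpotent : ∃ n : ℕ, ∀ v, N^[n] v = 0
  N_ρ : ∀ g v, N (ρ g v) = (s.c g : K) • ρ g (N v)

attribute [instance] WDRep.grp WDRep.mod WDRep.finite

/-- The trivial representation `K`. -/
def WDRep.unit {K Γ : Type} [Field K] [Group Γ] (s : WeilGroup K Γ) : WDRep s where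
  V := K
  grp := inferInstance
  mod := inferInstance
  finite := inferInstance
  ρ _ x := x
  N _ := 0
  ρ_lin _ _ _ _ := rfl
  N_lin a x y := by rw [smul_zero, add_zero]
  ρ_one _ := rfl
  ρ_mul _ _ _ := rfl
  nilpotent := ⟨1, fun _ => rfl⟩
  N_ρ g v := by rw [smul_zero]

/-- `P(Fr)` applied to the vector `v`. -/
noncomputable def WDRep.frob {K Γ : Type} [Field K] [Group Γ] {s : WeilGroup K Γ} (A : WDRep s)
    (P : Polynomial ℚ) (v : A.V) : A.V :=
  P.sum fun i a => (a : K) • (A.ρ s.Fr)^[i] v

/-- `Fr` has only the weight `w` on the `Γ`-orbit of the vector `v`: there is a nonzero polynomial `P`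
with rational coefficients, whose complex roots `α` all satisfy `|α| ^ 2 = q ^ w`, and such that
`P(Fr)` kills all the vectors `ρ(g) v`. -/
def WDRep.HasWeight {K Γ : Type} [Field K] [Group Γ] {s : WeilGroup K Γ} (A : WDRep s) (w : ℤ)
    (v : A.V) : Prop :=
  ∃ P : Polynomial ℚ, P ≠ 0 ∧ (∀ α : ℂ, Polynomial.aeval α P = 0 → ‖α‖ ^ 2 = (s.q : ℝ) ^ w) ∧
    ∀ g : Γ, A.frob P (A.ρ g v) = 0

/-- The eigenvalues of Frobenius are Weil numbers of integral weights. -/
def WDRep.IsMixed {K Γ : Type} [Field K] [Group Γ] {s : WeilGroup K Γ} (A : WDRep s) : Prop :=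
  Submodule.span K {v | ∃ w, A.HasWeight w v} = ⊤

/-- The group `Γ` acts on `v` through the twist `r`, that is by the character `c ^ r`. -/
def WDRep.HasTwist {K Γ : Type} [Field K] [Group Γ] {s : WeilGroup K Γ} (A : WDRep s) (r : ℤ)
    (v : A.V) : Prop :=
  ∀ g, A.ρ g v = ((s.c g ^ r : Kˣ) : K) • v

/-- `v` is a Galois invariant of `V(r)`: it is killed by `N`, and `ρ` acts on it through the
character `c ^ r`. -/
def WDRep.IsInvariant {K Γ : Type} [Field K] [Group Γ] {s : WeilGroup K Γ} (A : WDRep s) (r : ℤ)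
    (v : A.V) : Prop :=
  A.N v = 0 ∧ A.HasTwist r v

/-- The weight-monodromy conjecture for `V`, with centre `m`: `N ^ k` is a bijection of the part of
weight `m + k` onto the part of weight `m - k`, for all `k`. -/
def WDRep.WeightMonodromy {K Γ : Type} [Field K] [Group Γ] {s : WeilGroup K Γ} (A : WDRep s)
    (m : ℤ) : Prop :=
  ∀ k : ℕ, Set.BijOn A.N^[k] {v | A.HasWeight (m + k) v} {v | A.HasWeight (m - k) v}

/-- `S` is a nonzero stable subspace of the part of weight `a`. -/
def WDRep.IsPart {K Γ : Type} [Field K] [Group Γ] {s : WeilGroup K Γ} (A : WDRep s) (a : ℤ)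
    (S : Submodule K A.V) : Prop :=
  S ≠ ⊥ ∧ (∀ x ∈ S, A.HasWeight a x) ∧ ∀ g, ∀ x ∈ S, A.ρ g x ∈ S

/-- The equivariant bilinear maps `A × B → Z(-d)`. -/
structure Pairing {K Γ : Type} [Field K] [Group Γ] {s : WeilGroup K Γ} (d : ℤ) (A B Z : WDRep s)
    where
  map : A.V → B.V → Z.V
  map_left : ∀ (a : K) x x' y, map (a • x + x') y = a • map x y + map x' y
  map_right : ∀ (a : K) x y y', map x (a • y + y') = a • map x y + map x y'
  map_ρ : ∀ g x y, map (A.ρ g x) (B.ρ g y) = ((s.c g ^ d : Kˣ) : K) • Z.ρ g (map x y)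
  map_N : ∀ x y, map (A.N x) y + map x (B.N y) = Z.N (map x y)

/-- The pairing is perfect. -/
def Pairing.Perfect {K Γ : Type} [Field K] [Group Γ] {s : WeilGroup K Γ} {d : ℤ} {A B Z : WDRep s}
    (β : Pairing d A B Z) : Prop :=
  (∀ x, (∀ y, β.map x y = 0) → x = 0) ∧ ∀ y, (∀ x, β.map x y = 0) → y = 0

/-- The subspace `A ⊗ S` of `Z`, for a subspace `S` of `B`: the span of the `β(y, x)`, `x ∈ S`. -/
def Pairing.tensor {K Γ : Type} [Field K] [Group Γ] {s : WeilGroup K Γ} {d : ℤ} {A B Z : WDRep s}
    (β : Pairing d A B Z) (S : Submodule K B.V) : Submodule K Z.V :=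
  Submodule.span K {z | ∃ y, ∃ x ∈ S, β.map y x = z}

/-- `(A ⊗ S)(j)` contains a nonzero vector invariant under `ρ`. -/
def Pairing.HasInvariant {K Γ : Type} [Field K] [Group Γ] {s : WeilGroup K Γ} {d : ℤ}
    {A B Z : WDRep s} (β : Pairing d A B Z) (S : Submodule K B.V) (j : ℤ) : Prop :=
  ∃ z ∈ β.tensor S, z ≠ 0 ∧ Z.HasTwist j z

/-- A class of smooth proper varieties `X` closed under products, with their cohomology groups
`H^m(X)`, exterior products, Poincaré duality and the action of correspondences. -/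
structure Theory {K Γ : Type} [Field K] [Group Γ] (s : WeilGroup K Γ) where
  Obj : Type
  dim : Obj → ℕ
  prod : Obj → Obj → Obj
  dim_prod : ∀ X Y, dim (prod X Y) = dim X + dim Y
  /-- The cohomology groups `H^m(X)`. -/
  H : Obj → ℤ → WDRep s
  /-- The eigenvalues of Frobenius are Weil numbers. -/
  mixed : ∀ X m, (H X m).IsMixed
  /-- The exterior product `H^m(X) ⊗ H^n(Y) → H^{m+n}(X × Y)`. -/
  ext : ∀ X m Y n, Pairing 0 (H X m) (H Y n) (H (prod X Y) (m + n))
  /-- Poincaré duality `H^m(X) ⊗ H^{m'}(X) → K(-d)`, `m + m' = 2 d`, `d = dim X`. -/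
  pair : ∀ X (m m' : ℤ), m + m' = 2 * (dim X : ℤ) →
    Pairing (dim X) (H X m) (H X m') (WDRep.unit s)
  perfect : ∀ X m m' h, (pair X m m' h).Perfect
  /-- A class `z` in `H^{m+n}(X × Y)` acts as a correspondence and maps a class `x'` in `H^{m'}(X)`,
  `m + m' = 2 d`, `d = dim X`, to a class in `H^n(Y)(-d)`, the direct image of `z ∪ x'` (up to a sign
  which depends on `n` and `m'` only). -/
  act : ∀ X (m m' : ℤ) Y (n : ℤ), m + m' = 2 * (dim X : ℤ) →
    Pairing (dim X) (H (prod X Y) (m + n)) (H X m') (H Y n)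
  act_ext : ∀ X m m' Y n h x y x', (act X m m' Y n h).map ((ext X m Y n).map x y) x' =
    ((pair X m m' h).map x x' : K) • y

/-- Every nonzero stable subspace `S` of the part of weight `a` of `H^m(X)` is related to an
object `Y` with potentially good reduction: `N = 0` on `H^n(Y)`, and there is a nonzero element
invariant under `ρ` in `H^n(Y) ⊗ S(j)`, where `2 j = a + n`. -/
def Theory.GoodPartners {K Γ : Type} [Field K] [Group Γ] {s : WeilGroup K Γ}
    (C : Theory s) : Prop :=
  ∀ X m (a : ℤ) (S : Submodule K (C.H X m).V), (C.H X m).IsPart a S →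
    ∃ (Y : C.Obj) (n j : ℤ), a + n = 2 * j ∧ (∀ y, (C.H Y n).N y = 0) ∧
      (C.ext Y n X m).HasInvariant S j

/-- The cohomology of a class of varieties which contains a Tate curve `E` and enough varieties with
potentially good reduction. The classes `1`, `e0`, `e1`, `pt` in the cohomology of `E` are in degree
`0`, `1`, `1` and `2`. -/
structure Cohomology {K Γ : Type} [Field K] [Group Γ] (s : WeilGroup K Γ) extends
    Theory s where
  good : toTheory.GoodPartners
  E : Obj
  dim_E : dim E = 1
  one : (H E 0).V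
  e0 : (H E 1).V
  e1 : (H E 1).V
  pt : (H E 2).V
  one_ne : one ≠ 0
  e0_ne : e0 ≠ 0
  pt_ne : pt ≠ 0
  one_inv : (H E 0).IsInvariant 0 one
  e0_inv : (H E 1).IsInvariant 0 e0
  e1_twist : (H E 1).HasTwist 1 e1
  N_e1 : (H E 1).N e1 = e0
  pt_inv : (H E 2).IsInvariant 1 pt

namespace Cohomology

variable {K Γ : Type} [Field K] [Group Γ] {s : WeilGroup K Γ} (C : Cohomology s)

/-- The weight-monodromy conjecture for all `X` and `m`. -/
def WeightMonodromy : Prop :=
  ∀ X m, (C.H X m).WeightMonodromy m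

/-- For all `X` and all integers `m < 2 r` there is no nonzero Galois invariant in
`H^m(X)(r)`. -/
def NoInvariants : Prop :=
  ∀ X (m r : ℤ), m < 2 * r → ∀ v, (C.H X m).IsInvariant r v → v = 0

/-- For all `X` of odd dimension `n = 2 r - 1` there is no nonzero Galois invariant in
`H^n(X)(r)`: the Euler factor of the cohomology of `X` in the middle degree has no pole at the
central point `r = (n + 1) / 2`. -/
def NoCentralInvariants : Prop :=
  ∀ X (r : ℤ), (C.dim X : ℤ) + 1 = 2 * r → ∀ v, (C.H X (C.dim X)).IsInvariant r v → v = 0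

/-- For every `X` there is one exponent `e` with `1 ≤ e ≤ f(dim X)` such that for all `m` the map
`N ^ e` is injective on the part of weight `m + e` of `H^m(X)`. -/
def OneExponent (f : ℕ → ℕ) : Prop :=
  ∀ X, ∃ e : ℕ, 1 ≤ e ∧ e ≤ f (C.dim X) ∧ ∀ m v, (C.H X m).HasWeight (m + e) v →
    (C.H X m).N^[e] v = 0 → v = 0

end Cohomology

end Pool.Agent.Y129.WM
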