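import Pool.Agent.Y129.WM.Prod
import Pool.Agent.Y129.LT.Wt

/-!
# Weights and bilinear maps
-/

open Polynomial Module TensorProduct

namespace Pool.Agent.Y129.WM

open Pool.Agent.Y129.LT (weightSpace intertwine)

variable {K Γ V V' V'' : Type} [Field K] [CharZero K] [Group Γ] [AddCommGroup V] [Module K V]
  [AddCommGroup V'] [Module K V'] [AddCommGroup V''] [Module K V''] {q : ℕ}
  {ρ : Representation K Γ V} {ρ' : Representation K Γ V'} {ρ'' : Representation K Γ V''}
  {Fr : Γ}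

/-- The weights of products. -/
theorem weight_prod (hq : 1 < q) {c : Γ →* Kˣ} (hc : (c Fr : K) = q) {d : ℤ}
    {B : V →ₗ[K] V' →ₗ[K] V''}
    (hB : ∀ g x y, B (ρ g x) (ρ' g y) = ((c g ^ d : Kˣ) : K) • ρ'' g (B x y)) {u w : ℤ}
    {x : V} (hx : x ∈ weightSpace q ρ Fr u) {y : V'} (hy : y ∈ weightSpace q ρ' Fr w) :
    B x y ∈ weightSpace q ρ'' Fr (u + w - 2 * d) := by
  obtain ⟨P, hP0, hP, hPx⟩ := hx
  obtain ⟨Q, hQ0, hQ, hQy⟩ := hy
  obtain ⟨R, hR0, hR, hR2⟩ := prod_poly hP0 hQ0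
  have hq0 : (q : ℚ) ≠ 0 := by exact_mod_cast (by omega : q ≠ 0)
  have hqR : (q : ℝ) ≠ 0 := by exact_mod_cast (by omega : q ≠ 0)
  set a : ℚ := (q : ℚ) ^ d with ha
  have ha0 : a ≠ 0 := zpow_ne_zero _ hq0
  have hd : (C a * X).natDegree = 1 := by rw [natDegree_C_mul_X _ ha0]
  refine ⟨R.comp (C a * X), fun h3 => hR0 ?_, fun α hα => ?_, fun g => ?_⟩
  · rcases (comp_eq_zero_iff.1 h3) with h3 | ⟨_, h3⟩
    · exact h3
    · rw [h3, natDegree_C] at hd
      exact absurd hd (by norm_num)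
  · rw [aeval_comp, map_mul, aeval_C, aeval_X] at hα
    obtain ⟨α', β', h1, h2, h3⟩ := hR _ hα
    have h4 := congrArg (fun z : ℂ => ‖z‖ ^ 2) h3
    simp only [norm_mul, mul_pow] at h4
    rw [hP _ h1, hQ _ h2] at h4
    have h5 : ‖(algebraMap ℚ ℂ) a‖ = (q : ℝ) ^ d := by
      rw [ha, map_zpow₀, map_natCast, norm_zpow, Complex.norm_natCast]
    rw [h5] at h4
    have h6 : ((q : ℝ) ^ d) ^ 2 = (q : ℝ) ^ (2 * d) := by
      rw [← zpow_natCast, ← zpow_mul]
      congr 1
      push_cast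
      ring
    rw [h6] at h4
    rw [zpow_sub₀ hqR, eq_div_iff (zpow_ne_zero _ hqR), mul_comm, h4, zpow_add₀ hqR]
  · have h3 : aeval (ρ'' Fr) ((R.comp (C a * X)).map (algebraMap ℚ K)) =
        aeval ((algebraMap ℚ K a) • ρ'' Fr) (R.map (algebraMap ℚ K)) := by
      rw [Polynomial.map_comp, aeval_comp, Polynomial.map_mul, map_mul, map_C, map_X, aeval_X,
        aeval_C, Algebra.smul_def]
    rw [h3]
    have h5 : ρ'' g (B x y) = ((c g ^ d : Kˣ) : K)⁻¹ • B (ρ g x) (ρ' g y) := by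
      rw [hB, smul_smul, inv_mul_cancel₀ (Units.ne_zero _), one_smul]
    rw [h5, map_smul]
    -- the tensor product
    let f : V ⊗[K] V' →ₗ[K] V'' := TensorProduct.lift B
    let A₁ : End K (V ⊗[K] V') := TensorProduct.map (ρ Fr) LinearMap.id
    let A₂ : End K (V ⊗[K] V') := TensorProduct.map LinearMap.id (ρ' Fr)
    have hcomm : Commute A₁ A₂ := by
      rw [Commute, SemiconjBy]
      refine TensorProduct.ext' fun x y => ?_
      change A₁ (A₂ (x ⊗ₜ y)) = A₂ (A₁ (x ⊗ₜ y))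
      simp only [A₁, A₂, TensorProduct.map_tmul, LinearMap.id_apply]
    have h1 : aeval A₁ (P.map (algebraMap ℚ K)) ((ρ g x) ⊗ₜ[K] (ρ' g y)) = 0 := by
      have e1 : ∀ v, (TensorProduct.mk K V V').flip (ρ' g y) (ρ Fr v) =
          A₁ ((TensorProduct.mk K V V').flip (ρ' g y) v) := fun v => by
        simp only [A₁, LinearMap.flip_apply, TensorProduct.mk_apply, TensorProduct.map_tmul,
          LinearMap.id_apply]
      have e2 := intertwine e1 (P.map (algebraMap ℚ K)) (ρ g x)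
      rw [hPx, map_zero] at e2
      exact e2.symm
    have h2 : aeval A₂ (Q.map (algebraMap ℚ K)) ((ρ g x) ⊗ₜ[K] (ρ' g y)) = 0 := by
      have e1 : ∀ v, (TensorProduct.mk K V V') (ρ g x) (ρ' Fr v) =
          A₂ ((TensorProduct.mk K V V') (ρ g x) v) := fun v => by
        simp only [A₂, TensorProduct.mk_apply, TensorProduct.map_tmul, LinearMap.id_apply]
      have e2 := intertwine e1 (Q.map (algebraMap ℚ K)) (ρ' g y)
      rw [hQy, map_zero] at e2
      exact e2.symm
    have h6 := kill_prod hR2 hcomm h1 h2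
    have h7 : ∀ t, f ((A₁ * A₂) t) = ((algebraMap ℚ K a) • ρ'' Fr) (f t) := by
      intro t
      induction t using TensorProduct.induction_on with
      | zero => simp only [map_zero]
      | add s t hs ht => rw [map_add, map_add, hs, ht, map_add, map_add]
      | tmul x y =>
        change f (A₁ (A₂ (x ⊗ₜ y))) = (algebraMap ℚ K a) • ρ'' Fr (B x y)
        simp only [A₁, A₂, f, TensorProduct.map_tmul, LinearMap.id_apply,
          TensorProduct.lift.tmul]
        rw [hB, ha, map_zpow₀, map_natCast, ← hc]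
        push_cast
        rfl
    have h8 := intertwine h7 (R.map (algebraMap ℚ K)) ((ρ g x) ⊗ₜ[K] (ρ' g y))
    rw [h6, map_zero] at h8
    change _ • (aeval ((algebraMap ℚ K a) • ρ'' Fr) (R.map (algebraMap ℚ K)))
      (f ((ρ g x) ⊗ₜ[K] (ρ' g y))) = 0
    rw [← h8, smul_zero]

end Pool.Agent.Y129.WM
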