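import Pool.Agent.Y129.WM.GCore

/-!
# The weight-monodromy conjecture and one exponent for every `X`
-/

open Filter Topology Module

namespace Pool.Agent.Y129.WM

variable {K : Type} [Field K]

namespace GCohomology

variable {C : GCohomology K}

theorem wm_of_kernel (h : C.KernelWeights) : C.WeightMonodromy := by
  have hinj : ∀ X m (e : ℕ), (C.H X m).InjectiveAt m e := by
    intro X m e x hx hNx
    by_contra hx0
    rw [GMod.N_iter] at hNx
    obtain ⟨δ, hδ, z, hz, hz0, hzN⟩ := C.toGTheory.exists_kernel hx hx0 hNx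
    exact hz0 (h (C.prod X X) (m + m) (m + m + δ) (by omega) z hz hzN)
  intro X m e
  exact ⟨hinj X m e, (C.toGTheory.injectiveAt_iff_dual X (2 * (C.dim X : ℤ) - m) m (by ring) e).1
    (hinj X _ e)⟩

/-- A nonzero vector of weight `μ + D` in the kernel of `N` on `H^μ(Z)`. -/
def Bad (C : GCohomology K) (Z : C.Obj) (μ : ℤ) (D : ℕ) : Prop :=
  ∃ v ∈ (C.H Z μ).gr (μ + D), v ≠ 0 ∧ (C.H Z μ).n v = 0

theorem Bad.ext {Y Z : C.Obj} {n μ : ℤ} {w w' : ℤ} {y : (C.H Y n).V} {v : (C.H Z μ).V}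
    (hy : y ∈ (C.H Y n).gr w) (hy0 : y ≠ 0) (hyN : (C.H Y n).n y = 0)
    (hv : v ∈ (C.H Z μ).gr w') (hv0 : v ≠ 0) (hvN : (C.H Z μ).n v = 0) {D : ℕ}
    (hD : w + w' = n + μ + D) : C.Bad (C.prod Y Z) (n + μ) D := by
  refine ⟨(C.ext Y n Z μ).lin y v, ?_, C.toGTheory.ext_ne hy0 hv0, ?_⟩
  · have h1 := (C.ext Y n Z μ).lin_gr hy hv
    have h2 : w + w' - 2 * 0 = n + μ + D := by rw [hD]; ring
    rwa [h2] at h1
  · rw [← (C.ext Y n Z μ).lin_n, hyN, hvN, map_zero, map_zero, LinearMap.zero_apply, add_zero]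

theorem Bad.double {X : C.Obj} {m : ℤ} {δ : ℕ} (h : C.Bad X m δ) : ∀ k : ℕ,
    ∃ (Z : C.Obj) (μ : ℤ), C.dim Z = 2 ^ k * C.dim X ∧ C.Bad Z μ (2 ^ k * δ)
  | 0 => ⟨X, m, by simp, by simpa using h⟩
  | k + 1 => by
    obtain ⟨Z, μ, h1, v, hv, hv0, hvN⟩ := Bad.double h k
    refine ⟨C.prod Z Z, μ + μ, ?_, Bad.ext hv hv0 hvN hv hv0 hvN ?_⟩
    · rw [C.dim_prod, h1]; ring
    · push_cast; ring

theorem Bad.pad {Z : C.Obj} {μ : ℤ} {D : ℕ} (h : C.Bad Z μ D) : ∀ S : ℕ, ∃ Y : C.Obj,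
    C.dim Y = S + C.dim Z ∧ ∀ s ≤ S, s ≤ D → ∃ ν : ℤ, ν = μ + s ∧ C.Bad Y ν (D - s)
  | 0 => ⟨Z, by simp, fun s hs _ => ⟨μ, by
      have : s = 0 := by omega
      rw [this]; simp, by
      have : s = 0 := by omega
      rw [this]; simpa using h⟩⟩
  | S + 1 => by
    obtain ⟨Y, h1, h2⟩ := Bad.pad h S
    refine ⟨C.prod C.E Y, ?_, fun s hs hsD => ?_⟩
    · rw [C.dim_prod, C.dim_E, h1]; ring
    · rcases Nat.lt_or_ge s (S + 1) with h3 | h3
      · obtain ⟨ν, hν, v, hv, hv0, hvN⟩ := h2 s (by omega) hsD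
        refine ⟨0 + ν, by rw [hν]; ring, Bad.ext C.one_gr C.one_ne C.N_one hv hv0 hvN ?_⟩
        ring
      · have h4 : s = S + 1 := by omega
        obtain ⟨ν, hν, v, hv, hv0, hvN⟩ := h2 S le_rfl (by omega)
        refine ⟨1 + ν, by rw [hν, h4]; push_cast; ring,
          Bad.ext C.e0_gr C.e0_ne C.N_e0 hv hv0 hvN ?_⟩
        rw [h4, Nat.cast_sub (by omega : S ≤ D), Nat.cast_sub (by omega : S + 1 ≤ D)]
        push_cast
        ring

theorem kernel_of_one {f : ℕ → ℕ} (hf : Sublinear f) (h : C.OneInjective f) :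
    C.KernelWeights := by
  intro X m w hw x hx hN
  by_contra hx0
  obtain ⟨δ, hδ⟩ : ∃ δ : ℕ, w = m + δ := ⟨(w - m).toNat, by omega⟩
  have hδ1 : 1 ≤ δ := by omega
  have hbad : C.Bad X m δ := ⟨x, by rw [← hδ]; exact hx, hx0, hN⟩
  -- a large power of two
  set c := δ + C.dim X with hc
  have hc1 : 1 ≤ c := by omega
  obtain ⟨k, hk⟩ : ∃ k : ℕ, f (2 ^ k * c) ≤ 2 ^ k * δ := by
    have h1 : Tendsto (fun k : ℕ => 2 ^ k * c) atTop atTop :=
      (tendsto_pow_atTop_atTop_of_one_lt (by norm_num : (1 : ℕ) < 2)).atTop_mul_const' hc1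
    have h2 := hf.2.comp h1
    have h3 : (0 : ℝ) < (δ : ℝ) / c := by positivity
    obtain ⟨k, hk⟩ := (h2.eventually (gt_mem_nhds h3)).exists
    refine ⟨k, ?_⟩
    have h4 : (f (2 ^ k * c) : ℝ) / ((2 ^ k * c : ℕ) : ℝ) < (δ : ℝ) / c := hk
    have hc0 : (0 : ℝ) < c := by exact_mod_cast hc1
    have h5 : (0 : ℝ) < ((2 ^ k * c : ℕ) : ℝ) := by push_cast; positivity
    rw [div_lt_div_iff₀ h5 hc0] at h4
    push_cast at h4
    have h6 : (f (2 ^ k * c) : ℝ) < 2 ^ k * δ := by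
      by_contra h7
      push Not at h7
      nlinarith
    exact_mod_cast h6.le
  obtain ⟨Z, μ, hZ, hZbad⟩ := hbad.double k
  obtain ⟨Y, hY, hYbad⟩ := hZbad.pad (2 ^ k * δ)
  obtain ⟨e, he1, he2, he3⟩ := h Y
  have hdim : C.dim Y = 2 ^ k * c := by rw [hY, hZ, hc]; ring
  rw [hdim] at he2
  have heD : e ≤ 2 ^ k * δ := he2.trans hk
  obtain ⟨ν, _, v, hv, hv0, hvN⟩ := hYbad (2 ^ k * δ - e) (by omega) (by omega)
  have h1 : 2 ^ k * δ - (2 ^ k * δ - e) = e := by omega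
  rw [h1] at hv
  apply hv0
  refine he3 ν v hv ?_
  rw [GMod.N_iter]
  obtain ⟨j, rfl⟩ := Nat.exists_eq_add_of_le he1
  rw [Nat.add_comm, pow_succ, Module.End.mul_apply, hvN, map_zero]

theorem oneSurjective_iff (f : ℕ → ℕ) : C.OneSurjective f ↔ C.OneInjective f := by
  constructor
  · intro h X
    obtain ⟨e, h1, h2, h3⟩ := h X
    exact ⟨e, h1, h2, fun m => (C.toGTheory.injectiveAt_iff_dual X m (2 * (C.dim X : ℤ) - m)
      (by ring) e).2 (h3 _)⟩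
  · intro h X
    obtain ⟨e, h1, h2, h3⟩ := h X
    exact ⟨e, h1, h2, fun m => (C.toGTheory.injectiveAt_iff_dual X (2 * (C.dim X : ℤ) - m) m
      (by ring) e).1 (h3 _)⟩

theorem main (C : GCohomology K) {f : ℕ → ℕ} (hf : Sublinear f) :
    (C.WeightMonodromy ↔ C.OneInjective f) ∧ (C.WeightMonodromy ↔ C.OneSurjective f) ∧
      (C.WeightMonodromy ↔ C.KernelWeights) := by
  have h1 : C.WeightMonodromy → C.OneInjective f := fun h X =>
    ⟨1, le_rfl, hf.1 _, fun m => (h X m 1).1⟩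
  have h2 : C.OneInjective f → C.KernelWeights := kernel_of_one hf
  have h3 : C.KernelWeights → C.WeightMonodromy := wm_of_kernel
  exact ⟨⟨h1, fun h => h3 (h2 h)⟩, by
    rw [oneSurjective_iff]
    exact ⟨h1, fun h => h3 (h2 h)⟩, ⟨fun h => h2 (h1 h), h3⟩⟩

end GCohomology

end Pool.Agent.Y129.WM
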