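import Pool.Agent.Y129.WM.FBase
import Pool.Agent.Y129.WM.FProd
import Pool.Agent.Y129.WM.GMain

/-!
# The weight-monodromy conjecture and Galois invariants
-/

open Module

set_option linter.unusedSectionVars false

namespace Pool.Agent.Y129.WM

open Pool.Agent.Y129.LT (weightSpace weightSpace_indep weightSpace_N weightSpace_N_pow
  weightSpace_tate weight_orth)

variable {K Γ : Type} [Field K] [CharZero K] [Group Γ] {s : WeilGroup K Γ}

/-- The part of weight `w`. -/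
abbrev WDRep.W (A : WDRep s) (w : ℤ) : Submodule K A.V := weightSpace s.q A.rep s.Fr w

theorem WDRep.mem_W {A : WDRep s} {w : ℤ} {v : A.V} : v ∈ A.W w ↔ A.HasWeight w v := by
  constructor
  · rintro ⟨P, h0, h1, h2⟩
    exact ⟨P, h0, h1, fun g => by rw [A.frob_eq]; exact h2 g⟩
  · rintro ⟨P, h0, h1, h2⟩
    exact ⟨P, h0, h1, fun g => by rw [← A.frob_eq]; exact h2 g⟩

theorem WDRep.iSup_W {A : WDRep s} (h : A.IsMixed) : ⨆ w : ℤ, A.W w = ⊤ := by
  rw [eq_top_iff, ← h, Submodule.span_le]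
  rintro v ⟨w, hw⟩
  exact Submodule.mem_iSup_of_mem w (WDRep.mem_W.2 hw)

theorem WDRep.mem_W_tate {A : WDRep s} {r : ℤ} {v : A.V} (h : A.HasTwist r v) :
    v ∈ A.W (2 * r) := weightSpace_tate s.c_Fr h

/-- The graded module of a Weil-Deligne representation with Weil numbers as eigenvalues. -/
def WDRep.toG (A : WDRep s) (hA : A.IsMixed) : GMod K where
  V := A.V
  grp := A.grp
  mod := A.mod
  finite := A.finite
  gr := A.W
  indep := weightSpace_indep s.one_lt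
  top := WDRep.iSup_W hA
  N := A.N
  N_lin := A.N_lin
  N_gr _ _ hx := weightSpace_N s.one_lt s.c_Fr A.n_rep hx
  nilpotent := A.nilpotent

theorem Pairing.mem_W {d : ℤ} {A B Z : WDRep s} (β : Pairing d A B Z) {u w : ℤ} {x : A.V}
    {y : B.V} (hx : x ∈ A.W u) (hy : y ∈ B.W w) : β.map x y ∈ Z.W (u + w - 2 * d) :=
  weight_prod s.one_lt s.c_Fr (B := β.lin) β.lin_rep hx hy

def Pairing.toG {d : ℤ} {A B Z : WDRep s} (β : Pairing d A B Z) (hA : A.IsMixed)
    (hB : B.IsMixed) (hZ : Z.IsMixed) : GPairing d (A.toG hA) (B.toG hB) (Z.toG hZ) where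
  map := β.map
  map_left := β.map_left
  map_right := β.map_right
  map_gr _ _ _ _ hx hy := β.mem_W hx hy
  map_N := β.map_N

/-- A pairing with values in `K(-d)` as a bilinear form. -/
def Pairing.form {d : ℤ} {A B : WDRep s} (β : Pairing d A B (WDRep.unit s)) :
    A.V →ₗ[K] B.V →ₗ[K] K := β.lin

theorem Pairing.form_rep {d : ℤ} {A B : WDRep s} (β : Pairing d A B (WDRep.unit s)) (g : Γ)
    (x : A.V) (y : B.V) :
    β.form (A.rep g x) (B.rep g y) = ((s.c g ^ d : Kˣ) : K) * β.form x y := β.lin_rep g x y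

def Pairing.toGUnit {d : ℤ} {A B : WDRep s} (β : Pairing d A B (WDRep.unit s)) (hA : A.IsMixed)
    (hB : B.IsMixed) : GPairing d (A.toG hA) (B.toG hB) (GMod.unit K) where
  map := β.map
  map_left := β.map_left
  map_right := β.map_right
  map_gr u w x y hx hy := by
    change β.map x y ∈ (if u + w - 2 * d = 0 then ⊤ else ⊥ : Submodule K K)
    change β.form x y ∈ _
    by_cases h : u + w - 2 * d = 0
    · rw [if_pos h]; trivial
    · rw [if_neg h]
      have h1 : ∀ x y, β.form (A.rep s.Fr x) (B.rep s.Fr y) = (s.q : K) ^ d * β.form x y :=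
        fun x y => by
          rw [β.form_rep]
          push_cast
          rw [s.c_Fr]
      have h2 : β.form x y = 0 := weight_orth s.one_lt h1 (by omega) hx hy
      exact (Submodule.mem_bot K).2 h2
  map_N := β.map_N

namespace Theory

def toG (C : Theory s) : GTheory K where
  Obj := C.Obj
  dim := C.dim
  prod := C.prod
  dim_prod := C.dim_prod
  H X m := (C.H X m).toG (C.mixed X m)
  ext X m Y n := (C.ext X m Y n).toG _ _ _
  pair X m m' h := (C.pair X m m' h).toGUnit _ _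
  perfect X m m' h := C.perfect X m m' h
  act X m m' Y n h := (C.act X m m' Y n h).toG _ _ _
  act_ext X m m' Y n h x y x' := C.act_ext X m m' Y n h x y x'

end Theory

namespace Cohomology

def toG (C : Cohomology s) : GCohomology K where
  toGTheory := C.toTheory.toG
  E := C.E
  dim_E := C.dim_E
  one := C.one
  e0 := C.e0
  e1 := C.e1
  one_ne := C.one_ne
  e0_ne := C.e0_ne
  one_gr := by
    have h := WDRep.mem_W_tate C.one_inv.2
    rwa [mul_zero] at h
  e0_gr := by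
    have h := WDRep.mem_W_tate C.e0_inv.2
    rwa [mul_zero] at h
  e1_gr := by
    have h := WDRep.mem_W_tate C.e1_twist
    rwa [mul_one] at h
  N_one := C.one_inv.1
  N_e0 := C.e0_inv.1
  N_e1 := C.N_e1

variable {C : Cohomology s}

theorem wm_iff : C.WeightMonodromy ↔ C.toG.WeightMonodromy := by
  constructor
  · intro h X m e
    have h1 := h X m e
    refine ⟨fun x hx hN => ?_, fun y hy => ?_⟩
    · refine h1.injOn (WDRep.mem_W.1 hx) (WDRep.mem_W.1 (Submodule.zero_mem _)) ?_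
      have h2 : (C.H X m).N^[e] (0 : (C.H X m).V) = 0 := by
        rw [(C.H X m).N_iter]
        exact map_zero ((C.H X m).n ^ e)
      exact Eq.trans (hN : (C.H X m).N^[e] x = 0) h2.symm
    · obtain ⟨x, hx, hxy⟩ := h1.surjOn (WDRep.mem_W.1 hy)
      exact ⟨x, WDRep.mem_W.2 hx, hxy⟩
  · intro h X m k
    obtain ⟨h1, h2⟩ := h X m k
    refine ⟨fun x hx => ?_, fun x hx x' hx' hxx => ?_, fun y hy => ?_⟩
    · have h3 := weightSpace_N_pow s.one_lt s.c_Fr (C.H X m).n_rep (WDRep.mem_W.2 hx) k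
      have h4 : m + (k : ℤ) - 2 * k = m - k := by ring
      rw [h4] at h3
      change (C.H X m).HasWeight (m - k) ((C.H X m).N^[k] x)
      rw [(C.H X m).N_iter]
      exact WDRep.mem_W.1 h3
    · have h3 : x - x' ∈ (C.H X m).W (m + k) :=
        Submodule.sub_mem _ (WDRep.mem_W.2 hx) (WDRep.mem_W.2 hx')
      have h4 : (C.H X m).N^[k] (x - x') = 0 := by
        change (C.H X m).N^[k] x = (C.H X m).N^[k] x' at hxx
        rw [(C.H X m).N_iter] at hxx ⊢
        rw [(C.H X m).N_iter] at hxx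
        rw [map_sub, hxx, sub_self]
      exact sub_eq_zero.1 (h1 _ h3 h4)
    · obtain ⟨x, hx, hxy⟩ := h2 y (WDRep.mem_W.2 hy)
      exact ⟨x, WDRep.mem_W.1 hx, hxy⟩

theorem one_iff {f : ℕ → ℕ} : C.OneExponent f ↔ C.toG.OneInjective f := by
  constructor
  · intro h X
    obtain ⟨e, h1, h2, h3⟩ := h X
    exact ⟨e, h1, h2, fun m x hx hN => h3 m x (WDRep.mem_W.1 hx) hN⟩
  · intro h X
    obtain ⟨e, h1, h2, h3⟩ := h X
    exact ⟨e, h1, h2, fun m x hx hN => h3 m x (WDRep.mem_W.2 hx) hN⟩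

/-- There is a nonzero invariant in `H^μ(Z)(r)`. -/
def Inv (C : Cohomology s) (Z : C.Obj) (μ r : ℤ) : Prop :=
  ∃ z : (C.H Z μ).V, z ≠ 0 ∧ (C.H Z μ).IsInvariant r z

theorem Inv.ext {Y Z : C.Obj} {n μ r' r : ℤ} {y : (C.H Y n).V} (hy0 : y ≠ 0)
    (hy : (C.H Y n).IsInvariant r' y) (h : C.Inv Z μ r) :
    C.Inv (C.prod Y Z) (n + μ) (r' + r) := by
  obtain ⟨z, hz0, hz⟩ := h
  refine ⟨(C.ext Y n Z μ).map y z, C.toG.toGTheory.ext_ne (X := Y) (Y := Z) hy0 hz0, ?_, fun g => ?_⟩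
  · rw [← (C.ext Y n Z μ).map_N, hy.1, hz.1]
    change (C.ext Y n Z μ).lin 0 z + (C.ext Y n Z μ).lin y 0 = 0
    rw [map_zero, map_zero, LinearMap.zero_apply, add_zero]
  · have h1 := (C.ext Y n Z μ).lin_rep g y z
    rw [zpow_zero, Units.val_one, one_smul] at h1
    change (C.H (C.prod Y Z) (n + μ)).rep g ((C.ext Y n Z μ).lin y z) = _
    rw [← h1]
    have h2 : (C.H Y n).rep g y = ((s.c g ^ r' : Kˣ) : K) • y := hy.2 g
    have h3 : (C.H Z μ).rep g z = ((s.c g ^ r : Kˣ) : K) • z := hz.2 g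
    rw [h2, h3, map_smul, map_smul, LinearMap.smul_apply, smul_smul, zpow_add, Units.val_mul,
      mul_comm]
    rfl

/-- Products with a class in the cohomology of `E`. -/
theorem Inv.iter {n r' : ℤ} {y : (C.H C.E n).V} (hy0 : y ≠ 0)
    (hy : (C.H C.E n).IsInvariant r' y) {Z : C.Obj} {μ r : ℤ} (h : C.Inv Z μ r) : ∀ k : ℕ,
    ∃ (Z' : C.Obj) (μ' ρ' : ℤ), C.dim Z' = k + C.dim Z ∧ μ' = μ + k * n ∧ ρ' = r + k * r' ∧
      C.Inv Z' μ' ρ'
  | 0 => ⟨Z, μ, r, by simp, by simp, by simp, h⟩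
  | k + 1 => by
    obtain ⟨Z', μ', ρ', h1, h2, h3, h4⟩ := Inv.iter hy0 hy h k
    refine ⟨C.prod C.E Z', n + μ', r' + ρ', ?_, ?_, ?_, Inv.ext hy0 hy h4⟩
    · rw [C.dim_prod, C.dim_E, h1]; ring
    · rw [h2]; push_cast; ring
    · rw [h3]; push_cast; ring

/-- An invariant below the middle gives an invariant in the middle degree at the central point. -/
theorem Inv.central {Z : C.Obj} {μ r : ℤ} (hμ : μ < 2 * r) (h : C.Inv Z μ r) :
    ∃ (X : C.Obj) (r' : ℤ), (C.dim X : ℤ) + 1 = 2 * r' ∧ C.Inv X (C.dim X) r' := by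
  obtain ⟨Z₁, μ₁, r₁, a1, a2, a3, h₁⟩ :=
    Inv.iter C.pt_ne C.pt_inv h ((C.dim Z : ℤ) - μ).toNat
  obtain ⟨Z₂, μ₂, r₂, b1, b2, b3, h₂⟩ :=
    Inv.iter C.e0_ne C.e0_inv h₁ (2 * r - 1 - μ).toNat
  obtain ⟨Z₃, μ₃, r₃, c1, c2, c3, h₃⟩ :=
    Inv.iter C.one_ne C.one_inv h₂ (μ - C.dim Z + ((C.dim Z : ℤ) - μ).toNat).toNat
  have hs : ((2 * r - 1 - μ).toNat : ℤ) = 2 * r - 1 - μ := Int.toNat_of_nonneg (by omega)
  have hu : ((μ - C.dim Z + ((C.dim Z : ℤ) - μ).toNat).toNat : ℤ) =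
      μ - C.dim Z + ((C.dim Z : ℤ) - μ).toNat :=
    Int.toNat_of_nonneg (by have := Int.self_le_toNat ((C.dim Z : ℤ) - μ); omega)
  set a := ((C.dim Z : ℤ) - μ).toNat with ha
  have hdim : (C.dim Z₃ : ℤ) = μ₃ := by
    rw [c1, b1, a1, c2, b2, a2]
    push_cast
    rw [hs, hu]
    ring
  have hr : μ₃ + 1 = 2 * r₃ := by
    rw [c2, b2, a2, c3, b3, a3, hs]
    ring
  refine ⟨Z₃, r₃, by rw [hdim]; exact hr, ?_⟩
  rw [hdim]
  exact h₃

theorem central_iff : C.NoCentralInvariants ↔ C.NoInvariants := by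
  constructor
  · intro h X m r hmr v hv
    by_contra hv0
    obtain ⟨Y, r', h1, z, hz0, hz⟩ := Inv.central hmr ⟨v, hv0, hv⟩
    exact hz0 (h Y r' h1 z hz)
  · intro h X r hr v hv
    exact h X _ r (by omega) v hv

theorem no_of_wm (h : C.WeightMonodromy) : C.NoInvariants := by
  intro X m r hmr v hv
  have h1 : v ∈ (C.H X m).W (2 * r) := WDRep.mem_W_tate hv.2
  obtain ⟨k, hk⟩ : ∃ k : ℕ, 2 * r = m + (k + 1 : ℕ) := ⟨(2 * r - m - 1).toNat, by omega⟩
  rw [hk] at h1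
  refine (wm_iff.1 h X m (k + 1)).1 v h1 ?_
  change (C.H X m).N^[k + 1] v = 0
  rw [Function.iterate_succ_apply, hv.1, (C.H X m).N_iter, map_zero]

theorem Pairing.n_tensor {d : ℤ} {A B Z : WDRep s} (β : Pairing d A B Z)
    {S : Submodule K B.V} (hA : ∀ y, A.N y = 0) (hS : ∀ x ∈ S, B.n x = 0) {z : Z.V}
    (hz : z ∈ β.tensor S) : Z.n z = 0 := by
  have h1 : β.tensor S ≤ LinearMap.ker Z.n := by
    rw [Pairing.tensor, Submodule.span_le]
    rintro _ ⟨y, x, hx, rfl⟩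
    change Z.n (β.lin y x) = 0
    have h2 : A.n y = 0 := hA y
    rw [← β.lin_n, h2, hS x hx, map_zero, map_zero, LinearMap.zero_apply, add_zero]
  exact h1 hz

theorem kernel_of_no (h : C.NoInvariants) : C.toG.KernelWeights := by
  intro X m w hw x hx hN
  by_contra hx0
  let S : Submodule K (C.H X m).V := LinearMap.ker (C.H X m).n ⊓ (C.H X m).W w
  have hS : (C.H X m).IsPart w S := by
    refine ⟨?_, fun x hx => WDRep.mem_W.1 hx.2, fun g x hx => ⟨?_, ?_⟩⟩
    · rw [Submodule.ne_bot_iff]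
      exact ⟨x, ⟨hN, hx⟩, hx0⟩
    · change (C.H X m).n ((C.H X m).rep g x) = 0
      rw [(C.H X m).n_rep, LinearMap.mem_ker.1 hx.1, map_zero, smul_zero]
    · exact Pool.Agent.Y129.LT.weightSpace_stable hx.2 g
  obtain ⟨Y, n, j, hj, hY, z, hz, hz0, hzρ⟩ := C.good X m w S hS
  refine hz0 (h (C.prod Y X) (n + m) j (by omega) z ⟨?_, hzρ⟩)
  have hSN : ∀ x ∈ S, (C.H X m).n x = 0 := fun x hx => LinearMap.mem_ker.1 hx.1
  exact Pairing.n_tensor (C.ext Y n X m) hY hSN hz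

theorem main (C : Cohomology s) {f : ℕ → ℕ} (hf : Sublinear f) :
    (C.WeightMonodromy ↔ C.NoInvariants) ∧ (C.WeightMonodromy ↔ C.NoCentralInvariants) ∧
      (C.WeightMonodromy ↔ C.OneExponent f) := by
  have h1 : C.WeightMonodromy ↔ C.NoInvariants :=
    ⟨no_of_wm, fun h => wm_iff.2 ((C.toG.main hf).2.2.2 (kernel_of_no h))⟩
  exact ⟨h1, h1.trans central_iff.symm, by rw [wm_iff, one_iff]; exact (C.toG.main hf).1⟩

end Cohomology

end Pool.Agent.Y129.WM
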