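import Pool.Agent.Y129.WM.GDefs

/-!
# Reduction of the weight-monodromy conjecture to the kernel of `N`
-/

open Filter Topology Module

namespace Pool.Agent.Y129.WM

variable {K : Type} [Field K]

theorem GMod.N_add (A : GMod K) (x y : A.V) : A.N (x + y) = A.N x + A.N y := by
  have h := A.N_lin 1 x y
  rwa [one_smul, one_smul] at h

theorem GMod.N_zero (A : GMod K) : A.N 0 = 0 := by
  have h := A.N_add 0 0
  rw [add_zero] at h
  exact (add_eq_left.1 h.symm)

/-- The operator `N` as a linear map. -/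
def GMod.n (A : GMod K) : End K A.V where
  toFun := A.N
  map_add' := A.N_add
  map_smul' a x := by
    have h := A.N_lin a x 0
    rwa [add_zero, A.N_zero, add_zero] at h

theorem GMod.N_iter (A : GMod K) (k : ℕ) (x : A.V) : A.N^[k] x = (A.n ^ k) x := by
  rw [Module.End.pow_apply]
  rfl

theorem GMod.n_nilpotent (A : GMod K) : IsNilpotent A.n := by
  obtain ⟨n, hn⟩ := A.nilpotent
  exact ⟨n, LinearMap.ext fun x => by rw [← A.N_iter, hn]; rfl⟩

theorem GMod.n_pow_gr (A : GMod K) {w : ℤ} {x : A.V} (hx : x ∈ A.gr w) (k : ℕ) :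
    (A.n ^ k) x ∈ A.gr (w - 2 * k) := by
  induction k with
  | zero => simpa using hx
  | succ k ih =>
    rw [pow_succ', Module.End.mul_apply]
    have h1 := A.N_gr _ _ ih
    have h2 : w - 2 * ((k + 1 : ℕ) : ℤ) = w - 2 * k - 2 := by push_cast; ring
    rw [h2]
    exact h1

/-- A pairing as a bilinear map. -/
def GPairing.lin {d : ℤ} {A B Z : GMod K} (β : GPairing d A B Z) : A.V →ₗ[K] B.V →ₗ[K] Z.V :=
  have h1 : ∀ x x' y, β.map (x + x') y = β.map x y + β.map x' y := fun x x' y => by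
    have h := β.map_left 1 x x' y
    rwa [one_smul, one_smul] at h
  have h2 : ∀ x y y', β.map x (y + y') = β.map x y + β.map x y' := fun x y y' => by
    have h := β.map_right 1 x y y'
    rwa [one_smul, one_smul] at h
  have h3 : ∀ y, β.map 0 y = 0 := fun y => by
    have h := h1 0 0 y
    rw [add_zero] at h
    exact (add_eq_left.1 h.symm)
  have h4 : ∀ x, β.map x 0 = 0 := fun x => by
    have h := h2 x 0 0
    rw [add_zero] at h
    exact (add_eq_left.1 h.symm)
  LinearMap.mk₂ K β.map h1 (fun a x y => by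
      have h := β.map_left a x 0 y
      rwa [add_zero, h3, add_zero] at h) h2 (fun a x y => by
      have h := β.map_right a x y 0
      rwa [add_zero, h4, add_zero] at h)

theorem GPairing.lin_apply {d : ℤ} {A B Z : GMod K} (β : GPairing d A B Z) (x : A.V) (y : B.V) :
    β.lin x y = β.map x y := rfl

theorem GPairing.lin_n {d : ℤ} {A B Z : GMod K} (β : GPairing d A B Z) (x : A.V) (y : B.V) :
    β.lin (A.n x) y + β.lin x (B.n y) = Z.n (β.lin x y) :=
  β.map_N x y

theorem GPairing.lin_gr {d : ℤ} {A B Z : GMod K} (β : GPairing d A B Z) {u w : ℤ} {x : A.V}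
    {y : B.V} (hx : x ∈ A.gr u) (hy : y ∈ B.gr w) : β.lin x y ∈ Z.gr (u + w - 2 * d) :=
  β.map_gr u w x y hx hy

namespace GTheory

variable (C : GTheory K)

/-- The pairing as a bilinear form. -/
def bil (X : C.Obj) (m m' : ℤ) (h : m + m' = 2 * (C.dim X : ℤ)) :
    (C.H X m).V →ₗ[K] (C.H X m').V →ₗ[K] K := (C.pair X m m' h).lin

theorem bil_n (X : C.Obj) (m m' : ℤ) (h : m + m' = 2 * (C.dim X : ℤ))
    (x : (C.H X m).V) (y : (C.H X m').V) : C.bil X m m' h ((C.H X m).n x) y +
      C.bil X m m' h x ((C.H X m').n y) = 0 :=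
  (C.pair X m m' h).lin_n x y

theorem bil_left (X : C.Obj) (m m' : ℤ) (h : m + m' = 2 * (C.dim X : ℤ))
    (x : (C.H X m).V) (hx : ∀ y, C.bil X m m' h x y = 0) : x = 0 :=
  (C.perfect X m m' h).1 x hx

theorem bil_right (X : C.Obj) (m m' : ℤ) (h : m + m' = 2 * (C.dim X : ℤ))
    (y : (C.H X m').V) (hy : ∀ x, C.bil X m m' h x y = 0) : y = 0 :=
  (C.perfect X m m' h).2 y hy

/-- Orthogonality of the weights. -/
theorem bil_gr (X : C.Obj) (m m' : ℤ) (h : m + m' = 2 * (C.dim X : ℤ)) {u w : ℤ}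
    {x : (C.H X m).V} {y : (C.H X m').V} (hx : x ∈ (C.H X m).gr u) (hy : y ∈ (C.H X m').gr w)
    (huw : u + w ≠ 2 * (C.dim X : ℤ)) : C.bil X m m' h x y = 0 := by
  have h1 := (C.pair X m m' h).lin_gr hx hy
  change C.bil X m m' h x y ∈ (if u + w - 2 * (C.dim X : ℤ) = 0 then ⊤ else ⊥ : Submodule K K) at h1
  rw [if_neg (by omega)] at h1
  exact h1

theorem act_ext' (X : C.Obj) (m m' : ℤ) (Y : C.Obj) (n : ℤ) (h : m + m' = 2 * (C.dim X : ℤ))
    (x : (C.H X m).V) (y : (C.H Y n).V) (x' : (C.H X m').V) :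
    (C.act X m m' Y n h).lin ((C.ext X m Y n).lin x y) x' = C.bil X m m' h x x' • y :=
  C.act_ext X m m' Y n h x y x'

theorem exists_dual (X : C.Obj) (m : ℤ) {x : (C.H X m).V} (hx : x ≠ 0) :
    ∃ (m' : ℤ) (h : m + m' = 2 * (C.dim X : ℤ)) (x' : (C.H X m').V), C.bil X m m' h x x' ≠ 0 := by
  by_contra hne
  push Not at hne
  exact hx (C.bil_left X m (2 * (C.dim X : ℤ) - m) (by ring) x fun y => hne _ _ y)

theorem ext_ne {X : C.Obj} {m : ℤ} {Y : C.Obj} {n : ℤ} {x : (C.H X m).V} {y : (C.H Y n).V}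
    (hx : x ≠ 0) (hy : y ≠ 0) : (C.ext X m Y n).lin x y ≠ 0 := by
  obtain ⟨m', h, x', hx'⟩ := C.exists_dual X m hx
  intro h0
  have h1 := C.act_ext' X m m' Y n h x y x'
  rw [h0, map_zero, LinearMap.zero_apply] at h1
  exact (smul_ne_zero hx' hy) h1.symm

/-- A vector of weight `w` in `H^m(X)` can be paired with one of weight `2 d - w`. -/
theorem exists_dual_gr (X : C.Obj) (m m' : ℤ) (h : m + m' = 2 * (C.dim X : ℤ)) {w : ℤ}
    {x : (C.H X m).V} (hxw : x ∈ (C.H X m).gr w) (hx : x ≠ 0) :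
    ∃ x' ∈ (C.H X m').gr (2 * (C.dim X : ℤ) - w), C.bil X m m' h x x' ≠ 0 := by
  by_contra hne
  push Not at hne
  have h1 : (⊤ : Submodule K (C.H X m').V) ≤ LinearMap.ker (C.bil X m m' h x) := by
    rw [← (C.H X m').top]
    refine iSup_le fun w' y hy => ?_
    change C.bil X m m' h x y = 0
    by_cases hw : w' = 2 * (C.dim X : ℤ) - w
    · rw [hw] at hy
      exact hne y hy
    · exact C.bil_gr X m m' h hxw hy (by omega)
  exact hx (C.bil_left X m m' h x fun y => h1 (Submodule.mem_top (x := y)))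

/-- The dimensions of dual parts. -/
theorem finrank_gr_le (X : C.Obj) (m m' : ℤ) (h : m + m' = 2 * (C.dim X : ℤ)) (w w' : ℤ)
    (hw : w + w' = 2 * (C.dim X : ℤ)) :
    finrank K ((C.H X m).gr w) ≤ finrank K ((C.H X m').gr w') := by
  let f : (C.H X m).gr w →ₗ[K] Module.Dual K ((C.H X m').gr w') :=
    ((C.bil X m m' h).compl₂ ((C.H X m').gr w').subtype).domRestrict ((C.H X m).gr w)
  have hf : Function.Injective f := by
    rw [← LinearMap.ker_eq_bot, Submodule.eq_bot_iff]
    intro x hx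
    by_contra hx0
    obtain ⟨x', hx', hne⟩ := C.exists_dual_gr X m m' h x.2 (fun h0 => hx0 (Subtype.ext h0))
    have h2 : 2 * (C.dim X : ℤ) - w = w' := by omega
    rw [h2] at hx'
    exact hne (congrArg (fun g : Module.Dual K ((C.H X m').gr w') => g ⟨x', hx'⟩)
      (LinearMap.mem_ker.1 hx))
  have h1 := LinearMap.finrank_le_finrank_of_injective hf
  rwa [Subspace.dual_finrank_eq] at h1

/-- `N ^ k` as a linear map between the parts of weights `w` and `w - 2 k`. -/
def npow (A : GMod K) (w w' : ℤ) (k : ℕ) (h : w - 2 * k = w') : A.gr w →ₗ[K] A.gr w' :=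
  LinearMap.codRestrict _ ((A.n ^ k) ∘ₗ (A.gr w).subtype) fun x => by
    rw [← h]
    exact A.n_pow_gr x.2 k

theorem npow_apply (A : GMod K) {w w' : ℤ} {k : ℕ} (h : w - 2 * k = w') (x : A.gr w) :
    (npow A w w' k h x : A.V) = (A.n ^ k) x := rfl

theorem injectiveAt_iff (A : GMod K) (m : ℤ) (e : ℕ) :
    A.InjectiveAt m e ↔ Function.Injective (npow A (m + e) (m - e) e (by ring)) := by
  rw [← LinearMap.ker_eq_bot, Submodule.eq_bot_iff]
  constructor
  · intro h x hx
    refine Subtype.ext (h x x.2 ?_)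
    rw [A.N_iter]
    exact congrArg Subtype.val (LinearMap.mem_ker.1 hx)
  · intro h x hx hNx
    rw [A.N_iter] at hNx
    have h1 := h ⟨x, hx⟩ (LinearMap.mem_ker.2 (Subtype.ext hNx))
    exact congrArg Subtype.val h1

theorem surjectiveAt_iff (A : GMod K) (m : ℤ) (e : ℕ) :
    A.SurjectiveAt m e ↔ Function.Surjective (npow A (m + e) (m - e) e (by ring)) := by
  constructor
  · rintro h ⟨y, hy⟩
    obtain ⟨x, hx, hxy⟩ := h y hy
    exact ⟨⟨x, hx⟩, Subtype.ext (by rw [npow_apply, ← A.N_iter, hxy])⟩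
  · intro h y hy
    obtain ⟨x, hx⟩ := h ⟨y, hy⟩
    exact ⟨x, x.2, by rw [A.N_iter]; exact congrArg Subtype.val hx⟩

/-- Duality: `N ^ e` is injective for `H^m(X)` if and only if it is surjective for `H^{2d-m}(X)`. -/
theorem injectiveAt_iff_dual (X : C.Obj) (m m' : ℤ) (h : m + m' = 2 * (C.dim X : ℤ)) (e : ℕ) :
    (C.H X m).InjectiveAt m e ↔ (C.H X m').SurjectiveAt m' e := by
  have adj : ∀ (k : ℕ) x y, C.bil X m m' h x (((C.H X m').n ^ k) y) =
      (-1) ^ k * C.bil X m m' h (((C.H X m).n ^ k) x) y := by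
    intro k
    induction k with
    | zero => intro x y; simp
    | succ k ih =>
      intro x y
      rw [pow_succ', Module.End.mul_apply, pow_succ, pow_succ, Module.End.mul_apply]
      have h2 := C.bil_n X m m' h x (((C.H X m').n ^ k) y)
      have h3 : C.bil X m m' h x ((C.H X m').n (((C.H X m').n ^ k) y)) =
          -C.bil X m m' h ((C.H X m).n x) (((C.H X m').n ^ k) y) :=
        eq_neg_of_add_eq_zero_right h2
      rw [h3, ih]
      ring
  have hm : m' + m = 2 * (C.dim X : ℤ) := by omega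
  constructor
  · intro hinj
    -- the transpose of an injective map is surjective
    rw [surjectiveAt_iff]
    have hinj' := (injectiveAt_iff _ _ _).1 hinj
    have e1 : finrank K ((C.H X m).gr (m + e)) = finrank K ((C.H X m').gr (m' - e)) :=
      le_antisymm (C.finrank_gr_le X m m' h _ _ (by omega))
        (C.finrank_gr_le X m' m hm _ _ (by omega))
    have e2 : finrank K ((C.H X m).gr (m - e)) = finrank K ((C.H X m').gr (m' + e)) :=
      le_antisymm (C.finrank_gr_le X m m' h _ _ (by omega))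
        (C.finrank_gr_le X m' m hm _ _ (by omega))
    rw [← LinearMap.range_eq_top]
    by_contra hne
    -- a vector orthogonal to the image
    let T := npow (C.H X m') (m' + e) (m' - e) e (by ring)
    let f : (C.H X m).gr (m + e) →ₗ[K] Module.Dual K (LinearMap.range T) :=
      ((C.bil X m m' h).compl₂ (((C.H X m').gr (m' - e)).subtype ∘ₗ
        (LinearMap.range T).subtype)).domRestrict ((C.H X m).gr (m + e))
    have hlt : finrank K (LinearMap.range T) < finrank K ((C.H X m').gr (m' - e)) :=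
      Submodule.finrank_lt hne
    have hker : LinearMap.ker f ≠ ⊥ := by
      intro hbot
      have h1 := LinearMap.finrank_le_finrank_of_injective (LinearMap.ker_eq_bot.1 hbot)
      rw [Subspace.dual_finrank_eq] at h1
      omega
    obtain ⟨x, hx, hx0⟩ := Submodule.exists_mem_ne_zero_of_ne_bot hker
    have h1 : ∀ y ∈ (C.H X m').gr (m' + e), C.bil X m m' h ((C.H X m).n ^ e • (x : (C.H X m).V)) y =
        0 := by
      intro y hy
      have h2 := congrArg (fun g : Module.Dual K (LinearMap.range T) =>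
        g ⟨T ⟨y, hy⟩, LinearMap.mem_range_self T _⟩) (LinearMap.mem_ker.1 hx)
      have h3 : C.bil X m m' h (x : (C.H X m).V) (((C.H X m').n ^ e) y) = 0 := h2
      rw [adj] at h3
      exact (mul_eq_zero.1 h3).resolve_left (pow_ne_zero _ (neg_ne_zero.2 one_ne_zero))
    have h2 : ((C.H X m).n ^ e) (x : (C.H X m).V) = 0 := by
      by_contra hne2
      have h3 : ((C.H X m).n ^ e) (x : (C.H X m).V) ∈ (C.H X m).gr (m - e) := by
        have h4 := (C.H X m).n_pow_gr x.2 e
        have h5 : m + (e : ℤ) - 2 * e = m - e := by ring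
        rwa [h5] at h4
      obtain ⟨y, hy, hyne⟩ := C.exists_dual_gr X m m' h h3 hne2
      have h6 : 2 * (C.dim X : ℤ) - (m - e) = m' + e := by omega
      rw [h6] at hy
      exact hyne (h1 y hy)
    exact hx0 (Subtype.ext (hinj x x.2 (by rw [GMod.N_iter]; exact h2)))
  · intro hsurj x hx hNx
    by_contra hx0
    obtain ⟨y, hy, hyne⟩ := C.exists_dual_gr X m m' h hx hx0
    have h6 : 2 * (C.dim X : ℤ) - (m + e) = m' - e := by omega
    rw [h6] at hy
    obtain ⟨y', _, rfl⟩ := hsurj y hy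
    rw [GMod.N_iter, adj] at hyne
    rw [GMod.N_iter] at hNx
    rw [hNx, map_zero, LinearMap.zero_apply, mul_zero] at hyne
    exact hyne rfl

/-- If `N ^ k x = 0` for a nonzero vector `x` of weight `m + k` of `H^m(X)`, then there is a nonzero
vector in the kernel of `N` on `H^{2m}(X × X)` of weight greater than `2 m`. -/
theorem exists_kernel {X : C.Obj} {m : ℤ} {k : ℕ} {x : (C.H X m).V}
    (hx : x ∈ (C.H X m).gr (m + k)) (hx0 : x ≠ 0) (hN : ((C.H X m).n ^ k) x = 0) :
    ∃ δ : ℕ, 1 ≤ δ ∧ ∃ z ∈ (C.H (C.prod X X) (m + m)).gr (m + m + δ), z ≠ 0 ∧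
      (C.H (C.prod X X) (m + m)).n z = 0 := by
  classical
  -- the length of the string of `x`
  have hex : ∃ L, ((C.H X m).n ^ (L + 1)) x = 0 := by
    obtain ⟨n, hn⟩ := (C.H X m).n_nilpotent
    exact ⟨n, by rw [pow_succ', hn, mul_zero]; rfl⟩
  set L := Nat.find hex with hLdef
  have hL1 : ((C.H X m).n ^ (L + 1)) x = 0 := Nat.find_spec hex
  have hL0 : ((C.H X m).n ^ L) x ≠ 0 := by
    rcases Nat.eq_zero_or_pos L with h0 | h0
    · rw [h0]; exact hx0
    · intro h1
      have h2 := Nat.find_min hex (m := L - 1) (by omega)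
      rw [Nat.sub_add_cancel h0] at h2
      exact h2 h1
  have hLk : L < k := by
    by_contra hge
    push Not at hge
    apply hL0
    obtain ⟨j, hj⟩ := Nat.exists_eq_add_of_le hge
    rw [hj, Nat.add_comm, pow_add, Module.End.mul_apply, hN, map_zero]
  set ε := C.ext X m X m with hε
  let z := ∑ i ∈ Finset.range (L + 1), ((-1 : K) ^ i) •
    ε.lin (((C.H X m).n ^ i) x) (((C.H X m).n ^ (L - i)) x)
  refine ⟨2 * (k - L), by omega, z, ?_, ?_, ?_⟩
  · refine Submodule.sum_mem _ fun i hi => Submodule.smul_mem _ _ ?_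
    have hi' : i ≤ L := Nat.lt_succ_iff.1 (Finset.mem_range.1 hi)
    have h1 := ε.lin_gr ((C.H X m).n_pow_gr hx i) ((C.H X m).n_pow_gr hx (L - i))
    have h2 : m + (k : ℤ) - 2 * (i : ℤ) + (m + k - 2 * ((L - i : ℕ) : ℤ)) - 2 * 0 =
        m + m + ((2 * (k - L) : ℕ) : ℤ) := by
      push_cast [Nat.cast_sub hi', Nat.cast_sub hLk.le]
      ring
    rwa [h2] at h1
  · -- contract with a functional vanishing on the other vectors of the string
    intro hz
    obtain ⟨x', hx', hne⟩ := C.exists_dual_gr X m (2 * (C.dim X : ℤ) - m) (by ring) hx hx0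
    have h1 := congrArg (fun y => (C.act X m (2 * (C.dim X : ℤ) - m) X m (by ring)).lin y x') hz
    simp only [z, map_sum, LinearMap.sum_apply, map_zero, LinearMap.zero_apply, map_smul,
      LinearMap.smul_apply] at h1
    rw [Finset.sum_eq_single 0] at h1
    · rw [pow_zero, one_smul, pow_zero, Module.End.one_apply, Nat.sub_zero, hε, C.act_ext'] at h1
      exact (smul_ne_zero hne hL0) h1
    · intro i _ hi0
      have h2 : C.bil X m (2 * (C.dim X : ℤ) - m) (by ring) (((C.H X m).n ^ i) x) x' = 0 := by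
        refine C.bil_gr X m _ _ ((C.H X m).n_pow_gr hx i) hx' ?_
        have h3 : (0 : ℤ) < i := by exact_mod_cast Nat.pos_of_ne_zero hi0
        omega
      rw [hε, C.act_ext', h2, zero_smul, smul_zero]
    · intro h2
      exact absurd (Finset.mem_range.2 (Nat.succ_pos L)) h2
  · -- the sum telescopes
    have h1 : ∀ i ∈ Finset.range (L + 1), (C.H (C.prod X X) (m + m)).n (((-1 : K) ^ i) •
        ε.lin (((C.H X m).n ^ i) x) (((C.H X m).n ^ (L - i)) x)) =
        ((-1 : K) ^ i) • ε.lin (((C.H X m).n ^ i) x) (((C.H X m).n ^ (L + 1 - i)) x) -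
        ((-1 : K) ^ (i + 1)) • ε.lin (((C.H X m).n ^ (i + 1)) x)
          (((C.H X m).n ^ (L + 1 - (i + 1))) x) := by
      intro i hi
      have hi' : i ≤ L := Nat.lt_succ_iff.1 (Finset.mem_range.1 hi)
      rw [map_smul, ← ε.lin_n, ← Module.End.mul_apply, ← Module.End.mul_apply, ← pow_succ',
        ← pow_succ', show L - i + 1 = L + 1 - i by omega, show L + 1 - (i + 1) = L - i by omega,
        pow_succ (-1 : K) i, smul_add, mul_neg_one, neg_smul, sub_neg_eq_add]
      exact add_comm _ _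
    change (C.H (C.prod X X) (m + m)).n (∑ i ∈ Finset.range (L + 1), ((-1 : K) ^ i) •
      ε.lin (((C.H X m).n ^ i) x) (((C.H X m).n ^ (L - i)) x)) = 0
    rw [map_sum, Finset.sum_congr rfl h1, Finset.sum_range_sub', Nat.sub_zero, hL1, map_zero,
      smul_zero, Nat.sub_self, map_zero, LinearMap.zero_apply, smul_zero, sub_zero]

end GTheory

end Pool.Agent.Y129.WM
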