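import Mathlib

/-!
# Graded modules with a monodromy operator, and cohomology theories with values in them: definitions
-/

open Filter Topology

namespace Pool.Agent.Y129.WM

/-- A graded vector space of finite dimension with a nilpotent operator `N` of degree `-2`. (The
example is `gr^P H^m(X)`, the grading is by the weights.) -/
structure GMod (K : Type) [Field K] where
  V : Type
  grp : AddCommGroup V
  mod : Module K V
  finite : FiniteDimensional K V
  /-- The part of weight `w`. -/
  gr : ℤ → Submodule K V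
  indep : iSupIndep gr
  top : ⨆ w, gr w = ⊤
  N : V → V
  N_lin : ∀ (a : K) x y, N (a • x + y) = a • N x + N y
  N_gr : ∀ w, ∀ x ∈ gr w, N x ∈ gr (w - 2)
  nilpotent : ∃ n : ℕ, ∀ v, N^[n] v = 0

attribute [instance] GMod.grp GMod.mod GMod.finite

variable {K : Type} [Field K]

/-- The trivial module `K`, of weight zero, with `N = 0`. -/
def GMod.unit (K : Type) [Field K] : GMod K where
  V := K
  grp := inferInstance
  mod := inferInstance
  finite := inferInstance
  gr w := if w = 0 then ⊤ else ⊥
  indep := by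
    intro w
    by_cases hw : w = 0
    · have h1 : (⨆ (j : ℤ) (_ : j ≠ w), (if j = 0 then ⊤ else ⊥ : Submodule K K)) = ⊥ := by
        refine iSup₂_eq_bot.2 fun j hj => if_neg ?_
        rw [hw] at hj
        exact hj
      rw [h1]
      exact disjoint_bot_right
    · change Disjoint (if w = 0 then ⊤ else ⊥ : Submodule K K) _
      rw [if_neg hw]
      exact disjoint_bot_left
  top := eq_top_iff.2 (le_iSup_of_le 0 (by rw [if_pos rfl]))
  N _ := 0
  N_lin a x y := by rw [smul_zero, add_zero]
  N_gr w x _ := Submodule.zero_mem _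
  nilpotent := ⟨1, fun _ => rfl⟩

/-- `N ^ e` is injective on the part of weight `m + e`. -/
def GMod.InjectiveAt (A : GMod K) (m : ℤ) (e : ℕ) : Prop :=
  ∀ x ∈ A.gr (m + e), A.N^[e] x = 0 → x = 0

/-- `N ^ e` maps the part of weight `m + e` onto the part of weight `m - e`. -/
def GMod.SurjectiveAt (A : GMod K) (m : ℤ) (e : ℕ) : Prop :=
  ∀ y ∈ A.gr (m - e), ∃ x ∈ A.gr (m + e), A.N^[e] x = y

/-- The bilinear maps `A × B → Z(-d)` compatible with the weights and with `N`. -/
structure GPairing (d : ℤ) (A B Z : GMod K) where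
  map : A.V → B.V → Z.V
  map_left : ∀ (a : K) x x' y, map (a • x + x') y = a • map x y + map x' y
  map_right : ∀ (a : K) x y y', map x (a • y + y') = a • map x y + map x y'
  map_gr : ∀ u w x y, x ∈ A.gr u → y ∈ B.gr w → map x y ∈ Z.gr (u + w - 2 * d)
  map_N : ∀ x y, map (A.N x) y + map x (B.N y) = Z.N (map x y)

/-- The pairing is perfect. -/
def GPairing.Perfect {d : ℤ} {A B Z : GMod K} (β : GPairing d A B Z) : Prop :=
  (∀ x, (∀ y, β.map x y = 0) → x = 0) ∧ ∀ y, (∀ x, β.map x y = 0) → y = 0

/-- A class of spaces `X` closed under products, and graded modules `H^m(X)` with the formal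
properties of the weight graded cohomology groups: exterior products, Poincaré duality, the action
of the classes on products `X × Y` as correspondences. -/
structure GTheory (K : Type) [Field K] where
  Obj : Type
  dim : Obj → ℕ
  prod : Obj → Obj → Obj
  dim_prod : ∀ X Y, dim (prod X Y) = dim X + dim Y
  H : Obj → ℤ → GMod K
  /-- The exterior product `H^m(X) ⊗ H^n(Y) → H^{m+n}(X × Y)`. -/
  ext : ∀ X m Y n, GPairing 0 (H X m) (H Y n) (H (prod X Y) (m + n))
  /-- Poincaré duality `H^m(X) ⊗ H^{m'}(X) → K(-d)`, `m + m' = 2 d`, `d = dim X`. -/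
  pair : ∀ X (m m' : ℤ), m + m' = 2 * (dim X : ℤ) →
    GPairing (dim X) (H X m) (H X m') (GMod.unit K)
  perfect : ∀ X m m' h, (pair X m m' h).Perfect
  /-- A class `z` in `H^{m+n}(X × Y)` acts as a correspondence and maps a class `x'` in `H^{m'}(X)`,
  `m + m' = 2 d`, `d = dim X`, to a class in `H^n(Y)(-d)`, the direct image of `z ∪ x'` (up to a sign
  which depends on `n` and `m'` only). -/
  act : ∀ X (m m' : ℤ) Y (n : ℤ), m + m' = 2 * (dim X : ℤ) →
    GPairing (dim X) (H (prod X Y) (m + n)) (H X m') (H Y n)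
  act_ext : ∀ X m m' Y n h x y x', (act X m m' Y n h).map ((ext X m Y n).map x y) x' =
    ((pair X m m' h).map x x' : K) • y

/-- The class contains a curve `E` with the cohomology of a Tate curve: `1` in `H^0(E)` and `e0` in
`H^1(E)` have weight `0`, `e1` in `H^1(E)` has weight `2`, and `N(e1) = e0`. -/
structure GCohomology (K : Type) [Field K] extends GTheory K where
  E : Obj
  dim_E : dim E = 1
  one : (H E 0).V
  e0 : (H E 1).V
  e1 : (H E 1).V
  one_ne : one ≠ 0
  e0_ne : e0 ≠ 0
  one_gr : one ∈ (H E 0).gr 0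
  e0_gr : e0 ∈ (H E 1).gr 0
  e1_gr : e1 ∈ (H E 1).gr 2
  N_one : (H E 0).N one = 0
  N_e0 : (H E 1).N e0 = 0
  N_e1 : (H E 1).N e1 = e0

namespace GCohomology

variable (C : GCohomology K)

/-- The weight-monodromy conjecture for all `X`: for all `m` and `e` the map `N ^ e` is an isomorphism
from the part of weight `m + e` of `H^m(X)` to the part of weight `m - e`. -/
def WeightMonodromy : Prop :=
  ∀ X m (e : ℕ), (C.H X m).InjectiveAt m e ∧ (C.H X m).SurjectiveAt m e

/-- For every `X` there is one exponent `e` with `1 ≤ e ≤ f(dim X)` such that for all `m` the map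
`N ^ e` is injective on the part of weight `m + e` of `H^m(X)`. -/
def OneInjective (f : ℕ → ℕ) : Prop :=
  ∀ X, ∃ e : ℕ, 1 ≤ e ∧ e ≤ f (C.dim X) ∧ ∀ m, (C.H X m).InjectiveAt m e

/-- For every `X` there is one exponent `e` with `1 ≤ e ≤ f(dim X)` such that for all `m` the map
`N ^ e` from the part of weight `m + e` of `H^m(X)` to the part of weight `m - e` is surjective. -/
def OneSurjective (f : ℕ → ℕ) : Prop :=
  ∀ X, ∃ e : ℕ, 1 ≤ e ∧ e ≤ f (C.dim X) ∧ ∀ m, (C.H X m).SurjectiveAt m e

/-- The kernel of `N` on `H^m(X)` has weights at most `m`, for all `X` and `m`. -/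
def KernelWeights : Prop :=
  ∀ X m w, m < w → ∀ x ∈ (C.H X m).gr w, (C.H X m).N x = 0 → x = 0

end GCohomology

/-- The values of `f` are positive and `f(n) / n` tends to zero. -/
def Sublinear (f : ℕ → ℕ) : Prop :=
  (∀ n, 1 ≤ f n) ∧ Tendsto (fun n => (f n : ℝ) / n) atTop (𝓝 0)

end Pool.Agent.Y129.WM
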