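import Pool.Agent.Y129.WM.FDefs

/-!
# Modules with a Frobenius `φ`, a monodromy operator `N` and an action of the Galois group

The example is `D_pst(V)` for a `p`-adic representation `V` of the Galois group of a `p`-adic field
`F`: a vector space over `P = P_0`, the completion of the maximal unramified extension of `ℚ_p` (with
the Frobenius `σ`), with a semilinear bijection `φ`, an operator `N` and a semilinear action of
the Weil group `Γ` of `F`. An element `g` of `Γ` acts on `P` as `σ ^ (-n(g))`.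
-/

namespace Pool.Agent.Y129.WM

/-- The data of `P_0` and the Weil group: the prime `p`, the Frobenius `σ` of `P`, the
homomorphism `n : Γ → ℤ`, and an element `Fr` with `n(Fr) = h` (the residue field has `p ^ h`
elements). -/
structure PadicGroup (P Γ : Type) [Field P] [Group Γ] where
  p : ℕ
  one_lt : 1 < p
  σ : RingAut P
  n : Γ → ℤ
  n_mul : ∀ g g', n (g * g') = n g + n g'
  Fr : Γ
  h : ℕ
  h_pos : 0 < h
  n_Fr : n Fr = h

variable {P Γ : Type} [Field P] [Group Γ]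

theorem PadicGroup.p_ne [CharZero P] (s : PadicGroup P Γ) : (s.p : P) ≠ 0 := by
  have h := s.one_lt
  exact_mod_cast (by omega : s.p ≠ 0)

theorem PadicGroup.n_one (s : PadicGroup P Γ) : s.n 1 = 0 := by
  have h := s.n_mul 1 1
  rw [mul_one] at h
  omega

theorem PadicGroup.c_one [CharZero P] (s : PadicGroup P Γ) :
    (Units.mk0 (s.p : P) s.p_ne) ^ (s.n 1) = 1 := by rw [s.n_one, zpow_zero]

theorem PadicGroup.c_mul [CharZero P] (s : PadicGroup P Γ) (g g' : Γ) :
    (Units.mk0 (s.p : P) s.p_ne) ^ (s.n (g * g')) =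
      (Units.mk0 (s.p : P) s.p_ne) ^ (s.n g) * (Units.mk0 (s.p : P) s.p_ne) ^ (s.n g') := by
  rw [s.n_mul, zpow_add]

theorem PadicGroup.c_Fr [CharZero P] (s : PadicGroup P Γ) :
    (((Units.mk0 (s.p : P) s.p_ne) ^ (s.n s.Fr) : Pˣ) : P) = ((s.p ^ s.h : ℕ) : P) := by
  rw [s.n_Fr, zpow_natCast]
  push_cast
  rfl

theorem PadicGroup.one_lt_q (s : PadicGroup P Γ) : 1 < s.p ^ s.h :=
  Nat.one_lt_pow s.h_pos.ne' s.one_lt

/-- The Weil group with `q = p ^ h` and the character `c(g) = p ^ n(g)`. -/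
def PadicGroup.weil [CharZero P] (s : PadicGroup P Γ) : WeilGroup P Γ where
  q := s.p ^ s.h
  one_lt := s.one_lt_q
  Fr := s.Fr
  c := ⟨⟨fun g => (Units.mk0 (s.p : P) s.p_ne) ^ (s.n g), s.c_one⟩, s.c_mul⟩
  c_Fr := s.c_Fr

/-- A vector space of finite dimension over `P` with `φ`, `N` and a semilinear action of `Γ`. -/
structure PstMod (s : PadicGroup P Γ) where
  V : Type
  grp : AddCommGroup V
  mod : Module P V
  finite : FiniteDimensional P V
  φ : Equiv.Perm V
  act : Γ → V → V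
  N : V → V
  φ_lin : ∀ (a : P) x y, φ (a • x + y) = s.σ a • φ x + φ y
  act_lin : ∀ g (a : P) x y, act g (a • x + y) = (s.σ ^ (-s.n g)) a • act g x + act g y
  N_lin : ∀ (a : P) x y, N (a • x + y) = a • N x + N y
  act_one : ∀ x, act 1 x = x
  act_mul : ∀ g g' x, act (g * g') x = act g (act g' x)
  act_φ : ∀ g x, act g (φ x) = φ (act g x)
  nilpotent : ∃ n : ℕ, ∀ v, N^[n] v = 0
  N_φ : ∀ x, N (φ x) = (s.p : P) • φ (N x)
  N_act : ∀ g x, N (act g x) = act g (N x)

attribute [instance] PstMod.grp PstMod.mod PstMod.finite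

namespace PstMod

variable {s : PadicGroup P Γ} (A : PstMod s)

theorem φ_pow_lin (k : ℤ) (a : P) (x y : A.V) :
    (A.φ ^ k) (a • x + y) = (s.σ ^ k) a • (A.φ ^ k) x + (A.φ ^ k) y := by
  have hp : ∀ (k : ℕ) (a : P) (x y : A.V),
      (A.φ ^ k) (a • x + y) = (s.σ ^ k) a • (A.φ ^ k) x + (A.φ ^ k) y := by
    intro k
    induction k with
    | zero => intro a x y; simp
    | succ k ih =>
      intro a x y
      rw [pow_succ, Equiv.Perm.mul_apply, A.φ_lin, ih, pow_succ]
      rfl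
  rcases Int.eq_nat_or_neg k with ⟨n, rfl | rfl⟩
  · rw [zpow_natCast, zpow_natCast]
    exact hp n a x y
  · have h1 := hp n ((s.σ ^ (-(n : ℤ))) a) ((A.φ ^ (-(n : ℤ))) x) ((A.φ ^ (-(n : ℤ))) y)
    have h2 : (s.σ ^ n) ((s.σ ^ (-(n : ℤ))) a) = a := by
      rw [← zpow_natCast, ← RingAut.mul_apply, ← zpow_add, add_neg_cancel, zpow_zero]
      rfl
    have h3 : ∀ z, (A.φ ^ n) ((A.φ ^ (-(n : ℤ))) z) = z := by
      intro z
      rw [← zpow_natCast, ← Equiv.Perm.mul_apply, ← zpow_add, add_neg_cancel, zpow_zero]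
      rfl
    rw [h2, h3, h3] at h1
    have h4 : ∀ z, (A.φ ^ (-(n : ℤ))) ((A.φ ^ n) z) = z := by
      intro z
      rw [← zpow_natCast, ← Equiv.Perm.mul_apply, ← zpow_add, neg_add_cancel, zpow_zero]
      rfl
    rw [← h1, h4]

theorem act_φ_pow (k : ℤ) (g : Γ) (x : A.V) : A.act g ((A.φ ^ k) x) = (A.φ ^ k) (A.act g x) := by
  have hp : ∀ (k : ℕ) (x : A.V), A.act g ((A.φ ^ k) x) = (A.φ ^ k) (A.act g x) := by
    intro k
    induction k with
    | zero => intro x; simp
    | succ k ih =>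
      intro x
      rw [pow_succ, Equiv.Perm.mul_apply, ih, A.act_φ, Equiv.Perm.mul_apply]
  rcases Int.eq_nat_or_neg k with ⟨n, rfl | rfl⟩
  · rw [zpow_natCast]
    exact hp n x
  · have h4 : ∀ z, (A.φ ^ (-(n : ℤ))) ((A.φ ^ n) z) = z := by
      intro z
      rw [← zpow_natCast, ← Equiv.Perm.mul_apply, ← zpow_add, neg_add_cancel, zpow_zero]
      rfl
    have h3 : ∀ z, (A.φ ^ n) ((A.φ ^ (-(n : ℤ))) z) = z := by
      intro z
      rw [← zpow_natCast, ← Equiv.Perm.mul_apply, ← zpow_add, add_neg_cancel, zpow_zero]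
      rfl
    have h1 := hp n ((A.φ ^ (-(n : ℤ))) x)
    rw [h3] at h1
    rw [h1, h4]

theorem N_add (x y : A.V) : A.N (x + y) = A.N x + A.N y := by
  have h := A.N_lin 1 x y
  rwa [one_smul, one_smul] at h

theorem N_zero : A.N 0 = 0 := by
  have h := A.N_add 0 0
  rw [add_zero] at h
  exact (add_eq_left.1 h.symm)

theorem N_smul (a : P) (x : A.V) : A.N (a • x) = a • A.N x := by
  have h := A.N_lin a x 0
  rwa [add_zero, A.N_zero, add_zero] at h

theorem N_φ_pow [CharZero P] (k : ℤ) (x : A.V) :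
    A.N ((A.φ ^ k) x) = (s.p : P) ^ k • (A.φ ^ k) (A.N x) := by
  have hp : ∀ (k : ℕ) (x : A.V), A.N ((A.φ ^ k) x) = (s.p : P) ^ k • (A.φ ^ k) (A.N x) := by
    intro k
    induction k with
    | zero => intro x; simp
    | succ k ih =>
      intro x
      rw [pow_succ, Equiv.Perm.mul_apply, ih, A.N_φ]
      have h1 := A.φ_pow_lin k (s.p : P) (A.φ (A.N x)) 0
      have h2 := A.φ_pow_lin k (s.p : P) 0 0
      rw [smul_zero, add_zero, map_natCast] at h2
      have h0 : (A.φ ^ (k : ℤ)) (0 : A.V) = 0 := by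
        have h3 := A.φ_pow_lin k 1 0 0
        rw [smul_zero, add_zero, map_one, one_smul] at h3
        exact (add_eq_left.1 h3.symm)
      rw [add_zero, h0, add_zero, map_natCast, zpow_natCast] at h1
      rw [h1, smul_smul, ← pow_succ, pow_succ, Equiv.Perm.mul_apply]
  rcases Int.eq_nat_or_neg k with ⟨n, rfl | rfl⟩
  · rw [zpow_natCast, zpow_natCast]
    exact hp n x
  · have h4 : ∀ z, (A.φ ^ (-(n : ℤ))) ((A.φ ^ n) z) = z := by
      intro z
      rw [← zpow_natCast, ← Equiv.Perm.mul_apply, ← zpow_add, neg_add_cancel, zpow_zero]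
      rfl
    have h3 : ∀ z, (A.φ ^ n) ((A.φ ^ (-(n : ℤ))) z) = z := by
      intro z
      rw [← zpow_natCast, ← Equiv.Perm.mul_apply, ← zpow_add, add_neg_cancel, zpow_zero]
      rfl
    have h1 := hp n ((A.φ ^ (-(n : ℤ))) x)
    rw [h3] at h1
    have hsm : ∀ (a : P) z, (A.φ ^ (-(n : ℤ))) (a • z) = (s.σ ^ (-(n : ℤ))) a •
        (A.φ ^ (-(n : ℤ))) z := by
      intro a z
      have h0 : (A.φ ^ (-(n : ℤ))) (0 : A.V) = 0 := by
        have h3 := A.φ_pow_lin (-(n : ℤ)) 1 0 0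
        rw [smul_zero, add_zero, map_one, one_smul] at h3
        exact (add_eq_left.1 h3.symm)
      have h5 := A.φ_pow_lin (-(n : ℤ)) a z 0
      rwa [add_zero, h0, add_zero] at h5
    have h6 : (s.p : P) ^ (-(n : ℤ)) * (s.p : P) ^ n = 1 := by
      rw [zpow_neg, zpow_natCast, inv_mul_cancel₀ (pow_ne_zero _ s.p_ne)]
    rw [h1, hsm, h4, map_pow, map_natCast, smul_smul, h6, one_smul]

/-- The linear action of `Γ`: the element `g` acts as `g φ ^ n(g)`. -/
def ρ (g : Γ) (x : A.V) : A.V := A.act g ((A.φ ^ s.n g) x)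

theorem ρ_lin (g : Γ) (a : P) (x y : A.V) : A.ρ g (a • x + y) = a • A.ρ g x + A.ρ g y := by
  rw [ρ, A.φ_pow_lin, A.act_lin, ← RingAut.mul_apply, ← zpow_add, neg_add_cancel, zpow_zero]
  rfl

theorem ρ_one (x : A.V) : A.ρ 1 x = x := by
  rw [ρ, s.n_one, A.act_one, zpow_zero]
  rfl

theorem ρ_mul (g g' : Γ) (x : A.V) : A.ρ (g * g') x = A.ρ g (A.ρ g' x) := by
  rw [ρ, ρ, ρ, A.act_mul, s.n_mul, zpow_add, Equiv.Perm.mul_apply, A.act_φ_pow (s.n g) g']

theorem N_ρ [CharZero P] (g : Γ) (x : A.V) : A.N (A.ρ g x) = (s.weil.c g : P) • A.ρ g (A.N x) := by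
  have h1 : (s.weil.c g : P) = (s.p : P) ^ s.n g := by
    change (((Units.mk0 (s.p : P) s.p_ne) ^ (s.n g) : Pˣ) : P) = _
    push_cast
    rfl
  rw [h1, ρ, ρ, A.N_act, A.N_φ_pow]
  have h0 : A.act g (0 : A.V) = 0 := by
    have h3 := A.act_lin g 1 0 0
    rw [smul_zero, add_zero, map_one, one_smul] at h3
    exact (add_eq_left.1 h3.symm)
  have h2 := A.act_lin g ((s.p : P) ^ s.n g) ((A.φ ^ s.n g) (A.N x)) 0
  rw [add_zero, h0, add_zero, map_zpow₀, map_natCast] at h2
  exact h2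

/-- The Weil-Deligne representation of `A`. -/
def toWD [CharZero P] (A : PstMod s) : WDRep s.weil where
  V := A.V
  grp := A.grp
  mod := A.mod
  finite := A.finite
  ρ := A.ρ
  N := A.N
  ρ_lin := A.ρ_lin
  N_lin := A.N_lin
  ρ_one := A.ρ_one
  ρ_mul := A.ρ_mul
  nilpotent := A.nilpotent
  N_ρ := A.N_ρ

/-- `v` is in `D_cris(V(r))^{φ = 1}`, for `A = D_pst(V)`: it is killed by `N`, fixed by the Galois
group, and `φ v = p ^ r v`. -/
def IsCrys (A : PstMod s) (r : ℤ) (v : A.V) : Prop :=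
  A.N v = 0 ∧ (∀ g, A.act g v = v) ∧ A.φ v = (s.p : P) ^ r • v

/-- `S` is a nonzero subspace of the part of weight `a`, stable under `φ` and the Galois
group. -/
def IsPart [CharZero P] (A : PstMod s) (a : ℤ) (S : Submodule P A.V) : Prop :=
  S ≠ ⊥ ∧ (∀ x ∈ S, A.toWD.HasWeight a x) ∧ (∀ x ∈ S, A.φ x ∈ S) ∧ ∀ g, ∀ x ∈ S, A.act g x ∈ S

theorem unit_act_one (s : PadicGroup P Γ) (x : P) : (s.σ ^ (-s.n 1)) x = x := by
  rw [s.n_one, neg_zero, zpow_zero]
  rfl

theorem unit_act_mul (s : PadicGroup P Γ) (g g' : Γ) (x : P) :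
    (s.σ ^ (-s.n (g * g'))) x = (s.σ ^ (-s.n g)) ((s.σ ^ (-s.n g')) x) := by
  rw [s.n_mul, neg_add, zpow_add]
  rfl

theorem unit_act_φ (s : PadicGroup P Γ) (g : Γ) (x : P) :
    (s.σ ^ (-s.n g)) (s.σ.toEquiv x) = s.σ.toEquiv ((s.σ ^ (-s.n g)) x) := by
  change (s.σ ^ (-s.n g) * s.σ) x = (s.σ * s.σ ^ (-s.n g)) x
  rw [mul_zpow_self, mul_self_zpow]

/-- The trivial module `P`. -/
def unit (s : PadicGroup P Γ) : PstMod s where
  V := P
  grp := inferInstance
  mod := inferInstance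
  finite := inferInstance
  φ := s.σ.toEquiv
  act g x := (s.σ ^ (-s.n g) : RingAut P) x
  N _ := 0
  φ_lin a x y := by rw [smul_eq_mul, smul_eq_mul]; exact (map_add s.σ _ _).trans (by rw [map_mul]; rfl)
  act_lin g a x y := by rw [smul_eq_mul, smul_eq_mul, map_add, map_mul]
  N_lin a x y := by rw [smul_zero, add_zero]
  act_one := unit_act_one s
  act_mul := unit_act_mul s
  act_φ := unit_act_φ s
  nilpotent := ⟨1, fun _ => rfl⟩
  N_φ _ := by rw [show s.σ.toEquiv (0 : P) = 0 from map_zero s.σ, smul_zero]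
  N_act _ _ := (map_zero _).symm

end PstMod

variable {s : PadicGroup P Γ}

/-- The bilinear maps `A × B → Z(-d)` compatible with `φ`, `N` and the Galois group. -/
structure PstPairing (d : ℤ) (A B Z : PstMod s) where
  map : A.V → B.V → Z.V
  map_left : ∀ (a : P) x x' y, map (a • x + x') y = a • map x y + map x' y
  map_right : ∀ (a : P) x y y', map x (a • y + y') = a • map x y + map x y'
  map_φ : ∀ x y, map (A.φ x) (B.φ y) = (s.p : P) ^ d • Z.φ (map x y)
  map_act : ∀ g x y, map (A.act g x) (B.act g y) = Z.act g (map x y)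
  map_N : ∀ x y, map (A.N x) y + map x (B.N y) = Z.N (map x y)

/-- The pairing is perfect. -/
def PstPairing.Perfect {d : ℤ} {A B Z : PstMod s} (β : PstPairing d A B Z) : Prop :=
  (∀ x, (∀ y, β.map x y = 0) → x = 0) ∧ ∀ y, (∀ x, β.map x y = 0) → y = 0

/-- The subspace `A ⊗ S` of `Z`, for a subspace `S` of `B`: the span of the `β(y, x)`, `x ∈ S`. -/
def PstPairing.tensor {d : ℤ} {A B Z : PstMod s} (β : PstPairing d A B Z) (S : Submodule P B.V) :
    Submodule P Z.V :=
  Submodule.span P {z | ∃ y, ∃ x ∈ S, β.map y x = z}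

/-- `(A ⊗ S)(j)` contains a nonzero vector fixed by `φ` and the Galois group. -/
def PstPairing.HasInvariant {d : ℤ} {A B Z : PstMod s} (β : PstPairing d A B Z)
    (S : Submodule P B.V) (j : ℤ) : Prop :=
  ∃ z ∈ β.tensor S, z ≠ 0 ∧ (∀ g, Z.act g z = z) ∧ Z.φ z = (s.p : P) ^ j • z

/-- A class of smooth proper varieties `X` closed under products, with the modules
`H^m(X) = D_pst(H^m_et(X, ℚ_p))`, exterior products, Poincaré duality and the action of
correspondences. -/
structure PstTheory [CharZero P] (s : PadicGroup P Γ) where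
  Obj : Type
  dim : Obj → ℕ
  prod : Obj → Obj → Obj
  dim_prod : ∀ X Y, dim (prod X Y) = dim X + dim Y
  H : Obj → ℤ → PstMod s
  /-- The eigenvalues of Frobenius are Weil numbers. -/
  mixed : ∀ X m, (H X m).toWD.IsMixed
  /-- The exterior product `H^m(X) ⊗ H^n(Y) → H^{m+n}(X × Y)`. -/
  ext : ∀ X m Y n, PstPairing 0 (H X m) (H Y n) (H (prod X Y) (m + n))
  /-- Poincaré duality `H^m(X) ⊗ H^{m'}(X) → P(-d)`, `m + m' = 2 d`, `d = dim X`. -/
  pair : ∀ X (m m' : ℤ), m + m' = 2 * (dim X : ℤ) →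
    PstPairing (dim X) (H X m) (H X m') (PstMod.unit s)
  perfect : ∀ X m m' h, (pair X m m' h).Perfect
  /-- A class `z` in `H^{m+n}(X × Y)` acts as a correspondence and maps a class `x'` in `H^{m'}(X)`,
  `m + m' = 2 d`, `d = dim X`, to a class in `H^n(Y)(-d)`, the direct image of `z ∪ x'` (up to a sign
  which depends on `n` and `m'` only). -/
  act : ∀ X (m m' : ℤ) Y (n : ℤ), m + m' = 2 * (dim X : ℤ) →
    PstPairing (dim X) (H (prod X Y) (m + n)) (H X m') (H Y n)
  act_ext : ∀ X m m' Y n h x y x', (act X m m' Y n h).map ((ext X m Y n).map x y) x' =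
    ((pair X m m' h).map x x' : P) • y

/-- Every nonzero stable subspace `S` of the part of weight `a` of `H^m(X)` is related to an
object `Y` with potentially good reduction: `N = 0` on `H^n(Y)`, and there is a nonzero element
fixed by `φ` and the Galois group in `H^n(Y) ⊗ S(j)`, where `2 j = a + n`. -/
def PstTheory.GoodPartners [CharZero P] (C : PstTheory s) : Prop :=
  ∀ X m (a : ℤ) (S : Submodule P (C.H X m).V), (C.H X m).IsPart a S →
    ∃ (Y : C.Obj) (n j : ℤ), a + n = 2 * j ∧ (∀ y, (C.H Y n).N y = 0) ∧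
      (C.ext Y n X m).HasInvariant S j

/-- The cohomology of a class of varieties which contains a Tate curve `E` and enough varieties with
potentially good reduction. The classes `1`, `e0`, `e1`, `pt` in the cohomology of `E` are in degree
`0`, `1`, `1` and `2`. -/
structure PstCohomology [CharZero P] (s : PadicGroup P Γ) extends PstTheory s where
  good : toPstTheory.GoodPartners
  E : Obj
  dim_E : dim E = 1
  one : (H E 0).V
  e0 : (H E 1).V
  e1 : (H E 1).V
  pt : (H E 2).V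
  one_ne : one ≠ 0
  e0_ne : e0 ≠ 0
  pt_ne : pt ≠ 0
  one_crys : (H E 0).IsCrys 0 one
  e0_crys : (H E 1).IsCrys 0 e0
  φ_e1 : (H E 1).φ e1 = (s.p : P) • e1
  act_e1 : ∀ g, (H E 1).act g e1 = e1
  N_e1 : (H E 1).N e1 = e0
  pt_crys : (H E 2).IsCrys 1 pt

namespace PstCohomology

variable [CharZero P] (C : PstCohomology s)

/-- The `p`-adic weight-monodromy conjecture for all `X` and `m`. -/
def WeightMonodromy : Prop :=
  ∀ X m, (C.H X m).toWD.WeightMonodromy m

/-- `D_cris(V(r))^{φ = 1} = 0` for `V = H^m(X)`, for all `X` and all integers `m < 2 r`. -/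
def NoCrys : Prop :=
  ∀ X (m r : ℤ), m < 2 * r → ∀ v, (C.H X m).IsCrys r v → v = 0

/-- `D_cris(V(r))^{φ = 1} = 0` for `V = H^n(X)`, for all `X` of odd dimension `n = 2 r - 1`. -/
def NoCentralCrys : Prop :=
  ∀ X (r : ℤ), (C.dim X : ℤ) + 1 = 2 * r → ∀ v, (C.H X (C.dim X)).IsCrys r v → v = 0

/-- For every `X` there is one exponent `e` with `1 ≤ e ≤ f(dim X)` such that for all `m` the map
`N ^ e` is injective on the part of weight `m + e` of `H^m(X)`. -/
def OneExponent (f : ℕ → ℕ) : Prop :=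
  ∀ X, ∃ e : ℕ, 1 ≤ e ∧ e ≤ f (C.dim X) ∧ ∀ m v, (C.H X m).toWD.HasWeight (m + e) v →
    (C.H X m).N^[e] v = 0 → v = 0

end PstCohomology

end Pool.Agent.Y129.WM
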