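import Pool.Agent.Y129.WM.PDefs
import Pool.Agent.Y129.WM.FMain

/-!
# The `p`-adic weight-monodromy conjecture
-/

open Module

set_option linter.unusedSectionVars false

namespace Pool.Agent.Y129.WM

open Pool.Agent.Y129.LT (weightSpace weightSpace_N_pow weightSpace_stable)

variable {P Γ : Type} [Field P] [CharZero P] [Group Γ]

section WD

variable {s : WeilGroup P Γ}

theorem WDRep.wm_iff (A : WDRep s) (hA : A.IsMixed) (m : ℤ) : A.WeightMonodromy m ↔
    ∀ e : ℕ, (A.toG hA).InjectiveAt m e ∧ (A.toG hA).SurjectiveAt m e := by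
  constructor
  · intro h e
    have h1 := h e
    refine ⟨fun x hx hN => ?_, fun y hy => ?_⟩
    · refine h1.injOn (WDRep.mem_W.1 hx) (WDRep.mem_W.1 (Submodule.zero_mem _)) ?_
      have h2 : A.N^[e] (0 : A.V) = 0 := by
        rw [A.N_iter]
        exact map_zero (A.n ^ e)
      exact Eq.trans (hN : A.N^[e] x = 0) h2.symm
    · obtain ⟨x, hx, hxy⟩ := h1.surjOn (WDRep.mem_W.1 hy)
      exact ⟨x, WDRep.mem_W.2 hx, hxy⟩
  · intro h k
    obtain ⟨h1, h2⟩ := h k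
    refine ⟨fun x hx => ?_, fun x hx x' hx' hxx => ?_, fun y hy => ?_⟩
    · have h3 := weightSpace_N_pow s.one_lt s.c_Fr A.n_rep (WDRep.mem_W.2 hx) k
      have h4 : m + (k : ℤ) - 2 * k = m - k := by ring
      rw [h4] at h3
      change A.HasWeight (m - k) (A.N^[k] x)
      rw [A.N_iter]
      exact WDRep.mem_W.1 h3
    · have h3 : x - x' ∈ A.W (m + k) :=
        Submodule.sub_mem _ (WDRep.mem_W.2 hx) (WDRep.mem_W.2 hx')
      have h4 : A.N^[k] (x - x') = 0 := by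
        change A.N^[k] x = A.N^[k] x' at hxx
        rw [A.N_iter] at hxx ⊢
        rw [A.N_iter] at hxx
        rw [map_sub, hxx, sub_self]
      exact sub_eq_zero.1 (h1 _ h3 h4)
    · obtain ⟨x, hx, hxy⟩ := h2 y (WDRep.mem_W.2 hy)
      exact ⟨x, WDRep.mem_W.1 hx, hxy⟩

theorem WDRep.W_stable {A : WDRep s} {w : ℤ} {x : A.V} (h : x ∈ A.W w) (g : Γ) :
    A.ρ g x ∈ A.W w := weightSpace_stable h g

theorem Pairing.map_smul_smul {d : ℤ} {A B Z : WDRep s} (β : Pairing d A B Z) (a b : P)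
    (x : A.V) (y : B.V) : β.map (a • x) (b • y) = (b * a) • β.map x y := by
  change β.lin (a • x) (b • y) = (b * a) • β.lin x y
  rw [map_smul, map_smul, LinearMap.smul_apply, smul_smul]

end WD

variable {s : PadicGroup P Γ}

theorem PadicGroup.c_eq (g : Γ) (r : ℤ) :
    ((s.weil.c g ^ r : Pˣ) : P) = (s.p : P) ^ (s.n g * r) := by
  change ((((Units.mk0 (s.p : P) s.p_ne) ^ (s.n g)) ^ r : Pˣ) : P) = _
  rw [← zpow_mul]
  push_cast
  rfl

namespace PstMod

variable (A : PstMod s)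

theorem φ_pow_zero (k : ℤ) : (A.φ ^ k) (0 : A.V) = 0 := by
  have h3 := A.φ_pow_lin k 1 0 0
  rw [smul_zero, add_zero, map_one, one_smul] at h3
  exact (add_eq_left.1 h3.symm)

theorem φ_pow_smul (k r : ℤ) (x : A.V) :
    (A.φ ^ k) ((s.p : P) ^ r • x) = (s.p : P) ^ r • (A.φ ^ k) x := by
  have h := A.φ_pow_lin k ((s.p : P) ^ r) x 0
  rwa [add_zero, A.φ_pow_zero, add_zero, map_zpow₀, map_natCast] at h

theorem act_zero (g : Γ) : A.act g (0 : A.V) = 0 := by
  have h3 := A.act_lin g 1 0 0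
  rw [smul_zero, add_zero, map_one, one_smul] at h3
  exact (add_eq_left.1 h3.symm)

theorem act_smul (g : Γ) (r : ℤ) (x : A.V) :
    A.act g ((s.p : P) ^ r • x) = (s.p : P) ^ r • A.act g x := by
  have h := A.act_lin g ((s.p : P) ^ r) x 0
  rwa [add_zero, A.act_zero, add_zero, map_zpow₀, map_natCast] at h

variable {A}

theorem φ_pow_of {r : ℤ} {v : A.V} (h : A.φ v = (s.p : P) ^ r • v) (k : ℤ) :
    (A.φ ^ k) v = (s.p : P) ^ (k * r) • v := by
  have hp : ∀ k : ℕ, (A.φ ^ (k : ℤ)) v = (s.p : P) ^ ((k : ℤ) * r) • v := by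
    intro k
    induction k with
    | zero => simp
    | succ k ih =>
      rw [Nat.cast_succ, zpow_add, Equiv.Perm.mul_apply, zpow_one, h, A.φ_pow_smul, ih, smul_smul,
        ← zpow_add₀ s.p_ne]
      congr 2
      ring
  rcases Int.eq_nat_or_neg k with ⟨n, rfl | rfl⟩
  · exact hp n
  · have h1 := congrArg (A.φ ^ (-(n : ℤ))) (hp n)
    rw [← Equiv.Perm.mul_apply, ← zpow_add, neg_add_cancel, zpow_zero, A.φ_pow_smul] at h1
    change v = _ at h1
    have h5 : (s.p : P) ^ (-(n : ℤ) * r) * (s.p : P) ^ ((n : ℤ) * r) = 1 := by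
      rw [← zpow_add₀ s.p_ne, neg_mul, neg_add_cancel, zpow_zero]
    have h6 := congrArg (fun z => (s.p : P) ^ (-(n : ℤ) * r) • z) h1
    simp only [smul_smul, h5, one_smul] at h6
    exact h6.symm

theorem IsCrys.inv {r : ℤ} {v : A.V} (h : A.IsCrys r v) : A.toWD.IsInvariant r v := by
  refine ⟨h.1, fun g => ?_⟩
  change A.act g ((A.φ ^ s.n g) v) = _
  rw [φ_pow_of h.2.2, A.act_smul, h.2.1, s.c_eq]
  rfl

theorem weight_φ {w : ℤ} {x : A.V} (h : x ∈ A.toWD.W w) : A.φ x ∈ A.toWD.W w := by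
  obtain ⟨Q, h0, h1, h2⟩ := WDRep.mem_W.1 h
  refine WDRep.mem_W.2 ⟨Q, h0, h1, fun g => ?_⟩
  have hρ : ∀ (g : Γ) x, A.ρ g (A.φ x) = A.φ (A.ρ g x) := by
    intro g x
    change A.act g ((A.φ ^ s.n g) (A.φ x)) = A.φ (A.act g ((A.φ ^ s.n g) x))
    rw [← A.act_φ]
    congr 1
    rw [← Equiv.Perm.mul_apply, ← Equiv.Perm.mul_apply, (Commute.refl A.φ).zpow_left]
  have hit : ∀ (i : ℕ) x, (A.ρ s.Fr)^[i] (A.φ x) = A.φ ((A.ρ s.Fr)^[i] x) := by
    intro i
    induction i with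
    | zero => intro x; rfl
    | succ i ih => intro x; rw [Function.iterate_succ_apply, hρ, ih, Function.iterate_succ_apply]
  have hadd : ∀ x y : A.V, A.φ (x + y) = A.φ x + A.φ y := by
    intro x y
    have h := A.φ_lin 1 x y
    rwa [map_one, one_smul, one_smul] at h
  have hφ0 : A.φ (0 : A.V) = 0 := by
    have h := hadd 0 0
    rw [add_zero] at h
    exact (add_eq_left.1 h.symm)
  have hsmul : ∀ (a : ℚ) (x : A.V), A.φ ((a : P) • x) = (a : P) • A.φ x := by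
    intro a x
    have h := A.φ_lin (a : P) x 0
    rwa [add_zero, hφ0, add_zero, map_ratCast] at h
  have hsum : A.toWD.frob Q (A.φ (A.ρ g x)) = A.φ (A.toWD.frob Q (A.ρ g x)) := by
    let Φ : A.V →+ A.V := ⟨⟨A.φ, hφ0⟩, hadd⟩
    change Q.sum (fun i a => (a : P) • (A.ρ s.Fr)^[i] (A.φ (A.ρ g x))) =
      Φ (Q.sum fun i a => (a : P) • (A.ρ s.Fr)^[i] (A.ρ g x))
    rw [Polynomial.sum, Polynomial.sum, map_sum]
    refine Finset.sum_congr rfl fun i _ => ?_
    rw [hit]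
    exact (hsmul _ _).symm
  change A.toWD.frob Q (A.ρ g (A.φ x)) = 0
  rw [hρ, hsum]
  have h3 : A.toWD.frob Q (A.ρ g x) = 0 := h2 g
  rw [h3]
  exact hφ0

theorem weight_act {w : ℤ} {x : A.V} (h : x ∈ A.toWD.W w) (g : Γ) : A.act g x ∈ A.toWD.W w := by
  have hpos : ∀ (k : ℕ) {x : A.V}, x ∈ A.toWD.W w → (A.φ ^ k) x ∈ A.toWD.W w := by
    intro k
    induction k with
    | zero => intro x hx; exact hx
    | succ k ih => intro x hx; rw [pow_succ, Equiv.Perm.mul_apply]; exact ih (weight_φ hx)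
  -- `φ` is surjective on the part of weight `w`
  have hneg1 : ∀ {x : A.V}, x ∈ A.toWD.W w → (A.φ⁻¹) x ∈ A.toWD.W w := by
    intro x hx
    obtain ⟨Q, h0, h1, h2⟩ := WDRep.mem_W.1 hx
    refine WDRep.mem_W.2 ⟨Q, h0, h1, fun g => ?_⟩
    have hadd : ∀ x y : A.V, A.φ (x + y) = A.φ x + A.φ y := by
      intro x y
      have h := A.φ_lin 1 x y
      rwa [map_one, one_smul, one_smul] at h
    have hφ0 : A.φ (0 : A.V) = 0 := by
      have h := hadd 0 0
      rw [add_zero] at h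
      exact (add_eq_left.1 h.symm)
    have hρ : ∀ (g : Γ) x, A.ρ g (A.φ x) = A.φ (A.ρ g x) := by
      intro g x
      change A.act g ((A.φ ^ s.n g) (A.φ x)) = A.φ (A.act g ((A.φ ^ s.n g) x))
      rw [← A.act_φ]
      congr 1
      rw [← Equiv.Perm.mul_apply, ← Equiv.Perm.mul_apply, (Commute.refl A.φ).zpow_left]
    have hit : ∀ (i : ℕ) x, (A.ρ s.Fr)^[i] (A.φ x) = A.φ ((A.ρ s.Fr)^[i] x) := by
      intro i
      induction i with
      | zero => intro x; rfl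
      | succ i ih => intro x; rw [Function.iterate_succ_apply, hρ, ih, Function.iterate_succ_apply]
    have hsmul : ∀ (a : ℚ) (x : A.V), A.φ ((a : P) • x) = (a : P) • A.φ x := by
      intro a x
      have h := A.φ_lin (a : P) x 0
      rwa [add_zero, hφ0, add_zero, map_ratCast] at h
    have hsum : ∀ y, A.toWD.frob Q (A.φ y) = A.φ (A.toWD.frob Q y) := by
      intro y
      let Φ : A.V →+ A.V := ⟨⟨A.φ, hφ0⟩, hadd⟩
      change Q.sum (fun i a => (a : P) • (A.ρ s.Fr)^[i] (A.φ y)) =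
        Φ (Q.sum fun i a => (a : P) • (A.ρ s.Fr)^[i] y)
      rw [Polynomial.sum, Polynomial.sum, map_sum]
      refine Finset.sum_congr rfl fun i _ => ?_
      rw [hit]
      exact (hsmul _ _).symm
    change A.toWD.frob Q (A.ρ g ((A.φ⁻¹) x)) = 0
    apply A.φ.injective
    rw [← hsum, ← hρ]
    have h4 : A.φ ((A.φ⁻¹) x) = x := A.φ.apply_symm_apply x
    rw [h4]
    exact (h2 g).trans hφ0.symm
  have hneg : ∀ (k : ℕ) {x : A.V}, x ∈ A.toWD.W w → ((A.φ⁻¹) ^ k) x ∈ A.toWD.W w := by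
    intro k
    induction k with
    | zero => intro x hx; exact hx
    | succ k ih => intro x hx; rw [pow_succ, Equiv.Perm.mul_apply]; exact ih (hneg1 hx)
  have h1 : A.act g x = A.ρ g ((A.φ ^ (-s.n g)) x) := by
    change _ = A.act g ((A.φ ^ s.n g) ((A.φ ^ (-s.n g)) x))
    rw [← Equiv.Perm.mul_apply, ← zpow_add, add_neg_cancel, zpow_zero]
    rfl
  have h2 : (A.φ ^ (-s.n g)) x ∈ A.toWD.W w := by
    rcases Int.eq_nat_or_neg (-s.n g) with ⟨n, h | h⟩
    · rw [h, zpow_natCast]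
      exact hpos n ‹_›
    · rw [h, zpow_neg, zpow_natCast, ← inv_pow]
      exact hneg n ‹_›
  rw [h1]
  exact WDRep.W_stable (A := A.toWD) h2 g

end PstMod

namespace PstPairing

variable {d : ℤ} {A B Z : PstMod s}

theorem map_φ_pow (β : PstPairing d A B Z) (k : ℤ) (x : A.V) (y : B.V) :
    β.map ((A.φ ^ k) x) ((B.φ ^ k) y) = (s.p : P) ^ (k * d) • (Z.φ ^ k) (β.map x y) := by
  have hp : ∀ (k : ℕ) x y, β.map ((A.φ ^ (k : ℤ)) x) ((B.φ ^ (k : ℤ)) y) =
      (s.p : P) ^ ((k : ℤ) * d) • (Z.φ ^ (k : ℤ)) (β.map x y) := by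
    intro k
    induction k with
    | zero => intro x y; simp
    | succ k ih =>
      intro x y
      rw [Nat.cast_succ, zpow_add, zpow_add, zpow_add, Equiv.Perm.mul_apply, Equiv.Perm.mul_apply,
        Equiv.Perm.mul_apply, zpow_one, zpow_one, zpow_one, ih, β.map_φ, Z.φ_pow_smul, smul_smul,
        ← zpow_add₀ s.p_ne]
      congr 2
      ring
  rcases Int.eq_nat_or_neg k with ⟨n, rfl | rfl⟩
  · exact hp n x y
  · have h1 := hp n ((A.φ ^ (-(n : ℤ))) x) ((B.φ ^ (-(n : ℤ))) y)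
    rw [← Equiv.Perm.mul_apply, ← Equiv.Perm.mul_apply, ← zpow_add, ← zpow_add, add_neg_cancel,
      zpow_zero, zpow_zero] at h1
    change β.map x y = _ at h1
    rw [h1, Z.φ_pow_smul, ← Equiv.Perm.mul_apply, ← zpow_add, neg_add_cancel, zpow_zero, smul_smul,
      ← zpow_add₀ s.p_ne, neg_mul, neg_add_cancel, zpow_zero, one_smul]
    rfl

/-- The pairing of the Weil-Deligne representations. -/
def toWD (β : PstPairing d A B Z) : Pairing d A.toWD B.toWD Z.toWD where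
  map := β.map
  map_left := β.map_left
  map_right := β.map_right
  map_ρ g x y := by
    change β.map (A.act g ((A.φ ^ s.n g) x)) (B.act g ((B.φ ^ s.n g) y)) =
      _ • Z.act g ((Z.φ ^ s.n g) (β.map x y))
    rw [β.map_act, β.map_φ_pow, Z.act_smul, s.c_eq]
    rfl
  map_N := β.map_N

theorem unit_φ_pow (k : ℤ) (z : P) : ((PstMod.unit s).φ ^ k) z = (s.σ ^ k : RingAut P) z := by
  have h : ((RingAut.toPerm P) s.σ) ^ k = (RingAut.toPerm P) (s.σ ^ k) := (map_zpow _ _ _).symm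
  exact congrArg (fun f : Equiv.Perm P => f z) h

theorem unit_ρ (g : Γ) (z : P) : (PstMod.unit s).ρ g z = z := by
  change (s.σ ^ (-s.n g) : RingAut P) (((PstMod.unit s).φ ^ s.n g) z) = z
  rw [unit_φ_pow, ← RingAut.mul_apply, ← zpow_add, neg_add_cancel, zpow_zero]
  rfl

def toWDUnit {A B : PstMod s} (β : PstPairing d A B (PstMod.unit s)) :
    Pairing d A.toWD B.toWD (WDRep.unit s.weil) where
  map := β.map
  map_left := β.map_left
  map_right := β.map_right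
  map_ρ g x y := by
    have h := β.toWD.map_ρ g x y
    refine h.trans ?_
    have h2 : (PstMod.unit s).toWD.ρ g (β.toWD.map x y) = β.map x y := unit_ρ g _
    rw [h2]
    rfl
  map_N := β.map_N

end PstPairing

def PstTheory.toTheory (C : PstTheory s) : Theory s.weil where
  Obj := C.Obj
  dim := C.dim
  prod := C.prod
  dim_prod := C.dim_prod
  H X m := (C.H X m).toWD
  mixed := C.mixed
  ext X m Y n := (C.ext X m Y n).toWD
  pair X m m' h := (C.pair X m m' h).toWDUnit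
  perfect X m m' h := C.perfect X m m' h
  act X m m' Y n h := (C.act X m m' Y n h).toWD
  act_ext X m m' Y n h x y x' := C.act_ext X m m' Y n h x y x'

namespace PstCohomology

def toG (C : PstCohomology s) : GCohomology P where
  toGTheory := C.toPstTheory.toTheory.toG
  E := C.E
  dim_E := C.dim_E
  one := C.one
  e0 := C.e0
  e1 := C.e1
  one_ne := C.one_ne
  e0_ne := C.e0_ne
  one_gr := by
    have h := WDRep.mem_W_tate C.one_crys.inv.2
    rwa [mul_zero] at h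
  e0_gr := by
    have h := WDRep.mem_W_tate C.e0_crys.inv.2
    rwa [mul_zero] at h
  e1_gr := by
    have h0 : (C.H C.E 1).toWD.HasTwist 1 C.e1 := by
      intro g
      change (C.H C.E 1).act g (((C.H C.E 1).φ ^ s.n g) C.e1) = _
      have h1 : (C.H C.E 1).φ C.e1 = (s.p : P) ^ (1 : ℤ) • C.e1 := by rw [zpow_one, C.φ_e1]
      rw [PstMod.φ_pow_of h1, PstMod.act_smul, C.act_e1, s.c_eq]
      rfl
    have h := WDRep.mem_W_tate h0
    rwa [mul_one] at h
  N_one := C.one_crys.1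
  N_e0 := C.e0_crys.1
  N_e1 := C.N_e1

variable {C : PstCohomology s}

theorem wm_iff : C.WeightMonodromy ↔ C.toG.WeightMonodromy :=
  ⟨fun h X m => (WDRep.wm_iff _ (C.mixed X m) m).1 (h X m),
    fun h X m => (WDRep.wm_iff _ (C.mixed X m) m).2 (h X m)⟩

theorem one_iff {f : ℕ → ℕ} : C.OneExponent f ↔ C.toG.OneInjective f := by
  constructor
  · intro h X
    obtain ⟨e, h1, h2, h3⟩ := h X
    exact ⟨e, h1, h2, fun m x hx hN => h3 m x (WDRep.mem_W.1 hx) hN⟩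
  · intro h X
    obtain ⟨e, h1, h2, h3⟩ := h X
    exact ⟨e, h1, h2, fun m x hx hN => h3 m x (WDRep.mem_W.2 hx) hN⟩

/-- There is a nonzero vector in `D_cris(V(r))^{φ = 1}`, `V = H^μ(Z)`. -/
def Inv (C : PstCohomology s) (Z : C.Obj) (μ r : ℤ) : Prop :=
  ∃ z : (C.H Z μ).V, z ≠ 0 ∧ (C.H Z μ).IsCrys r z

theorem Inv.ext {Y Z : C.Obj} {n μ r' r : ℤ} {y : (C.H Y n).V} (hy0 : y ≠ 0)
    (hy : (C.H Y n).IsCrys r' y) (h : C.Inv Z μ r) :
    C.Inv (C.prod Y Z) (n + μ) (r' + r) := by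
  obtain ⟨z, hz0, hz⟩ := h
  refine ⟨(C.ext Y n Z μ).map y z, C.toG.toGTheory.ext_ne (X := Y) (Y := Z) hy0 hz0, ?_,
    fun g => ?_, ?_⟩
  · rw [← (C.ext Y n Z μ).map_N, hy.1, hz.1]
    change (C.ext Y n Z μ).toWD.lin 0 z + (C.ext Y n Z μ).toWD.lin y 0 = 0
    rw [map_zero, map_zero, LinearMap.zero_apply, add_zero]
  · rw [← (C.ext Y n Z μ).map_act, hy.2.1, hz.2.1]
  · have h1 := (C.ext Y n Z μ).map_φ y z
    rw [zpow_zero, one_smul] at h1
    rw [← h1, hy.2.2, hz.2.2]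
    refine (Pairing.map_smul_smul (C.ext Y n Z μ).toWD ((s.p : P) ^ r') ((s.p : P) ^ r) y z).trans ?_
    rw [zpow_add₀ s.p_ne, mul_comm]
    rfl

/-- Products with a class in the cohomology of `E`. -/
theorem Inv.iter {n r' : ℤ} {y : (C.H C.E n).V} (hy0 : y ≠ 0)
    (hy : (C.H C.E n).IsCrys r' y) {Z : C.Obj} {μ r : ℤ} (h : C.Inv Z μ r) : ∀ k : ℕ,
    ∃ (Z' : C.Obj) (μ' ρ' : ℤ), C.dim Z' = k + C.dim Z ∧ μ' = μ + k * n ∧ ρ' = r + k * r' ∧
      C.Inv Z' μ' ρ'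
  | 0 => ⟨Z, μ, r, by simp, by simp, by simp, h⟩
  | k + 1 => by
    obtain ⟨Z', μ', ρ', h1, h2, h3, h4⟩ := Inv.iter hy0 hy h k
    refine ⟨C.prod C.E Z', n + μ', r' + ρ', ?_, ?_, ?_, Inv.ext hy0 hy h4⟩
    · rw [C.dim_prod, C.dim_E, h1]; ring
    · rw [h2]; push_cast; ring
    · rw [h3]; push_cast; ring

/-- An invariant below the middle gives an invariant in the middle degree at the central point. -/
theorem Inv.central {Z : C.Obj} {μ r : ℤ} (hμ : μ < 2 * r) (h : C.Inv Z μ r) :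
    ∃ (X : C.Obj) (r' : ℤ), (C.dim X : ℤ) + 1 = 2 * r' ∧ C.Inv X (C.dim X) r' := by
  obtain ⟨Z₁, μ₁, r₁, a1, a2, a3, h₁⟩ :=
    Inv.iter C.pt_ne C.pt_crys h ((C.dim Z : ℤ) - μ).toNat
  obtain ⟨Z₂, μ₂, r₂, b1, b2, b3, h₂⟩ :=
    Inv.iter C.e0_ne C.e0_crys h₁ (2 * r - 1 - μ).toNat
  obtain ⟨Z₃, μ₃, r₃, c1, c2, c3, h₃⟩ :=
    Inv.iter C.one_ne C.one_crys h₂ (μ - C.dim Z + ((C.dim Z : ℤ) - μ).toNat).toNat
  have hs : ((2 * r - 1 - μ).toNat : ℤ) = 2 * r - 1 - μ := Int.toNat_of_nonneg (by omega)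
  have hu : ((μ - C.dim Z + ((C.dim Z : ℤ) - μ).toNat).toNat : ℤ) =
      μ - C.dim Z + ((C.dim Z : ℤ) - μ).toNat :=
    Int.toNat_of_nonneg (by have := Int.self_le_toNat ((C.dim Z : ℤ) - μ); omega)
  set a := ((C.dim Z : ℤ) - μ).toNat with ha
  have hdim : (C.dim Z₃ : ℤ) = μ₃ := by
    rw [c1, b1, a1, c2, b2, a2]
    push_cast
    rw [hs, hu]
    ring
  have hr : μ₃ + 1 = 2 * r₃ := by
    rw [c2, b2, a2, c3, b3, a3, hs]
    ring
  refine ⟨Z₃, r₃, by rw [hdim]; exact hr, ?_⟩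
  rw [hdim]
  exact h₃

theorem central_iff : C.NoCentralCrys ↔ C.NoCrys := by
  constructor
  · intro h X m r hmr v hv
    by_contra hv0
    obtain ⟨Y, r', h1, z, hz0, hz⟩ := Inv.central hmr ⟨v, hv0, hv⟩
    exact hz0 (h Y r' h1 z hz)
  · intro h X r hr v hv
    exact h X _ r (by omega) v hv

theorem no_of_wm (h : C.WeightMonodromy) : C.NoCrys := by
  intro X m r hmr v hv
  have h1 : v ∈ (C.H X m).toWD.W (2 * r) := WDRep.mem_W_tate hv.inv.2
  obtain ⟨k, hk⟩ : ∃ k : ℕ, 2 * r = m + (k + 1 : ℕ) := ⟨(2 * r - m - 1).toNat, by omega⟩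
  rw [hk] at h1
  refine (wm_iff.1 h X m (k + 1)).1 v h1 ?_
  change (C.H X m).toWD.N^[k + 1] v = 0
  have h2 : (C.H X m).toWD.N v = 0 := hv.1
  rw [Function.iterate_succ_apply, h2, (C.H X m).toWD.N_iter, map_zero]

theorem kernel_of_no (h : C.NoCrys) : C.toG.KernelWeights := by
  intro X m w hw x hx hN
  by_contra hx0
  let S : Submodule P (C.H X m).V := LinearMap.ker (C.H X m).toWD.n ⊓ (C.H X m).toWD.W w
  have hsmul0 : ∀ (a : P), a • (0 : (C.H X m).V) = 0 := smul_zero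
  have hS : (C.H X m).IsPart w S := by
    refine ⟨?_, fun x hx => WDRep.mem_W.1 hx.2, fun x hx => ⟨?_, PstMod.weight_φ hx.2⟩,
      fun g x hx => ⟨?_, PstMod.weight_act hx.2 g⟩⟩
    · rw [Submodule.ne_bot_iff]
      exact ⟨x, ⟨hN, hx⟩, hx0⟩
    · change (C.H X m).N ((C.H X m).φ x) = 0
      have h1 : (C.H X m).N x = 0 := hx.1
      have h2 : (C.H X m).φ (0 : (C.H X m).V) = 0 := by
        have h3 := (C.H X m).φ_pow_zero 1
        rwa [zpow_one] at h3
      rw [(C.H X m).N_φ, h1, h2, hsmul0]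
    · change (C.H X m).N ((C.H X m).act g x) = 0
      have h1 : (C.H X m).N x = 0 := hx.1
      rw [(C.H X m).N_act, h1, (C.H X m).act_zero]
  obtain ⟨Y, n, j, hj, hY, z, hz, hz0, hz1, hz2⟩ := C.good X m w S hS
  refine hz0 (h (C.prod Y X) (n + m) j (by omega) z ⟨?_, hz1, hz2⟩)
  have hSN : ∀ x ∈ S, (C.H X m).toWD.n x = 0 := fun x hx => LinearMap.mem_ker.1 hx.1
  exact Cohomology.Pairing.n_tensor (C.ext Y n X m).toWD hY hSN hz

theorem main (C : PstCohomology s) {f : ℕ → ℕ} (hf : Sublinear f) :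
    (C.WeightMonodromy ↔ C.NoCrys) ∧ (C.WeightMonodromy ↔ C.NoCentralCrys) ∧
      (C.WeightMonodromy ↔ C.OneExponent f) := by
  have h1 : C.WeightMonodromy ↔ C.NoCrys :=
    ⟨no_of_wm, fun h => wm_iff.2 ((C.toG.main hf).2.2.2 (kernel_of_no h))⟩
  exact ⟨h1, h1.trans central_iff.symm, by rw [wm_iff, one_iff]; exact (C.toG.main hf).1⟩

end PstCohomology

end Pool.Agent.Y129.WM
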