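import Mathlib

/-!
# Polynomials whose roots are the products of the roots of two polynomials
-/

open Polynomial Module TensorProduct

namespace Pool.Agent.Y129.WM

/-- Two commuting endomorphisms of a complex vector space: an eigenvalue of the product is a product
of roots of polynomials which kill the factors. -/
theorem eigen_prod {T : Type} [AddCommGroup T] [Module ℂ T] [FiniteDimensional ℂ T]
    {f g : End ℂ T} (hfg : Commute f g) {P Q : ℚ[X]} (hP : aeval f (P.map (algebraMap ℚ ℂ)) = 0)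
    (hQ : aeval g (Q.map (algebraMap ℚ ℂ)) = 0) {γ : ℂ} (hγ : (f * g).HasEigenvalue γ) :
    ∃ α β : ℂ, aeval α P = 0 ∧ aeval β Q = 0 ∧ γ = α * β := by
  -- an eigenvector of `f` in the eigenspace of `f * g`
  let E := (f * g).eigenspace γ
  have hE : ∀ x ∈ E, f x ∈ E := by
    intro x hx
    rw [Module.End.mem_eigenspace_iff] at hx ⊢
    rw [Module.End.mul_apply, ← Module.End.mul_apply g f, ← hfg.eq, hx, map_smul]
  haveI : Nontrivial E := (Submodule.nontrivial_iff_ne_bot).2 hγ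
  obtain ⟨α, hα⟩ := Module.End.exists_eigenvalue (f.restrict hE)
  obtain ⟨⟨x, hxE⟩, hx⟩ := hα.exists_hasEigenvector
  have hx0 : x ≠ 0 := fun h => hx.2 (Subtype.ext h)
  have hfx : f x = α • x := congrArg Subtype.val hx.apply_eq_smul
  -- an eigenvector of `g` in the joint eigenspace
  let E' := E ⊓ f.eigenspace α
  have hE' : ∀ x ∈ E', g x ∈ E' := by
    rintro x ⟨h1, h2⟩
    have h1' := Module.End.mem_eigenspace_iff.1 h1
    have h2' := Module.End.mem_eigenspace_iff.1 h2
    refine ⟨?_, ?_⟩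
    · refine Module.End.mem_eigenspace_iff.2 ?_
      rw [hfg.eq, Module.End.mul_apply, ← Module.End.mul_apply f g, h1', map_smul]
    · refine Module.End.mem_eigenspace_iff.2 ?_
      rw [← Module.End.mul_apply, hfg.eq, Module.End.mul_apply, h2', map_smul]
  haveI : Nontrivial E' := (Submodule.nontrivial_iff_ne_bot).2 (by
    intro h
    have : x ∈ E' := ⟨hxE, Module.End.mem_eigenspace_iff.2 hfx⟩
    rw [h] at this
    exact hx0 this)
  obtain ⟨β, hβ⟩ := Module.End.exists_eigenvalue (g.restrict hE')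
  obtain ⟨⟨y, hyE⟩, hy⟩ := hβ.exists_hasEigenvector
  have hy0 : y ≠ 0 := fun h => hy.2 (Subtype.ext h)
  have hgy : g y = β • y := congrArg Subtype.val hy.apply_eq_smul
  have hfy : f y = α • y := Module.End.mem_eigenspace_iff.1 hyE.2
  have hfgy : (f * g) y = γ • y := Module.End.mem_eigenspace_iff.1 hyE.1
  have key : ∀ {h : End ℂ T} {μ : ℂ} {S : ℚ[X]}, h y = μ • y →
      aeval h (S.map (algebraMap ℚ ℂ)) = 0 → aeval μ S = 0 := by
    intro h μ S h1 h2
    have h3 := congrArg (fun a : End ℂ T => a y) h2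
    have h4 : aeval h (S.map (algebraMap ℚ ℂ)) y = (S.map (algebraMap ℚ ℂ)).eval μ • y :=
      Module.End.aeval_apply_of_hasEigenvector ⟨Module.End.mem_eigenspace_iff.2 h1, hy0⟩
    have h5 : (S.map (algebraMap ℚ ℂ)).eval μ • y = 0 := by rw [← h4]; exact h3
    have h6 := (smul_eq_zero.1 h5).resolve_right hy0
    rwa [eval_map_algebraMap] at h6
  refine ⟨α, β, key hfy hP, key hgy hQ, ?_⟩
  have h1 : (γ - α * β) • y = 0 := by
    rw [sub_smul, ← hfgy, Module.End.mul_apply, hgy, map_smul, hfy, smul_smul, mul_comm β α,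
      sub_self]
  exact sub_eq_zero.1 ((smul_eq_zero.1 h1).resolve_right hy0)

/-- The base change of endomorphisms to the complex numbers. -/
noncomputable def bc (T : Type) [AddCommGroup T] [Module ℚ T] :
    End ℚ T →+* End ℂ (ℂ ⊗[ℚ] T) where
  toFun f := f.baseChange ℂ
  map_one' := LinearMap.baseChange_id
  map_mul' f g := LinearMap.baseChange_comp g f
  map_zero' := LinearMap.baseChange_zero
  map_add' f g := LinearMap.baseChange_add f g

theorem bc_aeval (T : Type) [AddCommGroup T] [Module ℚ T] (f : End ℚ T) (S : ℚ[X]) :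
    aeval (bc T f) (S.map (algebraMap ℚ ℂ)) = bc T (aeval f S) :=
  (Polynomial.map_aeval_eq_aeval_map (Subsingleton.elim _ _) S f).symm

theorem prod_poly {P Q : ℚ[X]} (hP : P ≠ 0) (hQ : Q ≠ 0) : ∃ R : ℚ[X], R ≠ 0 ∧
    (∀ γ : ℂ, aeval γ R = 0 → ∃ α β : ℂ, aeval α P = 0 ∧ aeval β Q = 0 ∧ γ = α * β) ∧
    aeval ((AdjoinRoot.root P) ⊗ₜ[ℚ] (AdjoinRoot.root Q)) R = 0 := by
  haveI : Module.Finite ℚ (AdjoinRoot P) := (AdjoinRoot.powerBasis hP).finite
  haveI : Module.Finite ℚ (AdjoinRoot Q) := (AdjoinRoot.powerBasis hQ).finite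
  let T := AdjoinRoot P ⊗[ℚ] AdjoinRoot Q
  let x : T := (AdjoinRoot.root P) ⊗ₜ[ℚ] 1
  let y : T := 1 ⊗ₜ[ℚ] (AdjoinRoot.root Q)
  let u : T := (AdjoinRoot.root P) ⊗ₜ[ℚ] (AdjoinRoot.root Q)
  have hu : u = x * y := by
    change _ = ((AdjoinRoot.root P) ⊗ₜ[ℚ] 1) * (1 ⊗ₜ[ℚ] (AdjoinRoot.root Q))
    rw [Algebra.TensorProduct.tmul_mul_tmul, mul_one, one_mul]
  have hx : aeval x P = 0 := by
    have h1 : x = (Algebra.TensorProduct.includeLeft : AdjoinRoot P →ₐ[ℚ] T) (AdjoinRoot.root P) := rfl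
    rw [h1, aeval_algHom_apply]
    have h2 : aeval (AdjoinRoot.root P) P = 0 := by
      rw [AdjoinRoot.aeval_eq, AdjoinRoot.mk_self]
    rw [h2, map_zero]
  have hy : aeval y Q = 0 := by
    have h1 : y = (Algebra.TensorProduct.includeRight : AdjoinRoot Q →ₐ[ℚ] T) (AdjoinRoot.root Q) := rfl
    rw [h1, aeval_algHom_apply]
    have h2 : aeval (AdjoinRoot.root Q) Q = 0 := by
      rw [AdjoinRoot.aeval_eq, AdjoinRoot.mk_self]
    rw [h2, map_zero]
  let m : T →ₐ[ℚ] End ℚ T := Algebra.lmul ℚ T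
  let R := (m u).charpoly
  have hR : aeval (m u) R = 0 := LinearMap.aeval_self_charpoly (m u)
  refine ⟨R, (LinearMap.charpoly_monic _).ne_zero, fun γ hγ => ?_, ?_⟩
  · -- base change to the complex numbers
    have h1 : bc T (m u) = bc T (m x) * bc T (m y) := by rw [← map_mul, ← map_mul, hu]
    have hc : Commute (bc T (m x)) (bc T (m y)) := by
      rw [Commute, SemiconjBy, ← map_mul, ← map_mul, ← map_mul, ← map_mul, mul_comm]
    refine eigen_prod hc (P := P) (Q := Q) ?_ ?_ (γ := γ) ?_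
    · rw [bc_aeval, aeval_algHom_apply, hx, map_zero, map_zero]
    · rw [bc_aeval, aeval_algHom_apply, hy, map_zero, map_zero]
    · rw [← h1, Module.End.hasEigenvalue_iff_isRoot_charpoly]
      change (((m u).baseChange ℂ).charpoly).IsRoot γ
      rw [LinearMap.charpoly_baseChange, IsRoot, eval_map_algebraMap]
      exact hγ
  · have h1 : m (aeval u R) = 0 := by rw [← aeval_algHom_apply]; exact hR
    have h2 := congrArg (fun f : End ℚ T => f 1) h1
    have h3 : aeval u R * 1 = 0 := h2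
    rwa [mul_one] at h3

/-- Commuting operators `A`, `B`, a vector `z` killed by `P(A)` and `Q(B)`: then `R(A B)` kills
`z`. -/
theorem kill_prod {K U : Type} [Field K] [CharZero K] [AddCommGroup U] [Module K U]
    {P Q R : ℚ[X]} (hR : aeval ((AdjoinRoot.root P) ⊗ₜ[ℚ] (AdjoinRoot.root Q)) R = 0)
    {A B : End K U} (hAB : Commute A B) {z : U}
    (hP : aeval A (P.map (algebraMap ℚ K)) z = 0) (hQ : aeval B (Q.map (algebraMap ℚ K)) z = 0) :
    aeval (A * B) (R.map (algebraMap ℚ K)) z = 0 := by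
  letI : Algebra ℚ (End K U) := ((algebraMap K (End K U)).comp (algebraMap ℚ K)).toAlgebra'
    (fun c x => Algebra.commutes (algebraMap ℚ K c) x)
  haveI : IsScalarTower ℚ K (End K U) := IsScalarTower.of_algebraMap_eq fun _ => rfl
  have hm : ∀ (f : End K U) (S : ℚ[X]), aeval f (S.map (algebraMap ℚ K)) = aeval f S :=
    fun f S => aeval_map_algebraMap K f S
  rw [hm] at hP hQ ⊢
  have hcomm : ∀ a ∈ ({A, B} : Set (End K U)), ∀ b ∈ ({A, B} : Set (End K U)), a * b = b * a := by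
    rintro a (rfl | rfl) b (rfl | rfl)
    · rfl
    · exact hAB.eq
    · exact hAB.eq.symm
    · rfl
  let 𝒜 := Algebra.adjoin ℚ ({A, B} : Set (End K U))
  letI : CommRing 𝒜 := Algebra.adjoinCommRingOfComm ℚ hcomm
  let a : 𝒜 := ⟨A, Algebra.subset_adjoin (Set.mem_insert _ _)⟩
  let b : 𝒜 := ⟨B, Algebra.subset_adjoin (Set.mem_insert_of_mem _ rfl)⟩
  let I : Ideal 𝒜 :=
    { carrier := {s | (s : End K U) z = 0}
      zero_mem' := rfl
      add_mem' := by
        intro s t hs ht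
        change ((s : End K U) + (t : End K U)) z = 0
        rw [LinearMap.add_apply]
        change (s : End K U) z = 0 at hs
        change (t : End K U) z = 0 at ht
        rw [hs, ht, add_zero]
      smul_mem' := by
        intro s t ht
        change ((s : End K U) * (t : End K U)) z = 0
        change (t : End K U) z = 0 at ht
        rw [Module.End.mul_apply, ht, map_zero] }
  have hI : ∀ (s : 𝒜) (S : ℚ[X]), aeval s S ∈ I ↔ aeval (s : End K U) S z = 0 := by
    intro s S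
    change ((aeval s S : 𝒜) : End K U) z = 0 ↔ _
    have : ((aeval s S : 𝒜) : End K U) = aeval (s : End K U) S :=
      (aeval_algHom_apply 𝒜.val s S).symm
    rw [this]
  have h1 : aeval (Ideal.Quotient.mkₐ ℚ I a) P = 0 := by
    rw [aeval_algHom_apply]
    exact Ideal.Quotient.eq_zero_iff_mem.2 ((hI a P).2 hP)
  have h2 : aeval (Ideal.Quotient.mkₐ ℚ I b) Q = 0 := by
    rw [aeval_algHom_apply]
    exact Ideal.Quotient.eq_zero_iff_mem.2 ((hI b Q).2 hQ)
  let f1 : AdjoinRoot P →ₐ[ℚ] 𝒜 ⧸ I := AdjoinRoot.liftAlgHom P (Algebra.ofId ℚ _) _ h1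
  let f2 : AdjoinRoot Q →ₐ[ℚ] 𝒜 ⧸ I := AdjoinRoot.liftAlgHom Q (Algebra.ofId ℚ _) _ h2
  let f := Algebra.TensorProduct.productMap f1 f2
  have h3 : f ((AdjoinRoot.root P) ⊗ₜ[ℚ] (AdjoinRoot.root Q)) = Ideal.Quotient.mkₐ ℚ I (a * b) := by
    rw [Algebra.TensorProduct.productMap_apply_tmul, map_mul]
    congr 1
    · exact AdjoinRoot.liftAlgHom_root _ _ _ _
    · exact AdjoinRoot.liftAlgHom_root _ _ _ _
  have h4 : aeval (Ideal.Quotient.mkₐ ℚ I (a * b)) R = 0 := by
    rw [← h3, aeval_algHom_apply, hR, map_zero]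
  rw [aeval_algHom_apply] at h4
  exact (hI (a * b) R).1 (Ideal.Quotient.eq_zero_iff_mem.1 h4)

end Pool.Agent.Y129.WM
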