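import Pool.Agent.Y129.WM.FDefs

/-!
# Cohomology theories with the formula of Künneth, and the products of one space with Tate curves and
with abelian varieties with good reduction: definitions
-/

namespace Pool.Agent.Y129.WM

/-- A class of smooth proper spaces `X` closed under products, with their cohomology groups
`H^m(X)`, exterior products, Poincaré duality and the action of correspondences. -/
structure FullTheory {K Γ : Type} [Field K] [Group Γ] (s : WeilGroup K Γ) where
  Obj : Type
  dim : Obj → ℕ
  prod : Obj → Obj → Obj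
  dim_prod : ∀ X Y, dim (prod X Y) = dim X + dim Y
  /-- The cohomology groups `H^m(X)`. -/
  H : Obj → ℤ → WDRep s
  /-- The eigenvalues of Frobenius are Weil numbers of integral weights. -/
  mixed : ∀ X m, (H X m).IsMixed
  /-- The exterior product `H^m(X) ⊗ H^n(Y) → H^{m+n}(X × Y)`. -/
  ext : ∀ X m Y n, Pairing 0 (H X m) (H Y n) (H (prod X Y) (m + n))
  /-- Poincaré duality `H^m(X) ⊗ H^{m'}(X) → K(-d)`, `m + m' = 2 d`, `d = dim X`. -/
  pair : ∀ X (m m' : ℤ), m + m' = 2 * (dim X : ℤ) →
    Pairing (dim X) (H X m) (H X m') (WDRep.unit s)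
  perfect : ∀ X m m' h, (pair X m m' h).Perfect
  /-- A class `z` in `H^t(X × Y)` acts as a correspondence and maps a class `x'` in `H^{m'}(X)`,
  `m + m' = 2 d`, `d = dim X`, to a class in `H^n(Y)(-d)`, `t = m + n`: the direct image of
  `z ∪ x'` (up to a sign which depends on `n` and `m'` only). -/
  act : ∀ X (m m' : ℤ) Y (n t : ℤ), m + m' = 2 * (dim X : ℤ) → t = m + n →
    Pairing (dim X) (H (prod X Y) t) (H X m') (H Y n)
  act_ext : ∀ X m m' Y n h x y x', (act X m m' Y n (m + n) h rfl).map ((ext X m Y n).map x y) x' =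
    ((pair X m m' h).map x x' : K) • y
  /-- A class on `X × Y` which acts as zero is zero (the formula of Künneth and Poincaré
  duality). -/
  detect : ∀ X Y t (z : (H (prod X Y) t).V),
    (∀ m m' n h ht x', (act X m m' Y n t h ht).map z x' = 0) → z = 0

/-- A Tate curve `E` in a theory `T`, with the classes `1`, `e0`, `e1`, `pt` of degree `0`, `1`, `1`
and `2` in its cohomology. -/
structure TateCurve {K Γ : Type} [Field K] [Group Γ] {s : WeilGroup K Γ} (T : FullTheory s) where
  E : T.Obj
  dim_E : T.dim E = 1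
  one : (T.H E 0).V
  e0 : (T.H E 1).V
  e1 : (T.H E 1).V
  pt : (T.H E 2).V
  one_ne : one ≠ 0
  e0_ne : e0 ≠ 0
  pt_ne : pt ≠ 0
  one_inv : (T.H E 0).IsInvariant 0 one
  e0_inv : (T.H E 1).IsInvariant 0 e0
  e1_twist : (T.H E 1).HasTwist 1 e1
  N_e1 : (T.H E 1).N e1 = e0
  pt_inv : (T.H E 2).IsInvariant 1 pt

/-- The vectors in `S` span `V`. -/
def WDRep.SpannedBy {K Γ : Type} [Field K] [Group Γ] {s : WeilGroup K Γ} (A : WDRep s)
    (S : Set A.V) : Prop :=
  Submodule.span K S = ⊤

/-- The classes `1`, `e0`, `e1`, `pt` span the cohomology of `E`. -/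
def TateCurve.Span {K Γ : Type} [Field K] [Group Γ] {s : WeilGroup K Γ} {T : FullTheory s}
    (t : TateCurve T) : Prop :=
  (T.H t.E 0).SpannedBy {t.one} ∧ (T.H t.E 1).SpannedBy {t.e0, t.e1} ∧
    (T.H t.E 2).SpannedBy {t.pt} ∧ ∀ n : ℤ, n ≠ 0 → n ≠ 1 → n ≠ 2 → (T.H t.E n).SpannedBy ∅

/-- `Good` is a class of spaces with potentially good reduction. -/
def FullTheory.GoodReduction {K Γ : Type} [Field K] [Group Γ] {s : WeilGroup K Γ}
    (T : FullTheory s) (Good : T.Obj → Prop) : Prop :=
  ∀ Y, Good Y → ∀ n y, (T.H Y n).N y = 0 ∧ (T.H Y n).HasWeight n y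

/-- For every nonzero stable subspace `S` of the part of weight `a` of `H^m(X)` there is a nonzero
element invariant under `ρ` in `H^n(Y) ⊗ S(j)`, `2 j = a + n`, for some `Y` in `Good`. -/
def FullTheory.Partners {K Γ : Type} [Field K] [Group Γ] {s : WeilGroup K Γ}
    (T : FullTheory s) (Good : T.Obj → Prop) : Prop :=
  ∀ X m (a : ℤ) (S : Submodule K (T.H X m).V), (T.H X m).IsPart a S →
    ∃ (Y : T.Obj) (n j : ℤ), Good Y ∧ a + n = 2 * j ∧ (T.ext Y n X m).HasInvariant S j

/-- The cohomology of a class of smooth proper spaces which contains a Tate curve and the abelian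
varieties with potentially good reduction. -/
structure LocalCohomology {K Γ : Type} [Field K] [Group Γ] (s : WeilGroup K Γ) extends
    FullTheory s where
  /-- The Tate curve. -/
  tate : TateCurve toFullTheory
  tate_span : tate.Span
  /-- The abelian varieties with potentially good reduction. -/
  Good : Obj → Prop
  good : toFullTheory.GoodReduction Good
  partner : toFullTheory.Partners Good

namespace LocalCohomology

variable {K Γ : Type} [Field K] [Group Γ] {s : WeilGroup K Γ} (C : LocalCohomology s)

/-- The spaces `Y_1 × (Y_2 × ( ... × (Y_k × X)))`, where every factor `Y_i` is the Tate curve `E` or an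
abelian variety with potentially good reduction (`k ≥ 0`). -/
inductive Over (X : C.Obj) : C.Obj → Prop
  | base : Over X X
  | tate {Z : C.Obj} : Over X Z → Over X (C.prod C.tate.E Z)
  | good {Y Z : C.Obj} : C.Good Y → Over X Z → Over X (C.prod Y Z)

/-- The weight-monodromy conjecture for `X`: for all `m` and `k` the map `N ^ k` is a bijection from
the part of weight `m + k` of `H^m(X)` to the part of weight `m - k`. -/
def WeightMonodromy (X : C.Obj) : Prop :=
  ∀ m, (C.H X m).WeightMonodromy m

/-- For all `Z = Y_1 × ... × Y_k × X` and all integers `m < 2 r` there is no nonzero Galois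
invariant in `H^m(Z)(r)`. -/
def NoInvariants (X : C.Obj) : Prop :=
  ∀ Z, C.Over X Z → ∀ m r : ℤ, m < 2 * r → ∀ v, (C.H Z m).IsInvariant r v → v = 0

/-- For all `Z = Y_1 × ... × Y_k × X` of odd dimension `n = 2 r - 1` there is no nonzero Galois
invariant in `H^n(Z)(r)`: the Euler factor of the middle cohomology of `Z` has no pole at the central
point `r = (n + 1) / 2`. -/
def NoCentralInvariants (X : C.Obj) : Prop :=
  ∀ Z, C.Over X Z → ∀ r : ℤ, (C.dim Z : ℤ) + 1 = 2 * r →
    ∀ v, (C.H Z (C.dim Z)).IsInvariant r v → v = 0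

end LocalCohomology

end Pool.Agent.Y129.WM
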