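import Pool.Agent.Y129.WM.RDefs
import Pool.Agent.Y129.WM.FMain

/-!
# The weight-monodromy conjecture for one space and Galois invariants
-/

open Module

set_option linter.unusedSectionVars false

namespace Pool.Agent.Y129.WM

open Pool.Agent.Y129.LT (weightSpace weightSpace_indep weightSpace_N weightSpace_N_pow
  weightSpace_tate weight_orth)

variable {K Γ : Type} [Field K] [CharZero K] [Group Γ] {s : WeilGroup K Γ}

/-- The underlying theory. -/
def FullTheory.toTheory (C : FullTheory s) : Theory s where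
  Obj := C.Obj
  dim := C.dim
  prod := C.prod
  dim_prod := C.dim_prod
  H := C.H
  mixed := C.mixed
  ext := C.ext
  pair := C.pair
  perfect := C.perfect
  act X m m' Y n h := C.act X m m' Y n (m + n) h rfl
  act_ext X m m' Y n h x y x' := C.act_ext X m m' Y n h x y x'

/-- `N ^ k` is injective on the parts of weights at least `m + k`, `k ≥ 1`. -/
def WDRep.Inj (A : WDRep s) (m : ℤ) : Prop :=
  ∀ k : ℕ, 1 ≤ k → ∀ w : ℤ, m + k ≤ w → ∀ x ∈ A.W w, (A.n ^ k) x = 0 → x = 0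

theorem WDRep.inj_of_wm {A : WDRep s} {m : ℤ} (h : A.WeightMonodromy m) : A.Inj m := by
  intro k _ w hw x hx hN
  obtain ⟨j, hj⟩ : ∃ j : ℕ, w = m + j := ⟨(w - m).toNat, by omega⟩
  subst hj
  have hkj : k ≤ j := by omega
  refine (h j).injOn (WDRep.mem_W.1 hx) (WDRep.mem_W.1 (Submodule.zero_mem _)) ?_
  rw [A.N_iter, A.N_iter, map_zero]
  obtain ⟨i, rfl⟩ := Nat.exists_eq_add_of_le hkj
  rw [add_comm, pow_add, Module.End.mul_apply, hN, map_zero]

theorem Pairing.n_pow_left {d : ℤ} {A B Z : WDRep s} (β : Pairing d A B Z) {y : B.V}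
    (hy : B.n y = 0) (k : ℕ) (x : A.V) : (Z.n ^ k) (β.lin x y) = β.lin ((A.n ^ k) x) y := by
  induction k with
  | zero => rfl
  | succ k ih =>
    have h := β.lin_n ((A.n ^ k) x) y
    rw [hy, map_zero, add_zero] at h
    rw [pow_succ', Module.End.mul_apply, ih, ← h, pow_succ', Module.End.mul_apply]

theorem Pairing.n_pow_right {d : ℤ} {A B Z : WDRep s} (β : Pairing d A B Z) {x : A.V}
    (hx : A.n x = 0) (k : ℕ) (y : B.V) : (Z.n ^ k) (β.lin x y) = β.lin x ((B.n ^ k) y) := by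
  induction k with
  | zero => rfl
  | succ k ih =>
    have h := β.lin_n x ((B.n ^ k) y)
    rw [hx, map_zero, LinearMap.zero_apply, zero_add] at h
    rw [pow_succ', Module.End.mul_apply, ih, ← h, pow_succ', Module.End.mul_apply]

/-- The powers of `N` on `act z e1`, where `N e1 = e0` and `N e0 = 0`. -/
theorem Pairing.n_pow_string {d : ℤ} {A B Z : WDRep s} (β : Pairing d A B Z) {e0 e1 : B.V}
    (h0 : B.n e0 = 0) (h1 : B.n e1 = e0) (k : ℕ) (z : A.V) :
    (Z.n ^ (k + 1)) (β.lin z e1) =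
      β.lin ((A.n ^ (k + 1)) z) e1 + ((k : K) + 1) • (Z.n ^ k) (β.lin z e0) := by
  induction k with
  | zero =>
    have h := β.lin_n z e1
    rw [h1] at h
    rw [zero_add, pow_one, pow_one, ← h, pow_zero, Module.End.one_apply, Nat.cast_zero, zero_add,
      one_smul]
  | succ k ih =>
    have h := β.lin_n ((A.n ^ (k + 1)) z) e1
    rw [h1] at h
    rw [pow_succ', Module.End.mul_apply, ih, map_add, map_smul, ← Module.End.mul_apply Z.n,
      ← pow_succ', ← h, ← Module.End.mul_apply A.n, ← pow_succ', ← β.n_pow_left h0 (k + 1) z,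
      add_assoc]
    congr 1
    push_cast
    rw [add_smul ((k : K) + 1) 1, one_smul]
    exact add_comm _ _

/-- The powers of `N` on `e1 × N x`, where `N e1 = e0` and `N e0 = 0`. -/
theorem Pairing.n_pow_string' {d : ℤ} {A B Z : WDRep s} (β : Pairing d A B Z) {e0 e1 : A.V}
    (h0 : A.n e0 = 0) (h1 : A.n e1 = e0) (k : ℕ) (x : B.V) :
    (Z.n ^ k) (β.lin e1 (B.n x)) =
      β.lin e1 ((B.n ^ (k + 1)) x) + (k : K) • β.lin e0 ((B.n ^ k) x) := by
  induction k with
  | zero =>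
    rw [pow_zero, Module.End.one_apply, zero_add, pow_one, Nat.cast_zero, zero_smul, add_zero]
  | succ k ih =>
    have h := β.lin_n e1 ((B.n ^ (k + 1)) x)
    rw [h1] at h
    have h' := β.lin_n e0 ((B.n ^ k) x)
    rw [h0, map_zero, LinearMap.zero_apply, zero_add] at h'
    rw [pow_succ', Module.End.mul_apply, ih, map_add, map_smul, ← h, ← h',
      ← Module.End.mul_apply B.n, ← Module.End.mul_apply B.n, ← pow_succ', ← pow_succ']
    push_cast
    rw [add_smul, one_smul]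
    abel

namespace LocalCohomology

/-- The Tate curve. -/
abbrev E (C : LocalCohomology s) : C.Obj := C.tate.E
abbrev one (C : LocalCohomology s) : (C.H C.E 0).V := C.tate.one
abbrev e0 (C : LocalCohomology s) : (C.H C.E 1).V := C.tate.e0
abbrev e1 (C : LocalCohomology s) : (C.H C.E 1).V := C.tate.e1
abbrev pt (C : LocalCohomology s) : (C.H C.E 2).V := C.tate.pt

variable {C : LocalCohomology s}

theorem mem_one {A : WDRep s} {a : A.V} (h : A.SpannedBy {a}) (y : A.V) : ∃ c : K, y = c • a := by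
  have h1 : y ∈ Submodule.span K {a} := by
    have h2 : Submodule.span K {a} = ⊤ := h
    rw [h2]; trivial
  obtain ⟨c, hc⟩ := Submodule.mem_span_singleton.1 h1
  exact ⟨c, hc.symm⟩

theorem mem_two {A : WDRep s} {a b : A.V} (h : A.SpannedBy {a, b}) (y : A.V) :
    ∃ c d : K, y = c • a + d • b := by
  have h1 : y ∈ Submodule.span K {a, b} := by
    have h2 : Submodule.span K {a, b} = ⊤ := h
    rw [h2]; trivial
  obtain ⟨c, d, hc⟩ := Submodule.mem_span_pair.1 h1
  exact ⟨c, d, hc.symm⟩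

theorem mem_none {A : WDRep s} (h : A.SpannedBy ∅) (y : A.V) : y = 0 := by
  have h1 : y ∈ Submodule.span K (∅ : Set A.V) := by
    have h2 : Submodule.span K (∅ : Set A.V) = ⊤ := h
    rw [h2]; trivial
  rwa [Submodule.span_empty, Submodule.mem_bot] at h1

theorem inj_iff (C : LocalCohomology s) (Z : C.Obj) (t : ℤ) (k : ℕ) :
    (∀ x ∈ (C.H Z t).W (t + k), ((C.H Z t).n ^ k) x = 0 → x = 0) ↔
      (C.toFullTheory.toTheory.toG.H Z t).InjectiveAt t k := by
  constructor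
  · intro h x hx hN
    refine h x hx ?_
    rw [← WDRep.N_iter]
    exact hN
  · intro h x hx hN
    refine h x hx ?_
    rw [← WDRep.N_iter] at hN
    exact hN

/-- Duality: surjectivity follows from injectivity. -/
theorem wm_of_inj {X : C.Obj}
    (h : ∀ (m : ℤ) (k : ℕ), ∀ x ∈ (C.H X m).W (m + k), ((C.H X m).n ^ k) x = 0 → x = 0) :
    C.WeightMonodromy X := by
  intro m k
  have h1 := (C.inj_iff X m k).1 (h m k)
  have h2 := (C.toFullTheory.toTheory.toG.injectiveAt_iff_dual X (2 * (C.dim X : ℤ) - m) m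
    (by change 2 * (C.dim X : ℤ) - m + m = 2 * (C.dim X : ℤ); ring) k).1
    ((C.inj_iff X _ k).1 (h _ k))
  refine ⟨fun x hx => ?_, fun x hx x' hx' hxx => ?_, fun y hy => ?_⟩
  · have h3 := weightSpace_N_pow s.one_lt s.c_Fr (C.H X m).n_rep (WDRep.mem_W.2 hx) k
    have h4 : m + (k : ℤ) - 2 * k = m - k := by ring
    rw [h4] at h3
    change (C.H X m).HasWeight (m - k) ((C.H X m).N^[k] x)
    rw [(C.H X m).N_iter]
    exact WDRep.mem_W.1 h3
  · have h3 : x - x' ∈ (C.H X m).W (m + k) :=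
      Submodule.sub_mem _ (WDRep.mem_W.2 hx) (WDRep.mem_W.2 hx')
    have h4 : ((C.H X m).n ^ k) (x - x') = 0 := by
      change (C.H X m).N^[k] x = (C.H X m).N^[k] x' at hxx
      rw [(C.H X m).N_iter, (C.H X m).N_iter] at hxx
      rw [map_sub, hxx, sub_self]
    exact sub_eq_zero.1 (h m k _ h3 h4)
  · obtain ⟨x, hx, hxy⟩ := h2 y (WDRep.mem_W.2 hy)
    exact ⟨x, WDRep.mem_W.1 hx, hxy⟩

/-- Products with abelian varieties with good reduction. -/
theorem inj_good {Y Z : C.Obj} (hY : C.Good Y) (h : ∀ t, (C.H Z t).Inj t) (t : ℤ) :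
    (C.H (C.prod Y Z) t).Inj t := by
  intro k hk w hw z hz hN
  refine C.detect Y Z t z fun m m' n hm ht x' => ?_
  have hx' : (C.H Y m').n x' = 0 := (C.good Y hY m' x').1
  have hxw : x' ∈ (C.H Y m').W m' := WDRep.mem_W.2 ((C.good Y hY m' x').2)
  have h1 := (C.act Y m m' Z n t hm ht).mem_W hz hxw
  refine h n k hk _ ?_ _ h1 ?_
  · omega
  · change ((C.H Z n).n ^ k) ((C.act Y m m' Z n t hm ht).lin z x') = 0
    rw [Pairing.n_pow_left _ hx', hN, map_zero, LinearMap.zero_apply]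

theorem n_e0 : (C.H C.E 1).n C.e0 = 0 := C.tate.e0_inv.1

theorem e0_mem : C.e0 ∈ (C.H C.E 1).W 0 := by
  have h := WDRep.mem_W_tate C.tate.e0_inv.2
  rwa [mul_zero] at h

theorem e1_mem : C.e1 ∈ (C.H C.E 1).W 2 := by
  have h := WDRep.mem_W_tate C.tate.e1_twist
  rwa [mul_one] at h

/-- Products with the Tate curve. -/
theorem inj_tate {Z : C.Obj} (h : ∀ t, (C.H Z t).Inj t) (t : ℤ) :
    (C.H (C.prod C.E Z) t).Inj t := by
  intro k hk w hw z hz hN
  refine C.detect C.E Z t z fun m m' n hm ht x' => ?_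
  change (C.act C.E m m' Z n t hm ht).lin z x' = 0
  rw [C.tate.dim_E] at hm
  have hd : ((C.dim C.E : ℕ) : ℤ) = 1 := by rw [C.tate.dim_E]; rfl
  by_cases h0 : m' = 0
  · subst h0
    obtain ⟨a, rfl⟩ := mem_one C.tate_span.1 x'
    have hone : C.one ∈ (C.H C.E 0).W 0 := by
      have h := WDRep.mem_W_tate C.tate.one_inv.2
      rwa [mul_zero] at h
    have h1 := (C.act C.E m 0 Z n t (by rw [C.tate.dim_E]; exact hm) ht).mem_W hz hone
    rw [map_smul]
    refine smul_eq_zero_of_right a (h n k hk _ ?_ _ h1 ?_)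
    · rw [hd]; push_cast at hm; omega
    · rw [Pairing.n_pow_left _ (show (C.H C.E 0).n C.one = 0 from C.tate.one_inv.1), hN, map_zero,
        LinearMap.zero_apply]
  by_cases h2 : m' = 2
  · subst h2
    obtain ⟨a, rfl⟩ := mem_one C.tate_span.2.2.1 x'
    have hpt : C.pt ∈ (C.H C.E 2).W (2 * 1) := WDRep.mem_W_tate C.tate.pt_inv.2
    have h1 := (C.act C.E m 2 Z n t (by rw [C.tate.dim_E]; exact hm) ht).mem_W hz hpt
    rw [map_smul]
    refine smul_eq_zero_of_right a (h n k hk _ ?_ _ h1 ?_)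
    · rw [hd]; push_cast at hm; omega
    · rw [Pairing.n_pow_left _ (show (C.H C.E 2).n C.pt = 0 from C.tate.pt_inv.1), hN, map_zero,
        LinearMap.zero_apply]
  by_cases h1 : m' = 1
  · subst h1
    have hm1 : m = 1 := by push_cast at hm; omega
    subst hm1
    obtain ⟨a, b, rfl⟩ := mem_two C.tate_span.2.1 x'
    set β := C.act C.E 1 1 Z n t (by rw [C.tate.dim_E]; exact hm) ht with hβ
    have hy := β.mem_W hz C.e0_mem
    have hx := β.mem_W hz C.e1_mem
    obtain ⟨j, rfl⟩ := Nat.exists_eq_add_of_le' hk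
    have e1 : ((C.H Z n).n ^ (j + 1)) (β.lin z C.e0) = 0 := by
      rw [β.n_pow_left C.n_e0, hN, map_zero, LinearMap.zero_apply]
    have e2 : ((C.H Z n).n ^ (j + 1)) (β.lin z C.e1) =
        ((j : K) + 1) • ((C.H Z n).n ^ j) (β.lin z C.e0) := by
      rw [β.n_pow_string C.n_e0 C.tate.N_e1 j z, hN, map_zero, LinearMap.zero_apply, zero_add]
    have e3 : β.lin z C.e1 = 0 := by
      refine h n (j + 2) (by omega) _ ?_ _ hx ?_
      · rw [hd]; push_cast at hw ⊢; omega
      · rw [pow_succ' _ (j + 1), Module.End.mul_apply, e2, map_smul, ← Module.End.mul_apply,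
          ← pow_succ', e1, smul_zero]
    have e4 : β.lin z C.e0 = 0 := by
      rw [e3, map_zero] at e2
      have hj : ((j : K) + 1) ≠ 0 := by exact_mod_cast Nat.succ_ne_zero j
      have e5 := (smul_eq_zero.1 e2.symm).resolve_left hj
      rcases Nat.eq_zero_or_pos j with rfl | hj0
      · rwa [pow_zero, Module.End.one_apply] at e5
      · refine h n j hj0 _ ?_ _ hy e5
        rw [hd]; push_cast at hw ⊢; omega
    change β.lin z (a • C.e0 + b • C.e1) = 0
    rw [map_add, map_smul, map_smul, e3, e4, smul_zero, smul_zero, add_zero]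
  · have h3 := mem_none (C.tate_span.2.2.2 m' h0 h1 h2) x'
    rw [h3, map_zero]

theorem inj_over {X Z : C.Obj} (hX : ∀ t, (C.H X t).Inj t) (h : C.Over X Z) :
    ∀ t, (C.H Z t).Inj t := by
  induction h with
  | base => exact hX
  | tate _ ih => exact inj_tate ih
  | good hY _ ih => exact inj_good hY ih

theorem no_of_wm {X : C.Obj} (h : C.WeightMonodromy X) : C.NoInvariants X := by
  intro Z hZ m r hmr v hv
  have h1 : v ∈ (C.H Z m).W (2 * r) := WDRep.mem_W_tate hv.2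
  refine inj_over (fun t => WDRep.inj_of_wm (h t)) hZ m 1 le_rfl (2 * r) ?_ v h1 ?_
  · push_cast; omega
  · rw [pow_one]
    exact hv.1

/-- Vectors of weight `t + k` killed by `N ^ k` give Galois invariants on products. -/
theorem inj_of_no {X : C.Obj} (h : C.NoInvariants X) : ∀ (k : ℕ), 1 ≤ k → ∀ Z, C.Over X Z →
    ∀ t : ℤ, ∀ x ∈ (C.H Z t).W (t + k), ((C.H Z t).n ^ k) x = 0 → x = 0 := by
  intro k hk
  induction k, hk using Nat.le_induction with
  | base =>
    intro Z hZ t x hx hN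
    by_contra hx0
    let S : Submodule K (C.H Z t).V := LinearMap.ker (C.H Z t).n ⊓ (C.H Z t).W (t + (1 : ℕ))
    have hS : (C.H Z t).IsPart (t + (1 : ℕ)) S := by
      refine ⟨?_, fun x hx => WDRep.mem_W.1 hx.2, fun g x hx => ⟨?_, ?_⟩⟩
      · rw [Submodule.ne_bot_iff]
        refine ⟨x, ⟨?_, hx⟩, hx0⟩
        rw [pow_one] at hN
        exact hN
      · change (C.H Z t).n ((C.H Z t).rep g x) = 0
        rw [(C.H Z t).n_rep, LinearMap.mem_ker.1 hx.1, map_zero, smul_zero]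
      · exact Pool.Agent.Y129.LT.weightSpace_stable hx.2 g
    obtain ⟨Y, n, j, hY, hj, z, hz, hz0, hzρ⟩ := C.partner Z t _ S hS
    refine hz0 (h (C.prod Y Z) (Over.good hY hZ) (n + t) j (by push_cast at hj; omega) z ⟨?_, hzρ⟩)
    have hSN : ∀ x ∈ S, (C.H Z t).n x = 0 := fun x hx => LinearMap.mem_ker.1 hx.1
    exact Cohomology.Pairing.n_tensor (C.ext Y n Z t) (fun y => (C.good Y hY n y).1) hSN hz
  | succ k hk ih =>
    intro Z hZ t x hx hN
    set β := C.ext C.E 1 Z t with hβ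
    have h0 : β.lin C.e0 x ∈ (C.H (C.prod C.E Z) (1 + t)).W ((1 + t) + k) := by
      have h1 := β.mem_W C.e0_mem hx
      have h2 : (0 : ℤ) + (t + (k + 1 : ℕ)) - 2 * 0 = (1 + t) + k := by push_cast; ring
      rwa [h2] at h1
    have hNx : (C.H Z t).n x ∈ (C.H Z t).W (t + (k + 1 : ℕ) - 2) :=
      weightSpace_N s.one_lt s.c_Fr (C.H Z t).n_rep hx
    have h1 : β.lin C.e1 ((C.H Z t).n x) ∈ (C.H (C.prod C.E Z) (1 + t)).W ((1 + t) + k) := by
      have h1 := β.mem_W C.e1_mem hNx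
      have h2 : (2 : ℤ) + (t + (k + 1 : ℕ) - 2) - 2 * 0 = (1 + t) + k := by push_cast; ring
      rwa [h2] at h1
    let u := (k : K) • β.lin C.e0 x - β.lin C.e1 ((C.H Z t).n x)
    have hu : u ∈ (C.H (C.prod C.E Z) (1 + t)).W ((1 + t) + k) :=
      Submodule.sub_mem _ (Submodule.smul_mem _ _ h0) h1
    have huN : ((C.H (C.prod C.E Z) (1 + t)).n ^ k) u = 0 := by
      rw [map_sub, map_smul, β.n_pow_right C.n_e0, β.n_pow_string' C.n_e0 C.tate.N_e1, hN, map_zero,
        zero_add, sub_self]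
    have hu0 : u = 0 := ih (C.prod C.E Z) (Over.tate hZ) (1 + t) u hu huN
    by_contra hx0
    obtain ⟨m', hm', e', he'⟩ := C.toFullTheory.toTheory.toG.exists_dual C.E 1 C.tate.e0_ne
    have h3 := congrArg (fun v => (C.act C.E 1 m' Z t (1 + t) hm' rfl).lin v e') hu0
    let p : (C.H C.E 1).V → K := fun x => (C.pair C.E 1 m' hm').map x e'
    have hp : p C.e0 ≠ 0 := he'
    have h4 : ∀ (x : (C.H C.E 1).V) (y : (C.H Z t).V),
        (C.act C.E 1 m' Z t (1 + t) hm' rfl).lin (β.lin x y) e' = p x • y := fun x y =>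
      C.act_ext C.E 1 m' Z t hm' x y e'
    simp only [u, map_sub, map_smul, LinearMap.sub_apply, LinearMap.smul_apply, h4, map_zero,
      LinearMap.zero_apply] at h3
    have h5 : ((k : K) * p C.e0) • x ∈
        (C.H Z t).W (t + (k + 1 : ℕ)) := Submodule.smul_mem _ _ hx
    have h6 : ((k : K) * p C.e0) • x ∈
        (C.H Z t).W (t + (k + 1 : ℕ) - 2) := by
      rw [mul_smul, sub_eq_zero.1 h3]
      exact Submodule.smul_mem _ _ hNx
    have h7 : Disjoint ((C.H Z t).W (t + (k + 1 : ℕ))) ((C.H Z t).W (t + (k + 1 : ℕ) - 2)) :=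
      (weightSpace_indep s.one_lt).pairwiseDisjoint (by omega)
    have h8 := (Submodule.disjoint_def.1 h7) _ h5 h6
    have hk0 : (k : K) ≠ 0 := by
      have : k ≠ 0 := by omega
      exact_mod_cast this
    exact (smul_ne_zero (mul_ne_zero hk0 hp) hx0) h8

theorem wm_iff_no (X : C.Obj) : C.WeightMonodromy X ↔ C.NoInvariants X := by
  refine ⟨no_of_wm, fun h => wm_of_inj fun m k x hx hN => ?_⟩
  rcases Nat.eq_zero_or_pos k with rfl | hk
  · rwa [pow_zero, Module.End.one_apply] at hN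
  · exact inj_of_no h k hk X Over.base m x hx hN

/-- There is a nonzero invariant in `H^μ(Z)(r)`. -/
def Inv (C : LocalCohomology s) (Z : C.Obj) (μ r : ℤ) : Prop :=
  ∃ z : (C.H Z μ).V, z ≠ 0 ∧ (C.H Z μ).IsInvariant r z

theorem Inv.ext {Y Z : C.Obj} {n μ r' r : ℤ} {y : (C.H Y n).V} (hy0 : y ≠ 0)
    (hy : (C.H Y n).IsInvariant r' y) (h : C.Inv Z μ r) :
    C.Inv (C.prod Y Z) (n + μ) (r' + r) := by
  obtain ⟨z, hz0, hz⟩ := h
  refine ⟨(C.ext Y n Z μ).map y z,
    C.toFullTheory.toTheory.toG.ext_ne (X := Y) (Y := Z) hy0 hz0, ?_, fun g => ?_⟩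
  · rw [← (C.ext Y n Z μ).map_N, hy.1, hz.1]
    change (C.ext Y n Z μ).lin 0 z + (C.ext Y n Z μ).lin y 0 = 0
    rw [map_zero, map_zero, LinearMap.zero_apply, add_zero]
  · have h1 := (C.ext Y n Z μ).lin_rep g y z
    rw [zpow_zero, Units.val_one, one_smul] at h1
    change (C.H (C.prod Y Z) (n + μ)).rep g ((C.ext Y n Z μ).lin y z) = _
    rw [← h1]
    have h2 : (C.H Y n).rep g y = ((s.c g ^ r' : Kˣ) : K) • y := hy.2 g
    have h3 : (C.H Z μ).rep g z = ((s.c g ^ r : Kˣ) : K) • z := hz.2 g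
    rw [h2, h3, map_smul, map_smul, LinearMap.smul_apply, smul_smul, zpow_add, Units.val_mul,
      mul_comm]
    rfl

/-- Products with a class in the cohomology of `E`. -/
theorem Inv.iter {n r' : ℤ} {y : (C.H C.E n).V} (hy0 : y ≠ 0)
    (hy : (C.H C.E n).IsInvariant r' y) {X Z : C.Obj} (hZ : C.Over X Z) {μ r : ℤ}
    (h : C.Inv Z μ r) : ∀ k : ℕ,
    ∃ (Z' : C.Obj) (μ' ρ' : ℤ), C.Over X Z' ∧ C.dim Z' = k + C.dim Z ∧ μ' = μ + k * n ∧
      ρ' = r + k * r' ∧ C.Inv Z' μ' ρ'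
  | 0 => ⟨Z, μ, r, hZ, by simp, by simp, by simp, h⟩
  | k + 1 => by
    obtain ⟨Z', μ', ρ', h0, h1, h2, h3, h4⟩ := Inv.iter hy0 hy hZ h k
    refine ⟨C.prod C.E Z', n + μ', r' + ρ', Over.tate h0, ?_, ?_, ?_, Inv.ext hy0 hy h4⟩
    · rw [C.dim_prod, C.tate.dim_E, h1]; ring
    · rw [h2]; push_cast; ring
    · rw [h3]; push_cast; ring

/-- An invariant below the middle gives an invariant in the middle degree at the central point. -/
theorem Inv.central {X Z : C.Obj} (hZ : C.Over X Z) {μ r : ℤ} (hμ : μ < 2 * r)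
    (h : C.Inv Z μ r) :
    ∃ (Z' : C.Obj) (r' : ℤ), C.Over X Z' ∧ (C.dim Z' : ℤ) + 1 = 2 * r' ∧
      C.Inv Z' (C.dim Z') r' := by
  obtain ⟨Z₁, μ₁, r₁, a0, a1, a2, a3, h₁⟩ :=
    Inv.iter C.tate.pt_ne C.tate.pt_inv hZ h ((C.dim Z : ℤ) - μ).toNat
  obtain ⟨Z₂, μ₂, r₂, b0, b1, b2, b3, h₂⟩ :=
    Inv.iter C.tate.e0_ne C.tate.e0_inv a0 h₁ (2 * r - 1 - μ).toNat
  obtain ⟨Z₃, μ₃, r₃, c0, c1, c2, c3, h₃⟩ :=
    Inv.iter C.tate.one_ne C.tate.one_inv b0 h₂ (μ - C.dim Z + ((C.dim Z : ℤ) - μ).toNat).toNat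
  have hs : ((2 * r - 1 - μ).toNat : ℤ) = 2 * r - 1 - μ := Int.toNat_of_nonneg (by omega)
  have hu : ((μ - C.dim Z + ((C.dim Z : ℤ) - μ).toNat).toNat : ℤ) =
      μ - C.dim Z + ((C.dim Z : ℤ) - μ).toNat :=
    Int.toNat_of_nonneg (by have := Int.self_le_toNat ((C.dim Z : ℤ) - μ); omega)
  set a := ((C.dim Z : ℤ) - μ).toNat with ha
  have hdim : (C.dim Z₃ : ℤ) = μ₃ := by
    rw [c1, b1, a1, c2, b2, a2]
    push_cast
    rw [hs, hu]
    ring
  have hr : μ₃ + 1 = 2 * r₃ := by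
    rw [c2, b2, a2, c3, b3, a3, hs]
    ring
  refine ⟨Z₃, r₃, c0, by rw [hdim]; exact hr, ?_⟩
  rw [hdim]
  exact h₃

theorem central_iff (X : C.Obj) : C.NoCentralInvariants X ↔ C.NoInvariants X := by
  constructor
  · intro h Z hZ m r hmr v hv
    by_contra hv0
    obtain ⟨Y, r', h0, h1, z, hz0, hz⟩ := Inv.central hZ hmr ⟨v, hv0, hv⟩
    exact hz0 (h Y h0 r' h1 z hz)
  · intro h Z hZ r hr v hv
    exact h Z hZ _ r (by omega) v hv

theorem main (C : LocalCohomology s) (X : C.Obj) :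
    (C.WeightMonodromy X ↔ C.NoInvariants X) ∧
      (C.WeightMonodromy X ↔ C.NoCentralInvariants X) :=
  ⟨wm_iff_no X, (wm_iff_no X).trans (central_iff X).symm⟩

end LocalCohomology

end Pool.Agent.Y129.WM
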