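import Pool.Agent.Y129.WM.PDefs

/-!
# One variety and its products with Tate curves and abelian varieties with good reduction: `p`-adic
cohomology

Definitions: the theories with the formula of Künneth with values in the modules `PstMod`.
-/

namespace Pool.Agent.Y129.WM

/-- A class of smooth proper varieties `X` closed under products, with the modules
`H^m(X) = D_pst(H^m_et(X, ℚ_p))`, exterior products, Poincaré duality and the action of
correspondences. -/
structure PstFullTheory {P Γ : Type} [Field P] [CharZero P] [Group Γ] (s : PadicGroup P Γ) where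
  Obj : Type
  dim : Obj → ℕ
  prod : Obj → Obj → Obj
  dim_prod : ∀ X Y, dim (prod X Y) = dim X + dim Y
  H : Obj → ℤ → PstMod s
  /-- The eigenvalues of Frobenius are Weil numbers of integral weights. -/
  mixed : ∀ X m, (H X m).toWD.IsMixed
  /-- The exterior product `H^m(X) ⊗ H^n(Y) → H^{m+n}(X × Y)`. -/
  ext : ∀ X m Y n, PstPairing 0 (H X m) (H Y n) (H (prod X Y) (m + n))
  /-- Poincaré duality `H^m(X) ⊗ H^{m'}(X) → P(-d)`, `m + m' = 2 d`, `d = dim X`. -/
  pair : ∀ X (m m' : ℤ), m + m' = 2 * (dim X : ℤ) →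
    PstPairing (dim X) (H X m) (H X m') (PstMod.unit s)
  perfect : ∀ X m m' h, (pair X m m' h).Perfect
  /-- A class `z` in `H^t(X × Y)` acts as a correspondence and maps a class `x'` in `H^{m'}(X)`,
  `m + m' = 2 d`, `d = dim X`, to a class in `H^n(Y)(-d)`, `t = m + n`: the direct image of
  `z ∪ x'` (up to a sign which depends on `n` and `m'` only). -/
  act : ∀ X (m m' : ℤ) Y (n t : ℤ), m + m' = 2 * (dim X : ℤ) → t = m + n →
    PstPairing (dim X) (H (prod X Y) t) (H X m') (H Y n)
  act_ext : ∀ X m m' Y n h x y x', (act X m m' Y n (m + n) h rfl).map ((ext X m Y n).map x y) x' =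
    ((pair X m m' h).map x x' : P) • y
  /-- A class on `X × Y` which acts as zero is zero (the formula of Künneth and Poincaré
  duality). -/
  detect : ∀ X Y t (z : (H (prod X Y) t).V),
    (∀ m m' n h ht x', (act X m m' Y n t h ht).map z x' = 0) → z = 0

/-- A Tate curve `E` in a theory `T`, with the classes `1`, `e0`, `e1`, `pt` of degree `0`, `1`, `1`
and `2` in its cohomology. -/
structure PstTate {P Γ : Type} [Field P] [CharZero P] [Group Γ] {s : PadicGroup P Γ}
    (T : PstFullTheory s) where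
  E : T.Obj
  dim_E : T.dim E = 1
  one : (T.H E 0).V
  e0 : (T.H E 1).V
  e1 : (T.H E 1).V
  pt : (T.H E 2).V
  one_ne : one ≠ 0
  e0_ne : e0 ≠ 0
  pt_ne : pt ≠ 0
  one_crys : (T.H E 0).IsCrys 0 one
  e0_crys : (T.H E 1).IsCrys 0 e0
  φ_e1 : (T.H E 1).φ e1 = (s.p : P) • e1
  act_e1 : ∀ g, (T.H E 1).act g e1 = e1
  N_e1 : (T.H E 1).N e1 = e0
  pt_crys : (T.H E 2).IsCrys 1 pt

/-- The vectors in `S` span `V` over `P`. -/
def PstMod.SpannedBy {P Γ : Type} [Field P] [Group Γ] {s : PadicGroup P Γ} (A : PstMod s)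
    (S : Set A.V) : Prop :=
  Submodule.span P S = ⊤

/-- The classes `1`, `e0`, `e1`, `pt` span the cohomology of `E`. -/
def PstTate.Span {P Γ : Type} [Field P] [CharZero P] [Group Γ] {s : PadicGroup P Γ}
    {T : PstFullTheory s} (t : PstTate T) : Prop :=
  (T.H t.E 0).SpannedBy {t.one} ∧ (T.H t.E 1).SpannedBy {t.e0, t.e1} ∧
    (T.H t.E 2).SpannedBy {t.pt} ∧ ∀ n : ℤ, n ≠ 0 → n ≠ 1 → n ≠ 2 → (T.H t.E n).SpannedBy ∅

/-- `Good` is a class of varieties with potentially good reduction. -/
def PstFullTheory.GoodReduction {P Γ : Type} [Field P] [CharZero P] [Group Γ]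
    {s : PadicGroup P Γ} (T : PstFullTheory s) (Good : T.Obj → Prop) : Prop :=
  ∀ Y, Good Y → ∀ n y, (T.H Y n).N y = 0 ∧ (T.H Y n).toWD.HasWeight n y

/-- For every nonzero subspace `S` of the part of weight `a` of `H^m(X)` which is stable under `φ` and
the Galois group there is a nonzero element of `H^n(Y) ⊗ S` which is fixed by the Galois group and on
which `φ` is multiplication by `p ^ j`, `2 j = a + n`, for some `Y` in `Good`. -/
def PstFullTheory.Partners {P Γ : Type} [Field P] [CharZero P] [Group Γ]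
    {s : PadicGroup P Γ} (T : PstFullTheory s) (Good : T.Obj → Prop) : Prop :=
  ∀ X m (a : ℤ) (S : Submodule P (T.H X m).V), (T.H X m).IsPart a S →
    ∃ (Y : T.Obj) (n j : ℤ), Good Y ∧ a + n = 2 * j ∧ (T.ext Y n X m).HasInvariant S j

/-- The weights of `H^m(X)` are at most `2 m` and at most `2 dim X`. -/
def PstFullTheory.WeightBound {P Γ : Type} [Field P] [CharZero P] [Group Γ]
    {s : PadicGroup P Γ} (T : PstFullTheory s) : Prop :=
  ∀ X m (w : ℤ) (v : (T.H X m).V), v ≠ 0 → (T.H X m).toWD.HasWeight w v →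
    w ≤ 2 * m ∧ w ≤ 2 * (T.dim X : ℤ)

/-- The cohomology of a class of smooth proper varieties which contains a Tate curve and the abelian
varieties with potentially good reduction. -/
structure PstLocal {P Γ : Type} [Field P] [CharZero P] [Group Γ] (s : PadicGroup P Γ) extends
    PstFullTheory s where
  /-- The Tate curve. -/
  tate : PstTate toPstFullTheory
  tate_span : tate.Span
  /-- The abelian varieties with potentially good reduction. -/
  Good : Obj → Prop
  good : toPstFullTheory.GoodReduction Good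
  partner : toPstFullTheory.Partners Good
  bound : toPstFullTheory.WeightBound

namespace PstLocal

variable {P Γ : Type} [Field P] [CharZero P] [Group Γ] {s : PadicGroup P Γ} (C : PstLocal s)

/-- The varieties `Y_1 × (Y_2 × ( ... × (Y_k × X)))`, where every factor `Y_i` is the Tate curve `E` or
an abelian variety with potentially good reduction (`k ≥ 0`). -/
inductive Over (X : C.Obj) : C.Obj → Prop
  | base : Over X X
  | tate {Z : C.Obj} : Over X Z → Over X (C.prod C.tate.E Z)
  | good {Y Z : C.Obj} : C.Good Y → Over X Z → Over X (C.prod Y Z)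

/-- The variety `E^k × X`. -/
def power (X : C.Obj) : ℕ → C.Obj
  | 0 => X
  | k + 1 => C.prod C.tate.E (power X k)

/-- The `p`-adic weight-monodromy conjecture for `X`: for all `m` and `k` the map `N ^ k` is a bijection
from the part of weight `m + k` of `H^m(X)` to the part of weight `m - k`. -/
def WeightMonodromy (X : C.Obj) : Prop :=
  ∀ m, (C.H X m).toWD.WeightMonodromy m

/-- `D_cris(V(r))^{φ = 1} = 0` for `V = H^m(Z)`, for all `Z = Y_1 × ... × Y_k × X` and all integers
`m < 2 r`. -/
def NoCrys (X : C.Obj) : Prop :=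
  ∀ Z, C.Over X Z → ∀ m r : ℤ, m < 2 * r → ∀ v, (C.H Z m).IsCrys r v → v = 0

/-- `D_cris(V(r))^{φ = 1} = 0` for `V = H^n(Z)`, for all `Z = Y_1 × ... × Y_k × X` of odd dimension
`n = 2 r - 1`. -/
def NoCentralCrys (X : C.Obj) : Prop :=
  ∀ Z, C.Over X Z → ∀ r : ℤ, (C.dim Z : ℤ) + 1 = 2 * r →
    ∀ v, (C.H Z (C.dim Z)).IsCrys r v → v = 0

/-- For all `m` the map `N ^ e` is injective on the part of weight `m + e` of `H^m(Z)`. -/
def InjectiveAt (Z : C.Obj) (e : ℕ) : Prop :=
  ∀ (m : ℤ) v, (C.H Z m).toWD.HasWeight (m + e) v → (C.H Z m).N^[e] v = 0 → v = 0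

/-- `D_cris(V(r))^{φ = 1} = 0` for `V = H^{2r-1}(Y × Z)`, for all abelian varieties `Y` with potentially
good reduction and all `r`. -/
def NoCrysOdd (Z : C.Obj) : Prop :=
  ∀ Y, C.Good Y → ∀ (r : ℤ) v, (C.H (C.prod Y Z) (2 * r - 1)).IsCrys r v → v = 0

end PstLocal

end Pool.Agent.Y129.WM
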