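import Pool.Agent.Y129.WM.SDefs
import Pool.Agent.Y129.WM.RMain
import Pool.Agent.Y129.WM.PMain

/-!
# The `p`-adic weight-monodromy conjecture for one variety
-/

open Module

set_option linter.unusedSectionVars false

namespace Pool.Agent.Y129.WM

open Pool.Agent.Y129.LT (weightSpace weightSpace_indep weightSpace_N weightSpace_N_pow
  weightSpace_tate weight_orth)

section WD

variable {K Γ : Type} [Field K] [CharZero K] [Group Γ] {s : WeilGroup K Γ}

namespace FullTheory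

variable {T : FullTheory s}

theorem wm_of_inj {X : T.Obj}
    (h : ∀ (m : ℤ) (k : ℕ), ∀ x ∈ (T.H X m).W (m + k), ((T.H X m).n ^ k) x = 0 → x = 0) (m : ℤ) :
    (T.H X m).WeightMonodromy m := by
  have hi : ∀ (t : ℤ) (k : ℕ), (T.toTheory.toG.H X t).InjectiveAt t k := by
    intro t k x hx hN
    refine h t k x hx ?_
    rw [← WDRep.N_iter]
    exact hN
  intro k
  have h2 := (T.toTheory.toG.injectiveAt_iff_dual X (2 * (T.dim X : ℤ) - m) m
    (by change 2 * (T.dim X : ℤ) - m + m = 2 * (T.dim X : ℤ); ring) k).1 (hi _ k)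
  refine ⟨fun x hx => ?_, fun x hx x' hx' hxx => ?_, fun y hy => ?_⟩
  · have h3 := weightSpace_N_pow s.one_lt s.c_Fr (T.H X m).n_rep (WDRep.mem_W.2 hx) k
    have h4 : m + (k : ℤ) - 2 * k = m - k := by ring
    rw [h4] at h3
    change (T.H X m).HasWeight (m - k) ((T.H X m).N^[k] x)
    rw [(T.H X m).N_iter]
    exact WDRep.mem_W.1 h3
  · have h3 : x - x' ∈ (T.H X m).W (m + k) :=
      Submodule.sub_mem _ (WDRep.mem_W.2 hx) (WDRep.mem_W.2 hx')
    have h4 : ((T.H X m).n ^ k) (x - x') = 0 := by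
      change (T.H X m).N^[k] x = (T.H X m).N^[k] x' at hxx
      rw [(T.H X m).N_iter, (T.H X m).N_iter] at hxx
      rw [map_sub, hxx, sub_self]
    exact sub_eq_zero.1 (h m k _ h3 h4)
  · obtain ⟨x, hx, hxy⟩ := h2 y (WDRep.mem_W.2 hy)
    exact ⟨x, WDRep.mem_W.1 hx, hxy⟩

/-- Products with varieties with good reduction. -/
theorem inj_good {Y Z : T.Obj} (hY : ∀ n y, (T.H Y n).N y = 0 ∧ (T.H Y n).HasWeight n y)
    (h : ∀ t, (T.H Z t).Inj t) (t : ℤ) : (T.H (T.prod Y Z) t).Inj t := by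
  intro k hk w hw z hz hN
  refine T.detect Y Z t z fun m m' n hm ht x' => ?_
  have hx' : (T.H Y m').n x' = 0 := (hY m' x').1
  have hxw : x' ∈ (T.H Y m').W m' := WDRep.mem_W.2 ((hY m' x').2)
  have h1 := (T.act Y m m' Z n t hm ht).mem_W hz hxw
  refine h n k hk _ ?_ _ h1 ?_
  · omega
  · change ((T.H Z n).n ^ k) ((T.act Y m m' Z n t hm ht).lin z x') = 0
    rw [Pairing.n_pow_left _ hx', hN, map_zero, LinearMap.zero_apply]

variable (τ : TateCurve T)

theorem e0_mem : τ.e0 ∈ (T.H τ.E 1).W 0 := by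
  have h := WDRep.mem_W_tate τ.e0_inv.2
  rwa [mul_zero] at h

theorem e1_mem : τ.e1 ∈ (T.H τ.E 1).W 2 := by
  have h := WDRep.mem_W_tate τ.e1_twist
  rwa [mul_one] at h

theorem one_mem : τ.one ∈ (T.H τ.E 0).W 0 := by
  have h := WDRep.mem_W_tate τ.one_inv.2
  rwa [mul_zero] at h

theorem n_e0 : (T.H τ.E 1).n τ.e0 = 0 := τ.e0_inv.1

variable {τ}

/-- Products with the Tate curve. -/
theorem inj_tate (hτ : τ.Span) {Z : T.Obj} (h : ∀ t, (T.H Z t).Inj t) (t : ℤ) :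
    (T.H (T.prod τ.E Z) t).Inj t := by
  intro k hk w hw z hz hN
  refine T.detect τ.E Z t z fun m m' n hm ht x' => ?_
  change (T.act τ.E m m' Z n t hm ht).lin z x' = 0
  rw [τ.dim_E] at hm
  have hd : ((T.dim τ.E : ℕ) : ℤ) = 1 := by rw [τ.dim_E]; rfl
  by_cases h0 : m' = 0
  · subst h0
    obtain ⟨a, rfl⟩ := LocalCohomology.mem_one hτ.1 x'
    have h1 := (T.act τ.E m 0 Z n t (by rw [τ.dim_E]; exact hm) ht).mem_W hz (one_mem τ)
    rw [map_smul]
    refine smul_eq_zero_of_right a (h n k hk _ ?_ _ h1 ?_)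
    · rw [hd]; push_cast at hm; omega
    · rw [Pairing.n_pow_left _ (show (T.H τ.E 0).n τ.one = 0 from τ.one_inv.1), hN, map_zero,
        LinearMap.zero_apply]
  by_cases h2 : m' = 2
  · subst h2
    obtain ⟨a, rfl⟩ := LocalCohomology.mem_one hτ.2.2.1 x'
    have hpt : τ.pt ∈ (T.H τ.E 2).W (2 * 1) := WDRep.mem_W_tate τ.pt_inv.2
    have h1 := (T.act τ.E m 2 Z n t (by rw [τ.dim_E]; exact hm) ht).mem_W hz hpt
    rw [map_smul]
    refine smul_eq_zero_of_right a (h n k hk _ ?_ _ h1 ?_)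
    · rw [hd]; push_cast at hm; omega
    · rw [Pairing.n_pow_left _ (show (T.H τ.E 2).n τ.pt = 0 from τ.pt_inv.1), hN, map_zero,
        LinearMap.zero_apply]
  by_cases h1 : m' = 1
  · subst h1
    have hm1 : m = 1 := by push_cast at hm; omega
    subst hm1
    obtain ⟨a, b, rfl⟩ := LocalCohomology.mem_two hτ.2.1 x'
    set β := T.act τ.E 1 1 Z n t (by rw [τ.dim_E]; exact hm) ht with hβ
    have hy := β.mem_W hz (e0_mem τ)
    have hx := β.mem_W hz (e1_mem τ)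
    obtain ⟨j, rfl⟩ := Nat.exists_eq_add_of_le' hk
    have e1 : ((T.H Z n).n ^ (j + 1)) (β.lin z τ.e0) = 0 := by
      rw [β.n_pow_left (n_e0 τ), hN, map_zero, LinearMap.zero_apply]
    have e2 : ((T.H Z n).n ^ (j + 1)) (β.lin z τ.e1) =
        ((j : K) + 1) • ((T.H Z n).n ^ j) (β.lin z τ.e0) := by
      rw [β.n_pow_string (n_e0 τ) τ.N_e1 j z, hN, map_zero, LinearMap.zero_apply, zero_add]
    have e3 : β.lin z τ.e1 = 0 := by
      refine h n (j + 2) (by omega) _ ?_ _ hx ?_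
      · rw [hd]; push_cast at hw ⊢; omega
      · rw [pow_succ' _ (j + 1), Module.End.mul_apply, e2, map_smul, ← Module.End.mul_apply,
          ← pow_succ', e1, smul_zero]
    have e4 : β.lin z τ.e0 = 0 := by
      rw [e3, map_zero] at e2
      have hj : ((j : K) + 1) ≠ 0 := by exact_mod_cast Nat.succ_ne_zero j
      have e5 := (smul_eq_zero.1 e2.symm).resolve_left hj
      rcases Nat.eq_zero_or_pos j with rfl | hj0
      · rwa [pow_zero, Module.End.one_apply] at e5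
      · refine h n j hj0 _ ?_ _ hy e5
        rw [hd]; push_cast at hw ⊢; omega
    change β.lin z (a • τ.e0 + b • τ.e1) = 0
    rw [map_add, map_smul, map_smul, e3, e4, smul_zero, smul_zero, add_zero]
  · have h3 := LocalCohomology.mem_none (hτ.2.2.2 m' h0 h1 h2) x'
    rw [h3, map_zero]

/-- There is a nonzero vector of weight `m + k` in some `H^m(Z)` killed by `N ^ k`. -/
def Fail (T : FullTheory s) (Z : T.Obj) (k : ℕ) : Prop :=
  ∃ (m : ℤ), ∃ x ∈ (T.H Z m).W (m + k), x ≠ 0 ∧ ((T.H Z m).n ^ k) x = 0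

variable (τ)

theorem Fail.same {Z : T.Obj} {k : ℕ} (h : T.Fail Z k) : T.Fail (T.prod τ.E Z) k := by
  obtain ⟨m, x, hx, hx0, hN⟩ := h
  refine ⟨0 + m, (T.ext τ.E 0 Z m).lin τ.one x, ?_,
    T.toTheory.toG.ext_ne (X := τ.E) (Y := Z) τ.one_ne hx0, ?_⟩
  · have h1 := (T.ext τ.E 0 Z m).mem_W (one_mem τ) hx
    have h2 : (0 : ℤ) + (m + k) - 2 * 0 = 0 + m + k := by ring
    rwa [h2] at h1
  · rw [Pairing.n_pow_right _ (show (T.H τ.E 0).n τ.one = 0 from τ.one_inv.1), hN, map_zero]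

theorem Fail.down {Z : T.Obj} {k : ℕ} (hk : 1 ≤ k) (h : T.Fail Z (k + 1)) :
    T.Fail (T.prod τ.E Z) k := by
  obtain ⟨t, x, hx, hx0, hN⟩ := h
  set β := T.ext τ.E 1 Z t with hβ
  have h0 : β.lin τ.e0 x ∈ (T.H (T.prod τ.E Z) (1 + t)).W ((1 + t) + k) := by
    have h1 := β.mem_W (e0_mem τ) hx
    have h2 : (0 : ℤ) + (t + (k + 1 : ℕ)) - 2 * 0 = (1 + t) + k := by push_cast; ring
    rwa [h2] at h1
  have hNx : (T.H Z t).n x ∈ (T.H Z t).W (t + (k + 1 : ℕ) - 2) :=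
    weightSpace_N s.one_lt s.c_Fr (T.H Z t).n_rep hx
  have h1 : β.lin τ.e1 ((T.H Z t).n x) ∈ (T.H (T.prod τ.E Z) (1 + t)).W ((1 + t) + k) := by
    have h1 := β.mem_W (e1_mem τ) hNx
    have h2 : (2 : ℤ) + (t + (k + 1 : ℕ) - 2) - 2 * 0 = (1 + t) + k := by push_cast; ring
    rwa [h2] at h1
  let u := (k : K) • β.lin τ.e0 x - β.lin τ.e1 ((T.H Z t).n x)
  have hu : u ∈ (T.H (T.prod τ.E Z) (1 + t)).W ((1 + t) + k) :=
    Submodule.sub_mem _ (Submodule.smul_mem _ _ h0) h1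
  have huN : ((T.H (T.prod τ.E Z) (1 + t)).n ^ k) u = 0 := by
    rw [map_sub, map_smul, β.n_pow_right (n_e0 τ), β.n_pow_string' (n_e0 τ) τ.N_e1, hN, map_zero,
      zero_add, sub_self]
  refine ⟨1 + t, u, hu, fun hu0 => ?_, huN⟩
  obtain ⟨m', hm', e', he'⟩ := T.toTheory.toG.exists_dual τ.E 1 τ.e0_ne
  have h3 := congrArg (fun v => (T.act τ.E 1 m' Z t (1 + t) hm' rfl).lin v e') hu0
  let p : (T.H τ.E 1).V → K := fun x => (T.pair τ.E 1 m' hm').map x e'
  have hp : p τ.e0 ≠ 0 := he'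
  have h4 : ∀ (x : (T.H τ.E 1).V) (y : (T.H Z t).V),
      (T.act τ.E 1 m' Z t (1 + t) hm' rfl).lin (β.lin x y) e' = p x • y := fun x y =>
    T.act_ext τ.E 1 m' Z t hm' x y e'
  simp only [u, map_sub, map_smul, LinearMap.sub_apply, LinearMap.smul_apply, h4, map_zero,
    LinearMap.zero_apply] at h3
  have h5 : ((k : K) * p τ.e0) • x ∈
      (T.H Z t).W (t + (k + 1 : ℕ)) := Submodule.smul_mem _ _ hx
  have h6 : ((k : K) * p τ.e0) • x ∈
      (T.H Z t).W (t + (k + 1 : ℕ) - 2) := by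
    rw [mul_smul, sub_eq_zero.1 h3]
    exact Submodule.smul_mem _ _ hNx
  have h7 : Disjoint ((T.H Z t).W (t + (k + 1 : ℕ))) ((T.H Z t).W (t + (k + 1 : ℕ) - 2)) :=
    (weightSpace_indep s.one_lt).pairwiseDisjoint (by omega)
  have h8 := (Submodule.disjoint_def.1 h7) _ h5 h6
  have hk0 : (k : K) ≠ 0 := by
    have : k ≠ 0 := by omega
    exact_mod_cast this
  exact (smul_ne_zero (mul_ne_zero hk0 hp) hx0) h8

theorem e1_ne : τ.e1 ≠ 0 := by
  intro h
  have h1 : (T.H τ.E 1).n τ.e1 = τ.e0 := τ.N_e1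
  rw [h, map_zero] at h1
  exact τ.e0_ne h1.symm

theorem Fail.up {Z : T.Obj} {k : ℕ} (h : T.Fail Z k) : T.Fail (T.prod τ.E Z) (k + 1) := by
  obtain ⟨m, x, hx, hx0, hN⟩ := h
  refine ⟨1 + m, (T.ext τ.E 1 Z m).lin τ.e1 x, ?_,
    T.toTheory.toG.ext_ne (X := τ.E) (Y := Z) (e1_ne τ) hx0, ?_⟩
  · have h1 := (T.ext τ.E 1 Z m).mem_W (e1_mem τ) hx
    have h2 : (2 : ℤ) + (m + k) - 2 * 0 = 1 + m + (k + 1 : ℕ) := by push_cast; ring
    rwa [h2] at h1
  · have hn : ∀ (j : ℕ) (y : (T.H Z m).V),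
        ((T.H (T.prod τ.E Z) (1 + m)).n ^ j) ((T.ext τ.E 1 Z m).lin τ.e1 y) =
          (T.ext τ.E 1 Z m).lin τ.e1 (((T.H Z m).n ^ j) y) +
            (j : K) • ((T.H (T.prod τ.E Z) (1 + m)).n ^ (j - 1))
              ((T.ext τ.E 1 Z m).lin τ.e0 y) := by
      intro j
      induction j with
      | zero => intro y; simp
      | succ j ih =>
        intro y
        have h1 := (T.ext τ.E 1 Z m).lin_n τ.e1 y
        rw [show (T.H τ.E 1).n τ.e1 = τ.e0 from τ.N_e1] at h1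
        rw [pow_succ, Module.End.mul_apply, ← h1, map_add, ih, pow_succ (T.H Z m).n,
          Module.End.mul_apply, Nat.add_sub_cancel]
        have h2 := (T.ext τ.E 1 Z m).n_pow_right (n_e0 τ) (j - 1) ((T.H Z m).n y)
        rcases Nat.eq_zero_or_pos j with rfl | hj
        · simp [add_comm]
        · obtain ⟨i, rfl⟩ := Nat.exists_eq_add_of_le' hj
          rw [Nat.add_sub_cancel] at h2 ⊢
          rw [h2, (T.ext τ.E 1 Z m).n_pow_right (n_e0 τ) (i + 1) y, pow_succ (T.H Z m).n,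
            Module.End.mul_apply]
          push_cast
          rw [add_smul ((i : K) + 1) 1, one_smul]
          abel
    rw [hn, Nat.add_sub_cancel, (T.ext τ.E 1 Z m).n_pow_right (n_e0 τ), pow_succ', hN,
      Module.End.mul_apply, hN]
    simp

/-- The variety `E^k × X`. -/
def pow (X : T.Obj) : ℕ → T.Obj
  | 0 => X
  | k + 1 => T.prod τ.E (pow X k)

theorem Fail.iter {X : T.Obj} {j : ℕ} (hj : 1 ≤ j) (h : T.Fail X j) : ∀ (i e : ℕ), 1 ≤ e →
    e ≤ i + j → j ≤ i + e → T.Fail (pow τ X i) e := by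
  intro i
  induction i with
  | zero =>
    intro e _ h1 h2
    obtain rfl : e = j := by omega
    exact h
  | succ i ih =>
    intro e he h1 h2
    rcases lt_trichotomy e j with h3 | h3 | h3
    · exact Fail.down τ he (ih (e + 1) (by omega) (by omega) (by omega))
    · exact Fail.same τ (ih e he (by omega) (by omega))
    · obtain ⟨e', rfl⟩ := Nat.exists_eq_add_of_le' he
      exact Fail.up τ (ih e' (by omega) (by omega) (by omega))

end FullTheory

end WD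

variable {P Γ : Type} [Field P] [CharZero P] [Group Γ] {s : PadicGroup P Γ}

/-- The theory of the Weil-Deligne representations. -/
def PstFullTheory.toFull (C : PstFullTheory s) : FullTheory s.weil where
  Obj := C.Obj
  dim := C.dim
  prod := C.prod
  dim_prod := C.dim_prod
  H X m := (C.H X m).toWD
  mixed := C.mixed
  ext X m Y n := (C.ext X m Y n).toWD
  pair X m m' h := (C.pair X m m' h).toWDUnit
  perfect X m m' h := C.perfect X m m' h
  act X m m' Y n t h ht := (C.act X m m' Y n t h ht).toWD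
  act_ext X m m' Y n h x y x' := C.act_ext X m m' Y n h x y x'
  detect X Y t z h := C.detect X Y t z h

def PstTate.toTate {C : PstFullTheory s} (τ : PstTate C) : TateCurve C.toFull where
  E := τ.E
  dim_E := τ.dim_E
  one := τ.one
  e0 := τ.e0
  e1 := τ.e1
  pt := τ.pt
  one_ne := τ.one_ne
  e0_ne := τ.e0_ne
  pt_ne := τ.pt_ne
  one_inv := τ.one_crys.inv
  e0_inv := τ.e0_crys.inv
  e1_twist := by
    intro g
    change (C.H τ.E 1).act g (((C.H τ.E 1).φ ^ s.n g) τ.e1) = _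
    have h1 : (C.H τ.E 1).φ τ.e1 = (s.p : P) ^ (1 : ℤ) • τ.e1 := by rw [zpow_one, τ.φ_e1]
    rw [PstMod.φ_pow_of h1, PstMod.act_smul, τ.act_e1, s.c_eq]
    rfl
  N_e1 := τ.N_e1
  pt_inv := τ.pt_crys.inv

theorem PstTate.toTate_span {C : PstFullTheory s} {τ : PstTate C} (h : τ.Span) :
    τ.toTate.Span := h

namespace PstLocal

variable {C : PstLocal s}

theorem pow_eq (X : C.Obj) (k : ℕ) : FullTheory.pow C.tate.toTate X k = C.power X k := by
  induction k with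
  | zero => rfl
  | succ k ih =>
    change C.prod C.tate.E (FullTheory.pow C.tate.toTate X k) = C.prod C.tate.E (C.power X k)
    rw [ih]

theorem over_power (X : C.Obj) (k : ℕ) : C.Over X (C.power X k) := by
  induction k with
  | zero => exact Over.base
  | succ k ih => exact Over.tate ih

theorem inj_over {X Z : C.Obj} (hX : ∀ t, (C.H X t).toWD.Inj t) (h : C.Over X Z) :
    ∀ t, (C.H Z t).toWD.Inj t := by
  induction h with
  | base => exact hX
  | tate _ ih =>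
    exact FullTheory.inj_tate (T := C.toFull) (τ := C.tate.toTate)
      (PstTate.toTate_span C.tate_span) ih
  | good hY _ ih =>
    exact FullTheory.inj_good (T := C.toFull) (fun n y => C.good _ hY n y) ih

theorem no_of_wm {X : C.Obj} (h : C.WeightMonodromy X) : C.NoCrys X := by
  intro Z hZ m r hmr v hv
  have h1 : v ∈ (C.H Z m).toWD.W (2 * r) := WDRep.mem_W_tate hv.inv.2
  refine inj_over (fun t => WDRep.inj_of_wm (h t)) hZ m 1 le_rfl (2 * r) ?_ v h1 ?_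
  · push_cast; omega
  · rw [pow_one]
    exact hv.1

theorem odd_of_no {X : C.Obj} (h : C.NoCrys X) (k : ℕ) : C.NoCrysOdd (C.power X k) := by
  intro Y hY r v hv
  exact h _ (Over.good hY (over_power X k)) _ r (by omega) v hv

/-- Vectors of weight `t + 1` killed by `N` give elements of `D_cris(V(r))^{φ = 1}`. -/
theorem first_of_odd {Z : C.Obj} (h : C.NoCrysOdd Z) : C.InjectiveAt Z 1 := by
  intro t x hx hN
  rw [Nat.cast_one] at hx
  change (C.H Z t).N x = 0 at hN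
  by_contra hx0
  let S : Submodule P (C.H Z t).V := LinearMap.ker (C.H Z t).toWD.n ⊓ (C.H Z t).toWD.W (t + 1)
  have hsmul0 : ∀ (a : P), a • (0 : (C.H Z t).V) = 0 := smul_zero
  have hS : (C.H Z t).IsPart (t + 1) S := by
    refine ⟨?_, fun x hx => WDRep.mem_W.1 hx.2, fun x hx => ⟨?_, PstMod.weight_φ hx.2⟩,
      fun g x hx => ⟨?_, PstMod.weight_act hx.2 g⟩⟩
    · rw [Submodule.ne_bot_iff]
      exact ⟨x, ⟨hN, WDRep.mem_W.2 hx⟩, hx0⟩
    · change (C.H Z t).N ((C.H Z t).φ x) = 0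
      have h1 : (C.H Z t).N x = 0 := hx.1
      have h2 : (C.H Z t).φ (0 : (C.H Z t).V) = 0 := by
        have h3 := (C.H Z t).φ_pow_zero 1
        rwa [zpow_one] at h3
      rw [(C.H Z t).N_φ, h1, h2, hsmul0]
    · change (C.H Z t).N ((C.H Z t).act g x) = 0
      have h1 : (C.H Z t).N x = 0 := hx.1
      rw [(C.H Z t).N_act, h1, (C.H Z t).act_zero]
  obtain ⟨Y, n, j, hY, hj, z, hz, hz0, hz1, hz2⟩ := C.partner Z t _ S hS
  have hSN : ∀ x ∈ S, (C.H Z t).toWD.n x = 0 := fun x hx => LinearMap.mem_ker.1 hx.1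
  have hzN : (C.H (C.prod Y Z) (n + t)).N z = 0 :=
    Cohomology.Pairing.n_tensor (C.ext Y n Z t).toWD (fun y => (C.good Y hY n y).1) hSN hz
  have e : n + t = 2 * j - 1 := by omega
  have h2 : ∀ μ : ℤ, μ = 2 * j - 1 → ∀ v, (C.H (C.prod Y Z) μ).IsCrys j v → v = 0 := by
    rintro μ rfl v hv
    exact h Y hY j v hv
  exact hz0 (h2 _ e z ⟨hzN, hz1, hz2⟩)

theorem fail_bound {X : C.Obj} {k : ℕ} (h : C.toFull.Fail X k) : k ≤ C.dim X := by
  obtain ⟨m, x, hx, hx0, _⟩ := h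
  obtain ⟨h1, h2⟩ := C.bound X m (m + k) x hx0 (WDRep.mem_W.1 hx)
  omega

theorem wm_of_injectiveAt {X : C.Obj} {k e : ℕ} (he : 1 ≤ e) (hek : e ≤ k + 1)
    (hk : C.dim X ≤ k + e) (h : C.InjectiveAt (C.power X k) e) : C.WeightMonodromy X := by
  refine fun m => FullTheory.wm_of_inj (T := C.toFull) (X := X) ?_ m
  intro m j x hx hN
  by_contra hx0
  rcases Nat.eq_zero_or_pos j with rfl | hj
  · rw [pow_zero, Module.End.one_apply] at hN
    exact hx0 hN
  have h1 : C.toFull.Fail X j := ⟨m, x, hx, hx0, hN⟩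
  have h2 := fail_bound h1
  have h3 := FullTheory.Fail.iter C.tate.toTate hj h1 k e he (by omega) (by omega)
  rw [pow_eq] at h3
  obtain ⟨t, y, hy, hy0, hyN⟩ := h3
  refine hy0 (h t y (WDRep.mem_W.1 hy) ?_)
  rw [← WDRep.N_iter] at hyN
  exact hyN

theorem injectiveAt_of_wm {X Z : C.Obj} (h : C.WeightMonodromy X) (hZ : C.Over X Z) {e : ℕ}
    (he : 1 ≤ e) : C.InjectiveAt Z e := by
  intro t v hv hN
  refine inj_over (fun t => WDRep.inj_of_wm (h t)) hZ t e he (t + e) le_rfl v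
    (WDRep.mem_W.2 hv) ?_
  rw [← WDRep.N_iter]
  exact hN

/-- There is a nonzero vector in `D_cris(V(r))^{φ = 1}`, `V = H^μ(Z)`. -/
def Inv (C : PstLocal s) (Z : C.Obj) (μ r : ℤ) : Prop :=
  ∃ z : (C.H Z μ).V, z ≠ 0 ∧ (C.H Z μ).IsCrys r z

theorem Inv.ext {Y Z : C.Obj} {n μ r' r : ℤ} {y : (C.H Y n).V} (hy0 : y ≠ 0)
    (hy : (C.H Y n).IsCrys r' y) (h : C.Inv Z μ r) :
    C.Inv (C.prod Y Z) (n + μ) (r' + r) := by
  obtain ⟨z, hz0, hz⟩ := h
  refine ⟨(C.ext Y n Z μ).map y z, C.toFull.toTheory.toG.ext_ne (X := Y) (Y := Z) hy0 hz0, ?_,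
    fun g => ?_, ?_⟩
  · rw [← (C.ext Y n Z μ).map_N, hy.1, hz.1]
    change (C.ext Y n Z μ).toWD.lin 0 z + (C.ext Y n Z μ).toWD.lin y 0 = 0
    rw [map_zero, map_zero, LinearMap.zero_apply, add_zero]
  · rw [← (C.ext Y n Z μ).map_act, hy.2.1, hz.2.1]
  · have h1 := (C.ext Y n Z μ).map_φ y z
    rw [zpow_zero, one_smul] at h1
    rw [← h1, hy.2.2, hz.2.2]
    refine (Pairing.map_smul_smul (C.ext Y n Z μ).toWD ((s.p : P) ^ r') ((s.p : P) ^ r) y z).trans ?_
    rw [zpow_add₀ s.p_ne, mul_comm]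
    rfl

/-- Products with a class in the cohomology of `E`. -/
theorem Inv.iter {n r' : ℤ} {y : (C.H C.tate.E n).V} (hy0 : y ≠ 0)
    (hy : (C.H C.tate.E n).IsCrys r' y) {X Z : C.Obj} (hZ : C.Over X Z) {μ r : ℤ}
    (h : C.Inv Z μ r) : ∀ k : ℕ,
    ∃ (Z' : C.Obj) (μ' ρ' : ℤ), C.Over X Z' ∧ C.dim Z' = k + C.dim Z ∧ μ' = μ + k * n ∧
      ρ' = r + k * r' ∧ C.Inv Z' μ' ρ'
  | 0 => ⟨Z, μ, r, hZ, by simp, by simp, by simp, h⟩
  | k + 1 => by
    obtain ⟨Z', μ', ρ', h0, h1, h2, h3, h4⟩ := Inv.iter hy0 hy hZ h k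
    refine ⟨C.prod C.tate.E Z', n + μ', r' + ρ', Over.tate h0, ?_, ?_, ?_, Inv.ext hy0 hy h4⟩
    · rw [C.dim_prod, C.tate.dim_E, h1]; ring
    · rw [h2]; push_cast; ring
    · rw [h3]; push_cast; ring

/-- An invariant below the middle gives an invariant in the middle degree at the central point. -/
theorem Inv.central {X Z : C.Obj} (hZ : C.Over X Z) {μ r : ℤ} (hμ : μ < 2 * r)
    (h : C.Inv Z μ r) :
    ∃ (Z' : C.Obj) (r' : ℤ), C.Over X Z' ∧ (C.dim Z' : ℤ) + 1 = 2 * r' ∧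
      C.Inv Z' (C.dim Z') r' := by
  obtain ⟨Z₁, μ₁, r₁, a0, a1, a2, a3, h₁⟩ :=
    Inv.iter C.tate.pt_ne C.tate.pt_crys hZ h ((C.dim Z : ℤ) - μ).toNat
  obtain ⟨Z₂, μ₂, r₂, b0, b1, b2, b3, h₂⟩ :=
    Inv.iter C.tate.e0_ne C.tate.e0_crys a0 h₁ (2 * r - 1 - μ).toNat
  obtain ⟨Z₃, μ₃, r₃, c0, c1, c2, c3, h₃⟩ :=
    Inv.iter C.tate.one_ne C.tate.one_crys b0 h₂ (μ - C.dim Z + ((C.dim Z : ℤ) - μ).toNat).toNat
  have hs : ((2 * r - 1 - μ).toNat : ℤ) = 2 * r - 1 - μ := Int.toNat_of_nonneg (by omega)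
  have hu : ((μ - C.dim Z + ((C.dim Z : ℤ) - μ).toNat).toNat : ℤ) =
      μ - C.dim Z + ((C.dim Z : ℤ) - μ).toNat :=
    Int.toNat_of_nonneg (by have := Int.self_le_toNat ((C.dim Z : ℤ) - μ); omega)
  set a := ((C.dim Z : ℤ) - μ).toNat with ha
  have hdim : (C.dim Z₃ : ℤ) = μ₃ := by
    rw [c1, b1, a1, c2, b2, a2]
    push_cast
    rw [hs, hu]
    ring
  have hr : μ₃ + 1 = 2 * r₃ := by
    rw [c2, b2, a2, c3, b3, a3, hs]
    ring
  refine ⟨Z₃, r₃, c0, by rw [hdim]; exact hr, ?_⟩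
  rw [hdim]
  exact h₃

theorem central_iff (X : C.Obj) : C.NoCentralCrys X ↔ C.NoCrys X := by
  constructor
  · intro h Z hZ m r hmr v hv
    by_contra hv0
    obtain ⟨Y, r', h0, h1, z, hz0, hz⟩ := Inv.central hZ hmr ⟨v, hv0, hv⟩
    exact hz0 (h Y h0 r' h1 z hz)
  · intro h Z hZ r hr v hv
    exact h Z hZ _ r (by omega) v hv

theorem main (C : PstLocal s) (X : C.Obj) :
    (∀ k e : ℕ, 1 ≤ e → e ≤ k + 1 → C.dim X ≤ k + e →
      (C.WeightMonodromy X ↔ C.InjectiveAt (C.power X k) e)) ∧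
    (∀ k : ℕ, C.dim X ≤ k + 1 → (C.WeightMonodromy X ↔ C.NoCrysOdd (C.power X k))) ∧
    (C.WeightMonodromy X ↔ C.NoCrys X) ∧ (C.WeightMonodromy X ↔ C.NoCentralCrys X) := by
  have b : ∀ k : ℕ, C.dim X ≤ k + 1 → C.NoCrysOdd (C.power X k) → C.WeightMonodromy X :=
    fun k hk h => wm_of_injectiveAt le_rfl (by omega) hk (first_of_odd h)
  have c : C.NoCrys X → C.WeightMonodromy X := fun h => b (C.dim X) (by omega) (odd_of_no h _)
  exact ⟨fun k e he hek hk => ⟨fun h => injectiveAt_of_wm h (over_power X k) he,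
      wm_of_injectiveAt he hek hk⟩,
    fun k hk => ⟨fun h => odd_of_no (no_of_wm h) k, b k hk⟩, ⟨no_of_wm, c⟩,
    ⟨fun h => (central_iff X).2 (no_of_wm h), fun h => c ((central_iff X).1 h)⟩⟩

end PstLocal

end Pool.Agent.Y129.WM
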